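import Pool.Graph.R_pool_sql_team_seeded_63374d34.N566.VV.Core
import Pool.Graph.R_pool_sql_team_seeded_63374d34.N346.VV.Tw
import Pool.Graph.R_pool_sql_team_seeded_63374d34.N11.VV.Tree
import Pool.Graph.R_seed8.W709.QAT.Stm

/-!
# Sliced diagrams of closures of (1,1)-tangles, part 1: the operators on lists and on functions

`Pool.Agent.W709.QAT`: diagrams as lists of elementary parts from bottom to top, with operators on
functions of lists of labels.  `Pool.Agent.N566.VV`: oriented sliced diagrams (words from top to
bottom) with operators on functions of states `ℕ → ι`.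
-/

set_option autoImplicit false

namespace Pool.Agent.KS6_92

open Pool.Agent.H835R2.Knot
open Pool.Agent.N566.VV
open Pool.Agent.H550R3.Jones (br brf Adm crossP crossN)
open Finset

/-- elementary parts of diagrams which are read from bottom to top -/
abbrev QP : Type := Pool.Agent.W709.QAT.Piece

/-- the pieces of an elementary part, from top to bottom (maxima are drawn as `birth _ true`) -/
def pieceW : QP → Word
  | .cup i => [.death i]
  | .cap i => [.birth i true]
  | .twist i σ m => List.replicate m (if σ then .pos i else .neg i)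

/-- the word of a diagram -/
def tangW : List QP → Word
  | [] => []
  | P :: E => tangW E ++ pieceW P

/-- the closure of a diagram with one strand at the bottom and one at the top -/
def closW (E : List QP) : Word := .birth 0 true :: (tangW E ++ [.death 0])

/-- `n` strands at the bottom, `m` strands at the top -/
def Wf : List QP → ℕ → ℕ → Prop
  | [], n, m => n = m
  | P :: E, n, m => ∃ n', P.strands n = some n' ∧ Wf E n' m

/-! ### states -/

section
variable {ι : Type}

/-- a list, continued by a function -/
def cat : List ι → (ℕ → ι) → ℕ → ι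
  | [], τ => τ
  | a :: l, τ => fun p => Nat.casesOn p a (cat l τ)

@[simp] lemma cat_nil (τ : ℕ → ι) : cat [] τ = τ := rfl

lemma cat_zero (a : ι) (l : List ι) (τ : ℕ → ι) : cat (a :: l) τ 0 = a := rfl

lemma cat_succ (a : ι) (l : List ι) (τ : ℕ → ι) (p : ℕ) : cat (a :: l) τ (p + 1) = cat l τ p := rfl

lemma cat_at (L : List ι) (a : ι) (r : List ι) (τ : ℕ → ι) :
    cat (L ++ a :: r) τ L.length = a := by
  induction L with
  | nil => rfl
  | cons x L ih => exact ih

lemma cat_at1 (L : List ι) (a b : ι) (r : List ι) (τ : ℕ → ι) :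
    cat (L ++ a :: b :: r) τ (L.length + 1) = b := by
  induction L with
  | nil => rfl
  | cons x L ih => exact ih

lemma insS_cat (L r : List ι) (x y : ι) (τ : ℕ → ι) :
    insS L.length x y (cat (L ++ r) τ) = cat (L ++ x :: y :: r) τ := by
  induction L with
  | nil =>
    funext p
    rcases p with _ | _ | p
    · rfl
    · rfl
    · show (if p + 1 + 1 < 0 then _ else if p + 1 + 1 = 0 then x else if p + 1 + 1 = 0 + 1 then y
        else cat r τ (p + 1 + 1 - 2)) = cat r τ p
      rw [if_neg (by omega), if_neg (by omega), if_neg (by omega)]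
      rfl
  | cons a L ih =>
    funext p
    rcases p with _ | p
    · show (if 0 < L.length + 1 then a else _) = a
      rw [if_pos (by omega)]
    · have h := congrFun ih p
      show (if p + 1 < L.length + 1 then cat (L ++ r) τ p else if p + 1 = L.length + 1 then x else
        if p + 1 = L.length + 1 + 1 then y else cat (a :: (L ++ r)) τ (p + 1 - 2)) =
        cat (L ++ x :: y :: r) τ p
      rw [← h]
      unfold insS
      by_cases h1 : p < L.length
      · rw [if_pos h1, if_pos (by omega)]
      · rw [if_neg h1, if_neg (by omega)]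
        by_cases h2 : p = L.length
        · rw [if_pos h2, if_pos (by omega)]
        · rw [if_neg h2, if_neg (by omega)]
          by_cases h3 : p = L.length + 1
          · rw [if_pos h3, if_pos (by omega)]
          · rw [if_neg h3, if_neg (by omega)]
            have e : p + 1 - 2 = (p - 2) + 1 := by omega
            rw [e]
            rfl

lemma delS_cat (L r : List ι) (x y : ι) (τ : ℕ → ι) :
    delS L.length (cat (L ++ x :: y :: r) τ) = cat (L ++ r) τ := by
  induction L with
  | nil =>
    funext p
    show (if p < 0 then _ else cat (x :: y :: r) τ (p + 2)) = _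
    rw [if_neg (by omega)]
    rfl
  | cons a L ih =>
    funext p
    rcases p with _ | p
    · show (if 0 < L.length + 1 then a else _) = a
      rw [if_pos (by omega)]
    · have h := congrFun ih p
      show (if p + 1 < L.length + 1 then cat (L ++ x :: y :: r) τ p else
        cat (L ++ x :: y :: r) τ (p + 2)) = cat (L ++ r) τ p
      rw [← h]
      unfold delS
      by_cases h1 : p < L.length
      · rw [if_pos h1, if_pos (by omega)]
      · rw [if_neg h1, if_neg (by omega)]

lemma updS_cat (L r : List ι) (a b x y : ι) (τ : ℕ → ι) :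
    updS L.length x y (cat (L ++ a :: b :: r) τ) = cat (L ++ x :: y :: r) τ := by
  induction L with
  | nil =>
    funext p
    rcases p with _ | _ | p
    · rfl
    · rfl
    · show (if p + 1 + 1 = 0 then x else if p + 1 + 1 = 0 + 1 then y else cat r τ p) = cat r τ p
      rw [if_neg (by omega), if_neg (by omega)]
  | cons c L ih =>
    funext p
    rcases p with _ | p
    · show (if 0 = L.length + 1 then x else if 0 = L.length + 1 + 1 then y else c) = c
      rw [if_neg (by omega), if_neg (by omega)]
    · have h := congrFun ih p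
      show (if p + 1 = L.length + 1 then x else if p + 1 = L.length + 1 + 1 then y else
        cat (L ++ a :: b :: r) τ p) = cat (L ++ x :: y :: r) τ p
      rw [← h]
      unfold updS
      by_cases h1 : p = L.length
      · rw [if_pos h1, if_pos (by omega)]
      · rw [if_neg h1, if_neg (by omega)]
        by_cases h2 : p = L.length + 1
        · rw [if_pos h2, if_pos (by omega)]
        · rw [if_neg h2, if_neg (by omega)]

end

/-! ### the operators of pieces, on lists -/

open Pool.Agent.W709.QAT (Piece.act Piece.strands run)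

lemma take_len {α : Type} (L r : List α) : (L ++ r).take L.length = L := by simp

lemma drop_len {α : Type} (L r : List α) : (L ++ r).drop L.length = r := by simp

lemma act_cup {N : ℕ} (v : ℂ) (f : List (Fin N) → ℂ) (L : List (Fin N)) (a b : Fin N)
    (r : List (Fin N)) : (Pool.Agent.W709.QAT.Piece.cup L.length).act N v f (L ++ a :: b :: r) =
      Pool.Agent.W709.QAT.cup N v (a, b) * f (L ++ r) := by
  unfold Pool.Agent.W709.QAT.Piece.act
  simp only [take_len, drop_len]

lemma act_cap {N : ℕ} (v : ℂ) (f : List (Fin N) → ℂ) (L r : List (Fin N)) :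
    (Pool.Agent.W709.QAT.Piece.cap L.length).act N v f (L ++ r) =
      ∑ p : Fin N × Fin N, Pool.Agent.W709.QAT.cap N v p * f (L ++ p.1 :: p.2 :: r) := by
  unfold Pool.Agent.W709.QAT.Piece.act
  simp only [take_len, drop_len]

lemma act_twist {N : ℕ} (v : ℂ) (σ : Bool) (m : ℕ) (f : List (Fin N) → ℂ) (L : List (Fin N))
    (a b : Fin N) (r : List (Fin N)) :
    (Pool.Agent.W709.QAT.Piece.twist L.length σ m).act N v f (L ++ a :: b :: r) =
      ∑ p : Fin N × Fin N, ((if σ then crossP N v else crossN N v) ^ m) (a, b) p *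
        f (L ++ p.1 :: p.2 :: r) := by
  unfold Pool.Agent.W709.QAT.Piece.act
  simp only [take_len, drop_len]

lemma split2 {α : Type} {i : ℕ} {l : List α} (h : i + 2 ≤ l.length) :
    ∃ (L r : List α) (a b : α), L.length = i ∧ l = L ++ a :: b :: r := by
  refine ⟨l.take i, (l.drop i).drop 2, l[i], l[i + 1], ?_, ?_⟩
  · rw [List.length_take]
    omega
  · have h1 : l.drop i = l[i] :: l[i + 1] :: (l.drop i).drop 2 := by
      rw [List.drop_eq_getElem_cons (by omega), List.drop_eq_getElem_cons (by omega)]
      rfl
    rw [← h1, List.take_append_drop]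

lemma split0 {α : Type} {i : ℕ} {l : List α} (h : i ≤ l.length) :
    ∃ (L r : List α), L.length = i ∧ l = L ++ r :=
  ⟨l.take i, l.drop i, by rw [List.length_take]; omega, (List.take_append_drop i l).symm⟩

/-- the operator of a piece depends on the values on lists of the right length only -/
lemma act_congr {N : ℕ} (v : ℂ) (P : QP) {n n' : ℕ} (h : P.strands n = some n')
    {f f' : List (Fin N) → ℂ} (hf : ∀ l, l.length = n → f l = f' l) (l : List (Fin N))
    (hl : l.length = n') : P.act N v f l = P.act N v f' l := by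
  cases P with
  | cup i =>
    unfold Pool.Agent.W709.QAT.Piece.strands at h
    simp only at h
    split_ifs at h with hi
    obtain rfl := Option.some.inj h
    obtain ⟨L, r, a, b, rfl, rfl⟩ := split2 (i := i) (l := l) (by omega)
    rw [act_cup, act_cup, hf]
    simp only [List.length_append, List.length_cons] at hl ⊢
    omega
  | cap i =>
    unfold Pool.Agent.W709.QAT.Piece.strands at h
    simp only at h
    split_ifs at h with hi
    obtain rfl := Option.some.inj h
    obtain ⟨L, r, rfl, rfl⟩ := split0 (i := i) (l := l) (by omega)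
    rw [act_cap, act_cap]
    refine Finset.sum_congr rfl fun p _ => ?_
    rw [hf]
    simp only [List.length_append, List.length_cons] at hl ⊢
    omega
  | twist i σ m =>
    unfold Pool.Agent.W709.QAT.Piece.strands at h
    simp only at h
    split_ifs at h with hi
    obtain rfl := Option.some.inj h
    obtain ⟨L, r, a, b, rfl, rfl⟩ := split2 (i := i) (l := l) (by omega)
    rw [act_twist, act_twist]
    refine Finset.sum_congr rfl fun p _ => ?_
    rw [hf]
    simp only [List.length_append, List.length_cons] at hl ⊢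
    omega

lemma run_cons {N : ℕ} (v : ℂ) (P : QP) (E : List QP) (f : List (Fin N) → ℂ) :
    run N v (P :: E) f = run N v E (P.act N v f) := rfl

lemma run_congr {N : ℕ} (v : ℂ) : ∀ (E : List QP) {n m : ℕ}, Wf E n m →
    ∀ {f f' : List (Fin N) → ℂ}, (∀ l, l.length = n → f l = f' l) → ∀ l : List (Fin N),
      l.length = m → run N v E f l = run N v E f' l
  | [], n, m, h, f, f', hf, l, hl => hf l (hl.trans (show n = m from h).symm)
  | P :: E, n, m, h, f, f', hf, l, hl => by
    obtain ⟨n', h1, h2⟩ := h
    rw [run_cons, run_cons]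
    exact run_congr v E h2 (fun l' hl' => act_congr v P h1 hf l' hl') l hl

lemma act_smul {N : ℕ} (v : ℂ) (P : QP) (c : ℂ) (f : List (Fin N) → ℂ) :
    P.act N v (fun l => c * f l) = fun l => c * P.act N v f l := by
  funext s
  cases P with
  | cup i =>
    unfold Pool.Agent.W709.QAT.Piece.act
    simp only
    split
    · ring
    · ring
  | cap i =>
    unfold Pool.Agent.W709.QAT.Piece.act
    simp only [Finset.mul_sum]
    refine Finset.sum_congr rfl fun p _ => ?_
    ring
  | twist i σ m =>
    unfold Pool.Agent.W709.QAT.Piece.act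
    simp only
    split
    · rw [Finset.mul_sum]
      refine Finset.sum_congr rfl fun p _ => ?_
      ring
    · ring

lemma run_smul {N : ℕ} (v : ℂ) : ∀ (E : List QP) (c : ℂ) (f : List (Fin N) → ℂ),
    run N v E (fun l => c * f l) = fun l => c * run N v E f l
  | [], _, _ => rfl
  | P :: E, c, f => by
    rw [run_cons, act_smul, run_smul v E, run_cons]

/-! ### comparison -/

lemma kap_eq (N : ℕ) (v : ℂ) (j : ℕ) : Pool.Agent.W709.QAT.kap N v j = kap N v j := by
  unfold Pool.Agent.W709.QAT.kap kap
  ring

lemma rev_iff {N : ℕ} (a b : Fin N) : b = Fin.rev a ↔ (a : ℕ) + b = N - 1 := by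
  have := a.2
  have := b.2
  rw [Fin.ext_iff, Fin.val_rev]
  omega

/-- one piece -/
lemma piece_op {N : ℕ} (P : QP) {n n' : ℕ} (h : P.strands n = some n') (D : Word) (A : Front)
    (hD : D.map plain = pieceW P) : ∃ e : ℤ, ∀ v : ℂ, Adm N v → ∀ (g : F (Fin N))
      (l : List (Fin N)) (τ : ℕ → Fin N), l.length = n' →
      opD (datJ N v) D A g (cat l τ) = v ^ e * P.act N v (fun l' => g (cat l' τ)) l := by
  cases P with
  | cup i =>
    unfold Pool.Agent.W709.QAT.Piece.strands at h
    simp only at h
    split_ifs at h with hi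
    obtain rfl := Option.some.inj h
    obtain rfl : D = [.death i] := by
      rcases D with _ | ⟨p, _ | ⟨q, D⟩⟩
      · simp [pieceW] at hD
      · simp only [List.map_cons, List.map_nil, pieceW, List.cons.injEq, and_true] at hD
        rw [Pool.Agent.N346.VV.plain_death hD]
      · simp [pieceW] at hD
    refine ⟨0, fun v hv g l τ hl => ?_⟩
    obtain ⟨L, r, a, b, rfl, rfl⟩ := split2 (i := i) (l := l) (by omega)
    rw [act_cup, zpow_zero, one_mul]
    show Dl (datJ N v) L.length g (cat (L ++ a :: b :: r) τ) = _
    unfold Dl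
    rw [cat_at1, cat_at, delS_cat]
    unfold Pool.Agent.W709.QAT.cup
    show (if b = Fin.rev a then _ else _) = _
    by_cases hab : b = Fin.rev a
    · rw [if_pos hab, if_pos ((rev_iff a b).1 hab), kap_eq]
      rfl
    · rw [if_neg hab, if_neg (fun hh => hab ((rev_iff a b).2 hh)), zero_mul]
  | cap i =>
    unfold Pool.Agent.W709.QAT.Piece.strands at h
    simp only at h
    split_ifs at h with hi
    obtain rfl := Option.some.inj h
    obtain ⟨b, rfl⟩ : ∃ b, D = [.birth i b] := by
      rcases D with _ | ⟨p, _ | ⟨q, D⟩⟩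
      · simp [pieceW] at hD
      · simp only [List.map_cons, List.map_nil, pieceW, List.cons.injEq, and_true] at hD
        obtain ⟨b, rfl⟩ := Pool.Agent.N346.VV.plain_birth hD
        exact ⟨b, rfl⟩
      · simp [pieceW] at hD
    refine ⟨0, fun v hv g l τ hl => ?_⟩
    obtain ⟨L, r, rfl, rfl⟩ := split0 (i := i) (l := l) (by omega)
    rw [act_cap, zpow_zero, one_mul]
    show Bl (datJ N v) L.length g (cat (L ++ r) τ) = _
    unfold Bl
    rw [Fintype.sum_prod_type]
    refine Finset.sum_congr rfl fun x _ => ?_
    rw [Finset.sum_eq_single (Fin.rev x)]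
    · rw [insS_cat]
      unfold Pool.Agent.W709.QAT.cap
      rw [if_pos ((rev_iff x (Fin.rev x)).1 rfl), kap_eq]
      rfl
    · intro y _ hy
      unfold Pool.Agent.W709.QAT.cap
      rw [if_neg (fun hh => hy ((rev_iff x y).2 hh)), zero_mul]
    · intro hh
      exact absurd (Finset.mem_univ _) hh
  | twist i σ m =>
    unfold Pool.Agent.W709.QAT.Piece.strands at h
    simp only at h
    split_ifs at h with hi
    obtain rfl := Option.some.inj h
    have key : Pool.Agent.N346.VV.Rep N D A
        (fun v => (if σ then crossP N v else crossN N v) ^ m) i := by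
      cases σ with
      | true => exact Pool.Agent.N346.VV.Rep.posN N i m D A hD
      | false => exact Pool.Agent.N346.VV.Rep.negN N i m D A hD
    obtain ⟨e, he⟩ := key
    refine ⟨e, fun v hv g l τ hl => ?_⟩
    obtain ⟨L, r, a, b, rfl, rfl⟩ := split2 (i := i) (l := l) (by omega)
    rw [he v hv, act_twist]
    show v ^ e * Xl _ L.length g (cat (L ++ a :: b :: r) τ) = _
    unfold Xl
    rw [cat_at, cat_at1]
    congr 1
    refine Finset.sum_congr rfl fun p _ => ?_
    rw [updS_cat]

/-- the operator of a diagram -/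
lemma tang_op {N : ℕ} : ∀ (E : List QP) {n m : ℕ}, Wf E n m → ∀ (D : Word) (A : Front),
    D.map plain = tangW E → ∃ e : ℤ, ∀ v : ℂ, Adm N v → ∀ (g : F (Fin N))
      (l : List (Fin N)) (τ : ℕ → Fin N), l.length = m →
      opD (datJ N v) D A g (cat l τ) = v ^ e * run N v E (fun l' => g (cat l' τ)) l
  | [], n, m, h, D, A, hD => by
    obtain rfl : D = [] := by simpa [tangW] using hD
    refine ⟨0, fun v hv g l τ hl => ?_⟩
    rw [zpow_zero, one_mul]
    rfl
  | P :: E, n, m, h, D, A, hD => by
    obtain ⟨n', h1, h2⟩ := h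
    unfold tangW at hD
    obtain ⟨D1, D2, rfl, hD1, hD2⟩ := List.map_eq_append_iff.1 hD
    obtain ⟨e1, he1⟩ := tang_op E h2 D1 A hD1
    obtain ⟨e2, he2⟩ := piece_op (N := N) P h1 D2 (Pool.Agent.H835R2.Knot.run D1 A) hD2
    refine ⟨e1 + e2, fun v hv g l τ hl => ?_⟩
    rw [Pool.Agent.N346.VV.opD_append, he1 v hv _ l τ hl, run_cons]
    rw [run_congr v E h2 (f' := fun l' => v ^ e2 * P.act N v (fun l'' => g (cat l'' τ)) l')
      (fun l' hl' => he2 v hv g l' τ hl') l hl, run_smul, zpow_add₀ hv.1, mul_assoc]

/-- `δ_x` -/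
def dlt {N : ℕ} (x : Fin N) : List (Fin N) → ℂ := fun l => if l = [x] then 1 else 0

/-- the value of the closure -/
theorem val_clos {N : ℕ} (hN : Odd N) (E : List QP) (h : Wf E 1 1) (D : Word)
    (hD : D.map plain = closW E) : ∃ e : ℤ, ∀ v : ℂ, Adm N v → ∀ σ : ℕ → Fin N,
      val (datJ N v) D σ = v ^ e * ∑ x : Fin N, v ^ ((N : ℤ) - 1 - 2 * (x : ℕ)) *
        run N v E (dlt x) [x] := by
  unfold closW at hD
  obtain ⟨p, D', rfl, hp, hD'⟩ := List.map_eq_cons_iff.1 hD
  obtain ⟨b, rfl⟩ := Pool.Agent.N346.VV.plain_birth hp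
  obtain ⟨D1, D2, rfl, hD1, hD2⟩ := List.map_eq_append_iff.1 hD'
  obtain rfl : D2 = [.death 0] := by
    rcases D2 with _ | ⟨p, _ | ⟨q, D⟩⟩
    · simp at hD2
    · simp only [List.map_cons, List.map_nil, List.cons.injEq, and_true] at hD2
      rw [Pool.Agent.N346.VV.plain_death hD2]
    · simp at hD2
  set A1 : Front := (Pool.Agent.H835R2.Knot.Piece.birth 0 b).act Front.empty with hA1
  obtain ⟨e, he⟩ := tang_op (N := N) E h D1 A1 hD1
  refine ⟨e, fun v hv σ => ?_⟩
  have h1 : val (datJ N v) (.birth 0 b :: (D1 ++ [.death 0])) σ =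
      ∑ x, (datJ N v).c x * opD (datJ N v) D1 A1 (Dl (datJ N v) 0 (fun _ => 1))
        (insS 0 x (Fin.rev x) σ) := by
    show Bl (datJ N v) 0 (opD (datJ N v) (D1 ++ [.death 0]) A1 (fun _ => 1)) σ = _
    rw [Pool.Agent.N346.VV.opD_append]
    rfl
  rw [h1, Finset.mul_sum]
  refine Finset.sum_congr rfl fun x _ => ?_
  have h2 : insS 0 x (Fin.rev x) σ = cat [x] (cat [Fin.rev x] σ) := by
    have := insS_cat ([] : List (Fin N)) [] x (Fin.rev x) σ
    exact this
  have h3 : opD (datJ N v) D1 A1 (Dl (datJ N v) 0 (fun _ => 1)) (insS 0 x (Fin.rev x) σ) =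
      v ^ e * ((datJ N v).d x * run N v E (dlt x) [x]) := by
    rw [h2, he v hv _ [x] _ rfl]
    congr 1
    rw [run_congr v E h (f' := fun l => (datJ N v).d x * dlt x l) ?_ [x] rfl, run_smul]
    intro l hl
    obtain ⟨y, rfl⟩ := List.length_eq_one_iff.1 hl
    show (if Fin.rev x = Fin.rev y then (datJ N v).d y * 1 else 0) = _
    unfold dlt
    by_cases hxy : y = x
    · subst hxy
      simp
    · have h5 : ¬ (Fin.rev x = Fin.rev y) := fun hh => hxy (Fin.rev_injective hh).symm
      rw [if_neg h5, if_neg (by simpa using hxy), mul_zero]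
  rw [h3]
  have h4 := Pool.Agent.N11.VV.cd_eq N hN v hv x
  rw [← h4]
  ring

end Pool.Agent.KS6_92
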