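import Pool.Agent.KS6_92.Br1
import Pool.Graph.R_pool_sql_team_seeded_63374d34.N93.VV.Sch

/-!
# Sliced diagrams of closures of (1,1)-tangles, part 2: the operator of a (1,1)-tangle is a scalar
-/

set_option autoImplicit false

namespace Pool.Agent.KS6_92

open Pool.Agent.H835R2.Knot
open Pool.Agent.N566.VV
open Pool.Agent.H550R3.Jones (br brf Adm crossP crossN irr tens WM IsInt Gen)
open Pool.Agent.W709.QAT (run)
open Finset
open scoped Kronecker

variable {N : ℕ}

/-- `F` on `V ⊗ V` -/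
noncomputable def F2 (N : ℕ) (v : ℂ) : Matrix (Fin N × Fin N) (Fin N × Fin N) ℂ :=
  (tens v (irr v N) (irr v N)).F

/-- `K⁻¹` on a basis vector -/
noncomputable def kk (v : ℂ) (a : Fin N) : ℂ := v ^ (-((N : ℤ) - 1 - 2 * (a : ℕ)))

/-- the operator of `F` on functions of lists -/
noncomputable def FF (v : ℂ) : List (Fin N) → (List (Fin N) → ℂ) → ℂ
  | [], _ => 0
  | a :: s, f => ∑ x : Fin N, (irr v N).F a x * f (x :: s) + kk v a * FF v s (fun r => f (a :: r))

lemma FF_nil (v : ℂ) (f : List (Fin N) → ℂ) : FF v [] f = 0 := rfl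

lemma FF_cons (v : ℂ) (a : Fin N) (s : List (Fin N)) (f : List (Fin N) → ℂ) :
    FF v (a :: s) f = ∑ x : Fin N, (irr v N).F a x * f (x :: s) +
      kk v a * FF v s (fun r => f (a :: r)) := rfl

lemma FF_add (v : ℂ) : ∀ (s : List (Fin N)) (f g : List (Fin N) → ℂ),
    FF v s (fun r => f r + g r) = FF v s f + FF v s g
  | [], _, _ => by simp [FF_nil]
  | a :: s, f, g => by
    rw [FF_cons, FF_cons, FF_cons, FF_add v s]
    simp only [mul_add, Finset.sum_add_distrib]
    ring

lemma FF_smul (v : ℂ) (c : ℂ) : ∀ (s : List (Fin N)) (f : List (Fin N) → ℂ),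
    FF v s (fun r => c * f r) = c * FF v s f
  | [], _ => by simp [FF_nil]
  | a :: s, f => by
    rw [FF_cons, FF_cons, FF_smul v c s, mul_add, Finset.mul_sum]
    congr 1
    · refine Finset.sum_congr rfl fun x _ => ?_
      ring
    · ring

lemma FF_zero (v : ℂ) (s : List (Fin N)) : FF v s (fun _ => 0) = 0 := by
  have := FF_smul v 0 s (fun _ => 0)
  simpa using this

lemma FF_sum (v : ℂ) {κ : Type} (S : Finset κ) (s : List (Fin N)) (f : κ → List (Fin N) → ℂ) :
    FF v s (fun r => ∑ k ∈ S, f k r) = ∑ k ∈ S, FF v s (f k) := by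
  classical
  induction S using Finset.induction_on with
  | empty => simp [FF_zero]
  | insert a S ha ih =>
    rw [Finset.sum_insert ha, ← ih, ← FF_add]
    congr 1
    funext r
    rw [Finset.sum_insert ha]

lemma F2_apply (v : ℂ) (a b x y : Fin N) : F2 N v (a, b) (x, y) =
    (irr v N).F a x * (if b = y then 1 else 0) + (if a = x then kk v a else 0) * (irr v N).F b y := by
  have h : F2 N v (a, b) (x, y) = (irr v N).F a x * (1 : Matrix (Fin N) (Fin N) ℂ) b y +
      (irr v N).K v (-1) a x * (irr v N).F b y := rfl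
  rw [h, Matrix.one_apply]
  congr 2
  unfold WM.K kk
  rw [Matrix.diagonal_apply]
  have e : (irr v N).wt a = (N : ℤ) - 1 - 2 * (a : ℕ) := rfl
  rw [e, neg_one_mul]

/-- two strands -/
lemma FF_two (v : ℂ) (a b : Fin N) (s : List (Fin N)) (f : List (Fin N) → ℂ) :
    FF v (a :: b :: s) f = ∑ p : Fin N × Fin N, F2 N v (a, b) p * f (p.1 :: p.2 :: s) +
      kk v a * kk v b * FF v s (fun r => f (a :: b :: r)) := by
  rw [FF_cons, FF_cons, mul_add, ← add_assoc, mul_assoc]
  congr 1
  rw [Fintype.sum_prod_type]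
  simp only [F2_apply, add_mul, Finset.sum_add_distrib]
  congr 1
  · refine Finset.sum_congr rfl fun x _ => ?_
    rw [Finset.sum_eq_single b]
    · rw [if_pos rfl, mul_one]
    · intro y _ hy
      rw [if_neg (Ne.symm hy), mul_zero, zero_mul]
    · intro h
      exact absurd (Finset.mem_univ _) h
  · symm
    rw [Finset.sum_eq_single a, Finset.mul_sum]
    · refine Finset.sum_congr rfl fun y _ => ?_
      rw [if_pos rfl]
      ring
    · intro x _ hx
      refine Finset.sum_eq_zero fun y _ => ?_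
      rw [if_neg (Ne.symm hx), zero_mul, zero_mul]
    · intro h
      exact absurd (Finset.mem_univ _) h

/-! ### shifting pieces -/

/-- the piece one strand further to the right -/
def shift : QP → QP
  | .cup i => .cup (i + 1)
  | .cap i => .cap (i + 1)
  | .twist i σ m => .twist (i + 1) σ m

lemma act_shift (v : ℂ) (P : QP) (f : List (Fin N) → ℂ) (a : Fin N) (s : List (Fin N)) :
    (shift P).act N v f (a :: s) = P.act N v (fun r => f (a :: r)) s := by
  cases P <;> rfl

/-- the operator commutes with `F` -/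
def Com (v : ℂ) (P : QP) : Prop := ∀ (f : List (Fin N) → ℂ) (s : List (Fin N)),
  FF v s (P.act N v f) = P.act N v (fun r => FF v r f) s

lemma act_add (v : ℂ) (P : QP) (f g : List (Fin N) → ℂ) (s : List (Fin N)) :
    P.act N v (fun l => f l + g l) s = P.act N v f s + P.act N v g s := by
  cases P with
  | cup i =>
    unfold Pool.Agent.W709.QAT.Piece.act
    simp only
    split
    · ring
    · ring
  | cap i =>
    unfold Pool.Agent.W709.QAT.Piece.act
    simp only [mul_add, Finset.sum_add_distrib]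
  | twist i σ m =>
    unfold Pool.Agent.W709.QAT.Piece.act
    simp only
    split
    · simp only [mul_add, Finset.sum_add_distrib]
    · ring

lemma act_zero (v : ℂ) (P : QP) (s : List (Fin N)) : P.act N v (fun _ => 0) s = 0 := by
  have h := congrFun (act_smul v P 0 (fun _ : List (Fin N) => (0 : ℂ))) s
  simpa using h

lemma act_sum (v : ℂ) (P : QP) {κ : Type} (S : Finset κ) (f : κ → List (Fin N) → ℂ)
    (s : List (Fin N)) :
    P.act N v (fun l => ∑ k ∈ S, f k l) s = ∑ k ∈ S, P.act N v (f k) s := by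
  classical
  induction S using Finset.induction_on with
  | empty => simp [act_zero]
  | insert a S ha ih =>
    rw [Finset.sum_insert ha, ← ih, ← act_add]
    congr 1
    funext r
    rw [Finset.sum_insert ha]

lemma act_smul' (v : ℂ) (P : QP) (c : ℂ) (f : List (Fin N) → ℂ) (s : List (Fin N)) :
    P.act N v (fun l => c * f l) s = c * P.act N v f s := congrFun (act_smul v P c f) s

/-- empty lists -/
lemma com_nil (v : ℂ) {P : QP} (f : List (Fin N) → ℂ)
    (h : (shift P).act N v (fun r => FF v r f) [] = 0) :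
    FF v [] ((shift P).act N v f) = (shift P).act N v (fun r => FF v r f) [] := by
  rw [h, FF_nil]

lemma com_shift {v : ℂ} {P : QP} (h : Com (N := N) v P)
    (h0 : ∀ f : List (Fin N) → ℂ, (shift P).act N v (fun r => FF v r f) [] = 0) :
    Com (N := N) v (shift P) := by
  intro f s
  rcases s with _ | ⟨a, s⟩
  · exact com_nil v f (h0 f)
  · rw [act_shift, FF_cons]
    have e1 : ∀ x : Fin N, (shift P).act N v f (x :: s) = P.act N v (fun r => f (x :: r)) s :=
      fun x => act_shift v P f x s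
    have e2 : (fun r => (shift P).act N v f (a :: r)) = P.act N v (fun r => f (a :: r)) := by
      funext r
      exact act_shift v P f a r
    simp only [e1]
    rw [e2, h]
    have e3 : (fun r => FF v (a :: r) f) = fun r => ∑ x : Fin N, (irr v N).F a x * f (x :: r) +
        kk v a * FF v r (fun r => f (a :: r)) := by
      funext r
      rw [FF_cons]
    rw [e3, act_add, act_sum, act_smul']
    congr 1
    refine Finset.sum_congr rfl fun x _ => ?_
    rw [act_smul']

/-! ### the cup and the cap -/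

lemma irrF_zero (v : ℂ) (a x : Fin N) (h : (a : ℕ) ≠ x + 1) : (irr v N).F a x = 0 := by
  unfold irr
  exact if_neg h

lemma irrF_succ (v : ℂ) (a x : Fin N) (h : (a : ℕ) = x + 1) : (irr v N).F a x = br v ((a : ℕ) : ℤ) := by
  unfold irr
  exact if_pos h

lemma brf_succ (v : ℂ) (n : ℕ) : brf v (n + 1) = brf v n * br v ((n : ℤ) + 1) := by
  unfold Pool.Agent.H550R3.Jones.brf
  rw [Finset.prod_range_succ]

/-- the recursion of the coefficients of the cup -/
lemma kap_rec {v : ℂ} (hv : Adm N v) {j : ℕ} (hj : j + 1 < N) :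
    kap N v (j + 1) * br v ((N : ℤ) - 1 - j) =
      -(v ^ ((N : ℤ) - 3 - 2 * j) * br v ((j : ℤ) + 1) * kap N v j) := by
  unfold kap
  have e1 : N - 1 - j = (N - 1 - (j + 1)) + 1 := by omega
  rw [brf_succ, e1, brf_succ]
  have e2 : (((N - 1 - (j + 1) : ℕ) : ℤ) + 1) = (N : ℤ) - 1 - j := by omega
  rw [e2]
  have e3 : (((j + 1 : ℕ) : ℤ) * ((N : ℤ) - 2 - ((j + 1 : ℕ) : ℤ))) =
      ((N : ℤ) - 3 - 2 * j) + ((j : ℕ) : ℤ) * ((N : ℤ) - 2 - ((j : ℕ) : ℤ)) := by
    push_cast
    ring
  rw [e3, zpow_add₀ hv.1, pow_succ]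
  ring

lemma cup_F {v : ℂ} (hv : Adm N v) (a b : Fin N) :
    ∑ p : Fin N × Fin N, F2 N v (a, b) p * Pool.Agent.W709.QAT.cup N v p = 0 := by
  have h := FF_two v a b ([] : List (Fin N))
    (fun l => match l with | [x, y] => Pool.Agent.W709.QAT.cup N v (x, y) | _ => 0)
  rw [FF_nil, mul_zero, add_zero] at h
  have e : ∑ p : Fin N × Fin N, F2 N v (a, b) p * Pool.Agent.W709.QAT.cup N v p =
      FF v [a, b] (fun l => match l with | [x, y] => Pool.Agent.W709.QAT.cup N v (x, y) | _ => 0) := by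
    rw [h]
  rw [e, FF_cons, FF_cons, FF_nil, mul_zero, add_zero]
  have ha := a.2
  have hb := b.2
  have c1 : ∀ x : Fin N, x ≠ ⟨(a : ℕ) - 1, by omega⟩ → (irr v N).F a x = 0 := by
    intro x hx
    refine irrF_zero v a x fun hh => hx ?_
    ext
    show (x : ℕ) = (a : ℕ) - 1
    omega
  have c2 : ∀ x : Fin N, x ≠ ⟨(b : ℕ) - 1, by omega⟩ → (irr v N).F b x = 0 := by
    intro x hx
    refine irrF_zero v b x fun hh => hx ?_
    ext
    show (x : ℕ) = (b : ℕ) - 1
    omega
  rw [Finset.sum_eq_single (⟨(a : ℕ) - 1, by omega⟩ : Fin N)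
      (fun x _ hx => by rw [c1 x hx, zero_mul]) (fun hh => absurd (Finset.mem_univ _) hh),
    Finset.sum_eq_single (⟨(b : ℕ) - 1, by omega⟩ : Fin N)
      (fun x _ hx => by rw [c2 x hx, zero_mul]) (fun hh => absurd (Finset.mem_univ _) hh)]
  change (irr v N).F a ⟨(a : ℕ) - 1, by omega⟩ *
        (if ((a : ℕ) - 1) + (b : ℕ) = N - 1 then Pool.Agent.W709.QAT.kap N v ((a : ℕ) - 1) else 0) +
      kk v a * ((irr v N).F b ⟨(b : ℕ) - 1, by omega⟩ *
        (if (a : ℕ) + ((b : ℕ) - 1) = N - 1 then Pool.Agent.W709.QAT.kap N v (a : ℕ) else 0)) = 0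
  by_cases h0 : (a : ℕ) + b = N
  · have ha1 : 1 ≤ (a : ℕ) := by omega
    have hb1 : 1 ≤ (b : ℕ) := by omega
    rw [irrF_succ v a _ (by show (a : ℕ) = (a : ℕ) - 1 + 1; omega),
      irrF_succ v b _ (by show (b : ℕ) = (b : ℕ) - 1 + 1; omega),
      if_pos (by omega), if_pos (by omega), kap_eq, kap_eq]
    have h2 := kap_rec hv (j := (a : ℕ) - 1) (by omega)
    have e1 : (a : ℕ) - 1 + 1 = a := by omega
    have e2 : (((a : ℕ) - 1 : ℕ) : ℤ) = (a : ℤ) - 1 := by omega
    rw [e1, e2] at h2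
    have e3 : (N : ℤ) - 1 - ((a : ℤ) - 1) = ((b : ℕ) : ℤ) := by omega
    have e4 : (N : ℤ) - 3 - 2 * ((a : ℤ) - 1) = (N : ℤ) - 1 - 2 * (a : ℕ) := by ring
    have e5 : (a : ℤ) - 1 + 1 = ((a : ℕ) : ℤ) := by ring
    rw [e3, e4, e5] at h2
    unfold kk
    show br v ((a : ℕ) : ℤ) * kap N v ((a : ℕ) - 1) + v ^ (-((N : ℤ) - 1 - 2 * (a : ℕ))) *
      (br v ((b : ℕ) : ℤ) * kap N v (a : ℕ)) = 0
    have e6 : v ^ (-((N : ℤ) - 1 - 2 * (a : ℕ))) * v ^ ((N : ℤ) - 1 - 2 * (a : ℕ)) = 1 := by
      rw [← zpow_add₀ hv.1, neg_add_cancel, zpow_zero]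
    linear_combination v ^ (-((N : ℤ) - 1 - 2 * (a : ℕ))) * h2 -
      (br v ((a : ℕ) : ℤ) * kap N v ((a : ℕ) - 1)) * e6
  · have g1 : (irr v N).F a ⟨(a : ℕ) - 1, by omega⟩ *
        (if ((a : ℕ) - 1) + (b : ℕ) = N - 1 then Pool.Agent.W709.QAT.kap N v ((a : ℕ) - 1) else 0) =
        0 := by
      by_cases ha0 : (a : ℕ) = 0
      · rw [irrF_zero v a _ (by show (a : ℕ) ≠ (a : ℕ) - 1 + 1; omega), zero_mul]
      · rw [if_neg (by omega), mul_zero]
    have g2 : (irr v N).F b ⟨(b : ℕ) - 1, by omega⟩ *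
        (if (a : ℕ) + ((b : ℕ) - 1) = N - 1 then Pool.Agent.W709.QAT.kap N v (a : ℕ) else 0) =
        0 := by
      by_cases hb0 : (b : ℕ) = 0
      · rw [irrF_zero v b _ (by show (b : ℕ) ≠ (b : ℕ) - 1 + 1; omega), zero_mul]
      · rw [if_neg (by omega), mul_zero]
    rw [g1, g2]
    ring

end Pool.Agent.KS6_92
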