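import Pool.Agent.KS6_92.Br2

/-!
# Sliced diagrams of closures of (1,1)-tangles, part 3: the coloured Jones polynomials
-/

set_option autoImplicit false

namespace Pool.Agent.KS6_92

open Pool.Agent.H835R2.Knot
open Pool.Agent.N566.VV
open Pool.Agent.H550R3.Jones (br brf Adm crossP crossN irr tens WM IsInt Gen)
open Pool.Agent.W709.QAT (run)
open Finset
open scoped Kronecker

variable {N : ℕ}

lemma kap_ne {v : ℂ} (hv : Adm N v) {j : ℕ} (hj : j < N) : kap N v j ≠ 0 := by
  unfold kap
  have b1 := Pool.Agent.N11.VV.brf_ne N v hv j hj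
  have b2 := Pool.Agent.N11.VV.brf_ne N v hv (N - 1 - j) (by omega)
  have b3 := Pool.Agent.N11.VV.brf_ne N v hv (N - 1) (by omega)
  have b4 : (-1 : ℂ) ^ j ≠ 0 := pow_ne_zero _ (by norm_num)
  have b5 : v ^ ((j : ℤ) * ((N : ℤ) - 2 - j)) ≠ 0 := zpow_ne_zero _ hv.1
  exact mul_ne_zero (mul_ne_zero b4 (div_ne_zero (mul_ne_zero b1 b2) b3)) b5

lemma cap_F {v : ℂ} (hv : Adm N v) (c d : Fin N) :
    ∑ p : Fin N × Fin N, Pool.Agent.W709.QAT.cap N v p * F2 N v p (c, d) = 0 := by
  have hc := c.2
  have hd := d.2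
  rw [Fintype.sum_prod_type]
  simp only [F2_apply, mul_add, Finset.sum_add_distrib]
  have s1 : ∑ a : Fin N, ∑ b : Fin N, Pool.Agent.W709.QAT.cap N v (a, b) *
      ((irr v N).F a c * (if b = d then 1 else 0)) =
      if (c : ℕ) + d + 2 = N then (kap N v d)⁻¹ * br v ((c : ℤ) + 1) else 0 := by
    have t1 : ∀ a : Fin N, ∑ b : Fin N, Pool.Agent.W709.QAT.cap N v (a, b) *
        ((irr v N).F a c * (if b = d then 1 else 0)) =
        Pool.Agent.W709.QAT.cap N v (a, d) * (irr v N).F a c := by
      intro a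
      rw [Finset.sum_eq_single d]
      · rw [if_pos rfl, mul_one]
      · intro b _ hb
        rw [if_neg hb, mul_zero, mul_zero]
      · intro h
        exact absurd (Finset.mem_univ _) h
    simp only [t1]
    by_cases h : (c : ℕ) + d + 2 = N
    · rw [if_pos h, Finset.sum_eq_single (⟨(c : ℕ) + 1, by omega⟩ : Fin N)]
      · rw [irrF_succ v _ c rfl]
        unfold Pool.Agent.W709.QAT.cap
        rw [if_pos (by show (c : ℕ) + 1 + (d : ℕ) = N - 1; omega), kap_eq]
        push_cast
        rfl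
      · intro a _ ha
        rw [irrF_zero v a c (fun hh => ha (by ext; exact hh)), mul_zero]
      · intro h
        exact absurd (Finset.mem_univ _) h
    · rw [if_neg h]
      refine Finset.sum_eq_zero fun a _ => ?_
      by_cases ha : (a : ℕ) = c + 1
      · unfold Pool.Agent.W709.QAT.cap
        rw [if_neg (by show ¬ (a : ℕ) + (d : ℕ) = N - 1; omega), zero_mul]
      · rw [irrF_zero v a c ha, mul_zero]
  have s2 : ∑ a : Fin N, ∑ b : Fin N, Pool.Agent.W709.QAT.cap N v (a, b) *
      ((if a = c then kk v a else 0) * (irr v N).F b d) =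
      if (c : ℕ) + d + 2 = N then kk v c * ((kap N v (d + 1))⁻¹ * br v ((d : ℤ) + 1)) else 0 := by
    rw [Finset.sum_eq_single c]
    · rw [if_pos rfl]
      by_cases h : (c : ℕ) + d + 2 = N
      · rw [if_pos h, Finset.sum_eq_single (⟨(d : ℕ) + 1, by omega⟩ : Fin N)]
        · rw [irrF_succ v _ d rfl]
          unfold Pool.Agent.W709.QAT.cap
          rw [if_pos (by show (c : ℕ) + ((d : ℕ) + 1) = N - 1; omega), kap_eq]
          push_cast
          ring
        · intro b _ hb
          rw [irrF_zero v b d (fun hh => hb (by ext; exact hh)), mul_zero, mul_zero]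
        · intro h
          exact absurd (Finset.mem_univ _) h
      · rw [if_neg h]
        refine Finset.sum_eq_zero fun b _ => ?_
        by_cases hb : (b : ℕ) = d + 1
        · unfold Pool.Agent.W709.QAT.cap
          rw [if_neg (by show ¬ (c : ℕ) + (b : ℕ) = N - 1; omega), zero_mul]
        · rw [irrF_zero v b d hb, mul_zero, mul_zero]
    · intro a _ ha
      refine Finset.sum_eq_zero fun b _ => ?_
      rw [if_neg ha, zero_mul, mul_zero]
    · intro h
      exact absurd (Finset.mem_univ _) h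
  rw [s1, s2]
  by_cases h : (c : ℕ) + d + 2 = N
  · rw [if_pos h, if_pos h]
    have h2 := kap_rec hv (j := (d : ℕ)) (by omega)
    have e1 : (N : ℤ) - 1 - ((d : ℕ) : ℤ) = (c : ℤ) + 1 := by omega
    rw [e1] at h2
    have e2 : kk v c = v ^ ((N : ℤ) - 3 - 2 * (d : ℕ)) := by
      unfold kk
      congr 1
      omega
    have n1 := kap_ne hv (j := (d : ℕ)) (by omega)
    have n2 := kap_ne hv (j := (d : ℕ) + 1) (by omega)
    rw [e2]
    field_simp
    linear_combination h2
  · rw [if_neg h, if_neg h, add_zero]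

lemma kk_one {v : ℂ} (hv : Adm N v) (a b : Fin N) (h : (a : ℕ) + b = N - 1) :
    kk v a * kk v b = 1 := by
  unfold kk
  rw [← zpow_add₀ hv.1]
  have e : -((N : ℤ) - 1 - 2 * (a : ℕ)) + -((N : ℤ) - 1 - 2 * (b : ℕ)) = 0 := by
    have := a.2
    omega
  rw [e, zpow_zero]

lemma kk_cup {v : ℂ} (hv : Adm N v) (a b : Fin N) :
    kk v a * kk v b * Pool.Agent.W709.QAT.cup N v (a, b) = Pool.Agent.W709.QAT.cup N v (a, b) := by
  by_cases h : (a : ℕ) + b = N - 1
  · rw [kk_one hv a b h, one_mul]
  · have e : Pool.Agent.W709.QAT.cup N v (a, b) = 0 := if_neg h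
    rw [e, mul_zero]

lemma kk_cap {v : ℂ} (hv : Adm N v) (a b : Fin N) :
    Pool.Agent.W709.QAT.cap N v (a, b) * (kk v a * kk v b) =
      Pool.Agent.W709.QAT.cap N v (a, b) := by
  by_cases h : (a : ℕ) + b = N - 1
  · rw [kk_one hv a b h, mul_one]
  · have e : Pool.Agent.W709.QAT.cap N v (a, b) = 0 := if_neg h
    rw [e, zero_mul]

lemma com_cup {v : ℂ} (hv : Adm N v) : ∀ i : ℕ, Com (N := N) v (.cup i)
  | 0 => by
    intro f s
    rcases s with _ | ⟨a, _ | ⟨b, r⟩⟩
    · rfl
    · show FF v [a] _ = 0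
      rw [FF_cons, FF_nil, mul_zero, add_zero]
      refine Finset.sum_eq_zero fun x _ => ?_
      exact mul_zero _
    · have e1 := fun (g : List (Fin N) → ℂ) => act_cup v g [] a b r
      simp only [List.length_nil, List.nil_append] at e1
      rw [e1, FF_two]
      have e2 : ∀ p : Fin N × Fin N, (Pool.Agent.W709.QAT.Piece.cup 0).act N v f
          (p.1 :: p.2 :: r) = Pool.Agent.W709.QAT.cup N v p * f r :=
        fun p => act_cup v f [] p.1 p.2 r
      simp only [e2]
      have e3 : (fun s => (Pool.Agent.W709.QAT.Piece.cup 0).act N v f (a :: b :: s)) =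
          fun s => Pool.Agent.W709.QAT.cup N v (a, b) * f s := by
        funext s
        exact act_cup v f [] a b s
      rw [e3, FF_smul]
      have e4 := cup_F hv a b
      have e5 : ∑ p : Fin N × Fin N, F2 N v (a, b) p * (Pool.Agent.W709.QAT.cup N v p * f r) =
          (∑ p : Fin N × Fin N, F2 N v (a, b) p * Pool.Agent.W709.QAT.cup N v p) * f r := by
        rw [Finset.sum_mul]
        refine Finset.sum_congr rfl fun p _ => ?_
        ring
      rw [e5, e4, zero_mul, zero_add, ← mul_assoc, kk_cup hv]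
  | i + 1 => com_shift (com_cup hv i) fun _ => rfl

lemma com_cap {v : ℂ} (hv : Adm N v) : ∀ i : ℕ, Com (N := N) v (.cap i)
  | 0 => by
    intro f s
    have e1 : ∀ g : List (Fin N) → ℂ, (Pool.Agent.W709.QAT.Piece.cap 0).act N v g =
        fun s => ∑ p : Fin N × Fin N, Pool.Agent.W709.QAT.cap N v p * g (p.1 :: p.2 :: s) := by
      intro g
      funext s
      exact act_cap v g [] s
    rw [e1, e1, FF_sum]
    simp only [FF_smul]
    have e2 : ∀ p : Fin N × Fin N, Pool.Agent.W709.QAT.cap N v p * FF v (p.1 :: p.2 :: s) f =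
        ∑ q : Fin N × Fin N, Pool.Agent.W709.QAT.cap N v p * F2 N v p q * f (q.1 :: q.2 :: s) +
          Pool.Agent.W709.QAT.cap N v p * FF v s (fun r => f (p.1 :: p.2 :: r)) := by
      rintro ⟨a, b⟩
      rw [FF_two, mul_add, Finset.mul_sum]
      congr 1
      · refine Finset.sum_congr rfl fun q _ => ?_
        ring
      · rw [← mul_assoc, kk_cap hv]
    simp only [e2]
    rw [Finset.sum_add_distrib, Finset.sum_comm]
    have e3 : ∀ q : Fin N × Fin N, ∑ p : Fin N × Fin N,
        Pool.Agent.W709.QAT.cap N v p * F2 N v p q * f (q.1 :: q.2 :: s) = 0 := by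
      rintro ⟨c, d⟩
      rw [← Finset.sum_mul, cap_F hv, zero_mul]
    simp only [e3, Finset.sum_const_zero, zero_add]
  | i + 1 => by
    refine com_shift (com_cap hv i) fun f => ?_
    have e1 : (shift (.cap i)).act N v (fun r => FF v r f) [] =
        ∑ p : Fin N × Fin N, Pool.Agent.W709.QAT.cap N v p * FF v [p.1, p.2] f := rfl
    rw [e1]
    have e2 : ∀ p : Fin N × Fin N, Pool.Agent.W709.QAT.cap N v p * FF v [p.1, p.2] f =
        ∑ q : Fin N × Fin N, Pool.Agent.W709.QAT.cap N v p * F2 N v p q * f [q.1, q.2] := by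
      rintro ⟨a, b⟩
      rw [FF_two, FF_nil, mul_zero, add_zero, Finset.mul_sum]
      refine Finset.sum_congr rfl fun q _ => ?_
      ring
    simp only [e2]
    rw [Finset.sum_comm]
    refine Finset.sum_eq_zero ?_
    rintro ⟨c, d⟩ _
    rw [← Finset.sum_mul, cap_F hv, zero_mul]

lemma kk_wt {v : ℂ} (hv : v ≠ 0) (a b c d : Fin N)
    (h : (tens v (irr v N) (irr v N)).wt (a, b) = (tens v (irr v N) (irr v N)).wt (c, d)) :
    kk v a * kk v b = kk v c * kk v d := by
  unfold kk
  rw [← zpow_add₀ hv, ← zpow_add₀ hv]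
  congr 1
  have h' : ((N : ℤ) - 1 - 2 * (a : ℕ)) + ((N : ℤ) - 1 - 2 * (b : ℕ)) =
    ((N : ℤ) - 1 - 2 * (c : ℕ)) + ((N : ℤ) - 1 - 2 * (d : ℕ)) := h
  omega

/-- a matrix on two strands -/
noncomputable def tw (M : Matrix (Fin N × Fin N) (Fin N × Fin N) ℂ) (f : List (Fin N) → ℂ) :
    List (Fin N) → ℂ
  | a :: b :: r => ∑ p : Fin N × Fin N, M (a, b) p * f (p.1 :: p.2 :: r)
  | _ => 0

lemma com_tw0 {v : ℂ} (hv : v ≠ 0) {M : Matrix (Fin N × Fin N) (Fin N × Fin N) ℂ}
    (hM : IsInt (tens v (irr v N) (irr v N)) (tens v (irr v N) (irr v N)) M)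
    (f : List (Fin N) → ℂ) (s : List (Fin N)) :
    FF v s (tw M f) = tw M (fun r => FF v r f) s := by
  rcases s with _ | ⟨a, _ | ⟨b, r⟩⟩
  · rfl
  · show FF v [a] _ = 0
    rw [FF_cons, FF_nil, mul_zero, add_zero]
    refine Finset.sum_eq_zero fun x _ => ?_
    exact mul_zero _
  · rw [FF_two]
    show ∑ q : Fin N × Fin N, F2 N v (a, b) q *
        (∑ p : Fin N × Fin N, M (q.1, q.2) p * f (p.1 :: p.2 :: r)) +
      kk v a * kk v b * FF v r (fun s => ∑ p : Fin N × Fin N, M (a, b) p * f (p.1 :: p.2 :: s)) =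
      ∑ p : Fin N × Fin N, M (a, b) p * FF v (p.1 :: p.2 :: r) f
    rw [FF_sum]
    simp only [FF_smul, FF_two, mul_add, Finset.sum_add_distrib, Finset.mul_sum]
    congr 1
    · rw [Finset.sum_comm]
      have h1 : ∀ p : Fin N × Fin N, ∑ q : Fin N × Fin N, F2 N v (a, b) q *
          (M (q.1, q.2) p * f (p.1 :: p.2 :: r)) = (F2 N v * M) (a, b) p *
            f (p.1 :: p.2 :: r) := by
        intro p
        rw [Matrix.mul_apply, Finset.sum_mul]
        refine Finset.sum_congr rfl fun q _ => ?_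
        ring
      simp only [h1]
      have h2 : ∀ p : Fin N × Fin N, ∑ q : Fin N × Fin N, M (a, b) q *
          (F2 N v (q.1, q.2) p * f (p.1 :: p.2 :: r)) = (M * F2 N v) (a, b) p *
            f (p.1 :: p.2 :: r) := by
        intro p
        rw [Matrix.mul_apply, Finset.sum_mul]
        refine Finset.sum_congr rfl fun q _ => ?_
        ring
      rw [Finset.sum_comm (s := Finset.univ) (t := Finset.univ)
        (f := fun q p => M (a, b) q * (F2 N v (q.1, q.2) p * f (p.1 :: p.2 :: r)))]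
      simp only [h2]
      have h3 : M * F2 N v = F2 N v * M := hM.f
      rw [h3]
    · refine Finset.sum_congr rfl fun p _ => ?_
      by_cases hp : M (a, b) p = 0
      · rw [hp]
        ring
      · have h4 := kk_wt hv a b p.1 p.2 (hM.k _ _ hp)
        rw [h4]
        ring

/-- intertwining crossings -/
def Itw (N : ℕ) (v : ℂ) : Prop :=
  IsInt (tens v (irr v N) (irr v N)) (tens v (irr v N) (irr v N)) (crossP N v) ∧
    IsInt (tens v (irr v N) (irr v N)) (tens v (irr v N) (irr v N)) (crossN N v)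

lemma com_twist {v : ℂ} (hv : v ≠ 0) (hI : Itw N v) (σ : Bool) (m : ℕ) :
    ∀ i : ℕ, Com (N := N) v (.twist i σ m)
  | 0 => by
    intro f s
    have e1 : ∀ g : List (Fin N) → ℂ, (Pool.Agent.W709.QAT.Piece.twist 0 σ m).act N v g =
        tw ((if σ then crossP N v else crossN N v) ^ m) g := by
      intro g
      funext s
      rcases s with _ | ⟨a, _ | ⟨b, r⟩⟩
      · rfl
      · rfl
      · exact act_twist v σ m g [] a b r
    rw [e1, e1]
    refine com_tw0 hv (Pool.Agent.N93.VV.int_pow ?_ m) f s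
    cases σ with
    | true => exact hI.1
    | false => exact hI.2
  | i + 1 => com_shift (com_twist hv hI σ m i) fun _ => rfl

lemma com_all {v : ℂ} (hv : Adm N v) (hI : Itw N v) (P : QP) : Com (N := N) v P := by
  cases P with
  | cup i => exact com_cup hv i
  | cap i => exact com_cap hv i
  | twist i σ m => exact com_twist hv.1 hI σ m i

lemma run_com {v : ℂ} (hv : Adm N v) (hI : Itw N v) : ∀ (E : List QP) (f : List (Fin N) → ℂ)
    (s : List (Fin N)), FF v s (run N v E f) = run N v E (fun r => FF v r f) s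
  | [], _, _ => rfl
  | P :: E, f, s => by
    rw [run_cons, run_com hv hI E, run_cons]
    congr 1
    funext r
    exact com_all hv hI P f r

/-! ### weights -/

/-- the weight of a list -/
def wt : List (Fin N) → ℤ
  | [] => 0
  | a :: s => ((N : ℤ) - 1 - 2 * (a : ℕ)) + wt s

lemma wt_append (s t : List (Fin N)) : wt (s ++ t) = wt s + wt t := by
  induction s with
  | nil => simp [wt]
  | cons a s ih =>
    show ((N : ℤ) - 1 - 2 * (a : ℕ)) + wt (s ++ t) = ((N : ℤ) - 1 - 2 * (a : ℕ)) + wt s + wt t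
    rw [ih, add_assoc]

lemma wt_act {v : ℂ} (hI : Itw N v) (P : QP) {w : ℤ} {f : List (Fin N) → ℂ}
    (hf : ∀ l, f l ≠ 0 → wt l = w) (l : List (Fin N)) (h : P.act N v f l ≠ 0) : wt l = w := by
  cases P with
  | cup i =>
    unfold Pool.Agent.W709.QAT.Piece.act at h
    simp only at h
    split at h
    · next a b r hr =>
      have h1 := left_ne_zero_of_mul h
      have h2 := hf _ (right_ne_zero_of_mul h)
      have h3 : (a : ℕ) + b = N - 1 := by
        by_contra hh
        exact h1 (if_neg hh)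
      have h4 : l = l.take i ++ a :: b :: r := by rw [← hr, List.take_append_drop]
      rw [h4, wt_append]
      rw [wt_append] at h2
      rw [← h2]
      show wt (l.take i) + (((N : ℤ) - 1 - 2 * (a : ℕ)) + (((N : ℤ) - 1 - 2 * (b : ℕ)) + wt r)) = _
      have := a.2
      omega
    · exact absurd rfl h
  | cap i =>
    unfold Pool.Agent.W709.QAT.Piece.act at h
    simp only at h
    obtain ⟨p, -, hp⟩ := Finset.exists_ne_zero_of_sum_ne_zero h
    have h1 := left_ne_zero_of_mul hp
    have h2 := hf _ (right_ne_zero_of_mul hp)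
    have h3 : (p.1 : ℕ) + p.2 = N - 1 := by
      by_contra hh
      exact h1 (if_neg hh)
    rw [wt_append] at h2
    have h2' : wt (l.take i) + (((N : ℤ) - 1 - 2 * (p.1 : ℕ)) + (((N : ℤ) - 1 - 2 * (p.2 : ℕ)) +
      wt (l.drop i))) = w := h2
    have h4 : wt l = wt (l.take i) + wt (l.drop i) := by
      rw [← wt_append, List.take_append_drop]
    rw [h4]
    have := p.1.2
    omega
  | twist i σ m =>
    unfold Pool.Agent.W709.QAT.Piece.act at h
    simp only at h
    split at h
    · next a b r hr =>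
      obtain ⟨p, -, hp⟩ := Finset.exists_ne_zero_of_sum_ne_zero h
      have h1 := left_ne_zero_of_mul hp
      have h2 := hf _ (right_ne_zero_of_mul hp)
      have hint : IsInt (tens v (irr v N) (irr v N)) (tens v (irr v N) (irr v N))
          ((if σ then crossP N v else crossN N v) ^ m) := by
        refine Pool.Agent.N93.VV.int_pow ?_ m
        cases σ with
        | true => exact hI.1
        | false => exact hI.2
      have h3 : ((N : ℤ) - 1 - 2 * (a : ℕ)) + ((N : ℤ) - 1 - 2 * (b : ℕ)) =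
        ((N : ℤ) - 1 - 2 * (p.1 : ℕ)) + ((N : ℤ) - 1 - 2 * (p.2 : ℕ)) := hint.k _ _ h1
      have h4 : l = l.take i ++ a :: b :: r := by rw [← hr, List.take_append_drop]
      rw [h4, wt_append]
      rw [wt_append] at h2
      have h2' : wt (l.take i) + (((N : ℤ) - 1 - 2 * (p.1 : ℕ)) +
        (((N : ℤ) - 1 - 2 * (p.2 : ℕ)) + wt r)) = w := h2
      show wt (l.take i) + (((N : ℤ) - 1 - 2 * (a : ℕ)) + (((N : ℤ) - 1 - 2 * (b : ℕ)) + wt r)) = _
      omega
    · exact absurd rfl h

lemma wt_run {v : ℂ} (hI : Itw N v) : ∀ (E : List QP) {w : ℤ} {f : List (Fin N) → ℂ},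
    (∀ l, f l ≠ 0 → wt l = w) → ∀ (l : List (Fin N)), run N v E f l ≠ 0 → wt l = w
  | [], _, _, hf, l, h => hf l h
  | P :: E, w, f, hf, l, h => by
    rw [run_cons] at h
    exact wt_run hI E (fun l' hl' => wt_act hI P hf l' hl') l h

lemma run_diag {v : ℂ} (hI : Itw N v) (E : List QP) (x y : Fin N) (h : y ≠ x) :
    run N v E (dlt x) [y] = 0 := by
  by_contra hh
  have h1 := wt_run hI E (w := wt [x]) (f := dlt x) (fun l hl => by
    unfold dlt at hl
    split_ifs at hl with h2
    · rw [h2]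
    · exact absurd rfl hl) [y] hh
  have h2 : ((N : ℤ) - 1 - 2 * (y : ℕ)) + 0 = ((N : ℤ) - 1 - 2 * (x : ℕ)) + 0 := h1
  refine h ?_
  ext
  omega

/-- the diagonal entries agree -/
lemma run_succ {v : ℂ} (hv : Adm N v) (hI : Itw N v) (E : List QP) (hE : Wf E 1 1) (x y : Fin N)
    (hxy : (y : ℕ) = x + 1) : run N v E (dlt y) [y] = run N v E (dlt x) [x] := by
  have h1 := run_com hv hI E (dlt x) [y]
  have h2 : FF v [y] (run N v E (dlt x)) = br v ((y : ℕ) : ℤ) * run N v E (dlt x) [x] := by
    rw [FF_cons, FF_nil, mul_zero, add_zero, Finset.sum_eq_single x]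
    · rw [irrF_succ v y x hxy]
    · intro z _ hz
      rw [run_diag hI E x z hz, mul_zero]
    · intro h
      exact absurd (Finset.mem_univ _) h
  have h3 : run N v E (fun r => FF v r (dlt x)) [y] =
      br v ((y : ℕ) : ℤ) * run N v E (dlt y) [y] := by
    rw [run_congr v E hE (f' := fun l => br v ((y : ℕ) : ℤ) * dlt y l) ?_ [y] rfl, run_smul]
    intro l hl
    obtain ⟨z, rfl⟩ := List.length_eq_one_iff.1 hl
    show FF v [z] (dlt x) = _
    rw [FF_cons, FF_nil, mul_zero, add_zero, Finset.sum_eq_single x]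
    · unfold dlt
      rw [if_pos rfl, mul_one]
      by_cases hz : z = y
      · rw [hz, if_pos rfl, mul_one, irrF_succ v y x hxy]
      · rw [if_neg (by simpa using hz), mul_zero]
        refine irrF_zero v z x fun hh => hz ?_
        ext
        omega
    · intro w _ hw
      unfold dlt
      rw [if_neg (by simpa using hw), mul_zero]
    · intro h
      exact absurd (Finset.mem_univ _) h
  rw [h2, h3] at h1
  have hne : br v ((y : ℕ) : ℤ) ≠ 0 := hv.2 (y : ℕ) (by omega) y.2
  exact (mul_left_cancel₀ hne h1).symm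

/-- the coloured Jones polynomial of the closure of a (1,1)-tangle diagram -/
noncomputable def jn (E : List QP) (N : ℕ) (v : ℂ) : ℂ := Pool.Agent.W709.QAT.jones N E v

lemma run_all {v : ℂ} (hv : Adm N v) (hI : Itw N v) (E : List QP) (hE : Wf E 1 1) :
    ∀ (k : ℕ) (hk : k < N), run N v E (dlt ⟨k, hk⟩) [⟨k, hk⟩] = jn E N v
  | 0, hk => by
    unfold jn Pool.Agent.W709.QAT.jones
    rw [dif_pos hk]
    rfl
  | k + 1, hk => by
    rw [run_succ hv hI E hE ⟨k, by omega⟩ ⟨k + 1, hk⟩ rfl]
    exact run_all hv hI E hE k (by omega)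

/-- **the coloured Jones polynomials of the closure.** -/
theorem col_clos (E : List QP) (h : Wf E 1 1) (D : Word) (hD : D.map plain = closW E) :
    Col D (jn E) := by
  intro N hN
  obtain ⟨e, he⟩ := val_clos hN E h D hD
  refine ⟨e, fun u hu σ => ?_⟩
  have ha : Adm N (u ^ 2) := ⟨pow_ne_zero 2 hu.1, fun k hk _ => hu.2 k hk⟩
  have hI : Itw N (u ^ 2) := Pool.Agent.N93.VV.int_cross hu
  rw [he _ ha σ]
  congr 1
  unfold qd
  rw [Finset.sum_mul]
  refine Finset.sum_congr rfl fun x _ => ?_
  rw [run_all ha hI E h x.1 x.2]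

end Pool.Agent.KS6_92
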