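import Pool.Graph.R_pool_sql_team_seeded_3997aac3.Q174.HX.Tref
import Pool.Graph.R_pool_sql_team_seeded_3997aac3.Q174.HX.Main

/-!
# Links on hexagonal mosaics all of whose interior tiles are triple-crossing tiles

The definitions of mosaics, of the knots they realize and of the number of components `1` are in
`Pool.Graph.R_pool_sql_team_seeded_3997aac3.Q174.HX.Defs` of the starting library.  There it is proved
that the link diagram on such a mosaic has more than one component for `r ≥ 3`.  Here we show that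
it has at least `⌊(r + 1) / 2⌋` components: the lines on the mosaic with the parameters `j` and
`n - j` (`0 < j < n = r - 1`, at most six lines) form a component.
-/

set_option autoImplicit false

namespace Pool.Agent.KS6_92.Hx0

open Q174.HF Q174.HX

/-- The ends of the arcs drawn on the tiles of a mosaic: a tile and the number of an edge whose
midpoint is a connection point of the tile. -/
def End (M : Mosaic) : Type := {x : Tile × Fin 6 // (M.tile x.1).join x.2 ≠ x.2}

/-- `y` is the other end of the arc which ends at `x`, or it is the same connection point seen from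
the adjacent tile. -/
def Linked (M : Mosaic) (x y : End M) : Prop :=
  y.1 = (x.1.1, (M.tile x.1.1).join x.1.2) ∨ y.1 = (nbr x.1.1 x.1.2, x.1.2 + 3)

/-- The number of components of the link diagram drawn on the mosaic: the number of classes of ends
of arcs, for the equivalence relation generated by `Linked`. -/
noncomputable def components (M : Mosaic) : ℕ := Nat.card (Quot (Linked M))

/-- The number of crossings of the mosaic: a quarter of the number of half-edges at crossings. -/
noncomputable def crossingNumber (M : Mosaic) : ℕ := Nat.card {h // M.IsHalfEdge h} / 4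

theorem dist_finite (r : ℕ) : {p : Tile | Q174.HX.dist p < r}.Finite := by
  refine (Set.Finite.prod (Set.finite_Icc (-(r : ℤ)) r) (Set.finite_Icc (-(r : ℤ)) r)).subset ?_
  rintro ⟨x, y⟩ h
  simp only [Set.mem_ofPred_eq, Q174.HX.dist] at h
  simp only [Set.mem_prod, Set.mem_Icc]
  omega

theorem end_finite (M : Mosaic) : Finite (End M) := by
  have h : {x : Tile × Fin 6 | (M.tile x.1).join x.2 ≠ x.2}.Finite := by
    refine (Set.Finite.prod (dist_finite M.r) (Set.finite_univ (α := Fin 6))).subset ?_
    rintro ⟨p, a⟩ h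
    refine ⟨?_, trivial⟩
    by_contra hp
    exact h (M.blank p (by simpa using hp) a)
  exact h.to_subtype

/-- the parameter of a line -/
def g (s : ℤ) (n : ℕ) (q : Tile × Fin 6) : ℤ :=
  if 0 < s * lam q.2 q.1 ∧ s * lam q.2 q.1 < n then
    min (s * lam q.2 q.1) (n - s * lam q.2 q.1) else 0

variable {M : Mosaic}

theorem exists_sign (hc : M.SuitablyConnected) (ht : M.InteriorTriple) {n : ℕ} (hn1 : 1 ≤ n)
    (hr : M.r = n + 1) : ∃ s : ℤ, ∀ d : Fin 6, (s = sgn d ∧ d + 2 ∉ used (M.tile (P n d 0))) ∨
      (s = - sgn d ∧ d + 2 ∈ used (M.tile (P n d 0))) := by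
  have step : ∀ (s : ℤ) (d : Fin 6), ((s = sgn d ∧ d + 2 ∉ used (M.tile (P n d 0))) ∨
    (s = - sgn d ∧ d + 2 ∈ used (M.tile (P n d 0)))) →
    ((s = sgn (d + 1) ∧ d + 1 + 2 ∉ used (M.tile (P n (d + 1) 0))) ∨
    (s = - sgn (d + 1) ∧ d + 1 + 2 ∈ used (M.tile (P n (d + 1) 0)))) := by
    intro s d h
    have ha := alternate hc ht hn1 hr d
    rw [sgn_add]
    rcases h with ⟨h1, h2⟩ | ⟨h1, h2⟩
    · exact Or.inr ⟨by rw [h1]; ring, ha.2 h2⟩
    · exact Or.inl ⟨h1, fun h => (ha.1 h) h2⟩
  have start : ∃ s : ℤ, (s = sgn 0 ∧ (0 : Fin 6) + 2 ∉ used (M.tile (P n 0 0))) ∨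
    (s = - sgn 0 ∧ (0 : Fin 6) + 2 ∈ used (M.tile (P n 0 0))) := by
    by_cases h : (0 : Fin 6) + 2 ∈ used (M.tile (P n 0 0))
    · exact ⟨-sgn 0, Or.inr ⟨rfl, h⟩⟩
    · exact ⟨sgn 0, Or.inl ⟨rfl, h⟩⟩
  obtain ⟨s, h0⟩ := start
  have h1 := step s 0 h0
  have h2 := step s _ h1
  have h3 := step s _ h2
  have h4 := step s _ h3
  have h5 := step s _ h4
  refine ⟨s, fun d => ?_⟩
  fin_cases d
  · exact h0
  · exact h1
  · exact h2
  · exact h3
  · exact h4
  · exact h5

/-- the parameters of the edges of a boundary tile -/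
theorem g_side (s : ℤ) (n : ℕ) (d : Fin 6) (j : ℤ) (h0 : 0 ≤ j) (h1 : j < n)
    (hs : s = sgn d ∨ s = - sgn d) :
    g s n (P n d j, d + 2) = 0 ∧ g s n (P n d j, d + 5) = 0 ∧
    (s = - sgn d → g s n (P n d j, d + 3) = 0 ∧ g s n (P n d j, d + 4) = 0) ∧
    (s = sgn d → g s n (P n d j, d + 3) = g s n (P n d j, d + 4)) := by
  obtain ⟨l0, l1, l2⟩ := lam_P n d j
  unfold g
  simp only [add25, add14, lam_add, l0, l1, l2]
  rcases sgn_cases d with h' | h' <;> rcases hs with h | h <;> subst h <;> rw [h'] <;>
    refine ⟨?_, ?_, ?_, ?_⟩ <;> (try intro _) <;> (try constructor) <;>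
    (try split_ifs) <;> omega


theorem ne24 : ∀ d : Fin 6, ¬ d + 2 = d + 4 := by decide
theorem ne23 : ∀ d : Fin 6, ¬ d + 2 = d + 3 := by decide
theorem ne54 : ∀ d : Fin 6, ¬ d + 5 = d + 4 := by decide
theorem ne53 : ∀ d : Fin 6, ¬ d + 5 = d + 3 := by decide

/-- The parameter is constant along each arc. -/
theorem g_join (hc : M.SuitablyConnected) (ht : M.InteriorTriple) {n : ℕ} (hn1 : 1 ≤ n)
    (hr : M.r = n + 1) {s : ℤ} (hs : ∀ d : Fin 6, (s = sgn d ∧ d + 2 ∉ used (M.tile (P n d 0))) ∨
      (s = - sgn d ∧ d + 2 ∈ used (M.tile (P n d 0)))) (p : Tile) (a : Fin 6)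
    (hj : (M.tile p).join a ≠ a) : g s n (p, (M.tile p).join a) = g s n (p, a) := by
  rcases lt_trichotomy (Q174.HX.dist p) n with hp | hp | hp
  · rw [ht p (by omega) a]
    unfold g
    simp only [lam_add]
  · obtain ⟨d, j, h0, h1, rfl⟩ := exists_P hn1 hp
    obtain ⟨o1, o2⟩ := dist_outer hn1 d h0 h1.le
    have hab : a ∈ used (M.tile (P n d j)) := (mem_used _ _).2 hj
    have hbb := join_mem_used hab
    have hsd : s = sgn d ∨ s = - sgn d := by
      rcases hs d with h | h
      · exact Or.inl h.1
      · exact Or.inr h.1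
    obtain ⟨g2, g5, gn, gp⟩ := g_side s n d j h0 h1 hsd
    have na : ∀ b : Fin 6, b ∈ used (M.tile (P n d j)) → b = d + 2 ∨ b = d + 3 ∨ b = d + 4 ∨
        b = d + 5 := by
      intro b hb
      rcases six b d with rfl | rfl | rfl | rfl | rfl | rfl
      · exact absurd hb (unused_of_nbr hc (by omega))
      · exact absurd hb (unused_of_nbr hc (by omega))
      all_goals simp
    rcases hs d with ⟨h, hu⟩ | ⟨h, hu⟩
    · -- a reflecting side
      rcases h0.lt_or_eq with hj0 | hj0
      · obtain ⟨e1, e2⟩ := join_side hc ht hn1 hr d hj0 h1 hu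
        have gg := gp h
        rcases na a hab with rfl | rfl | rfl | rfl
        · rcases na _ hbb with e | e | e | e
          · rw [e]
          · have := congrArg (M.tile (P n d j)).join e
            rw [Drawing.join_join, e1] at this
            exact absurd this (ne24 d)
          · have := congrArg (M.tile (P n d j)).join e
            rw [Drawing.join_join, e2] at this
            exact absurd this (ne23 d)
          · rw [e, g2, g5]
        · rw [e1, gg]
        · rw [e2, gg]
        · rcases na _ hbb with e | e | e | e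
          · rw [e, g2, g5]
          · have := congrArg (M.tile (P n d j)).join e
            rw [Drawing.join_join, e1] at this
            exact absurd this (ne54 d)
          · have := congrArg (M.tile (P n d j)).join e
            rw [Drawing.join_join, e2] at this
            exact absurd this (ne53 d)
          · rw [e]
      · subst hj0
        have g3 : g s n (P n d 0, d + 3) = 0 := by
          unfold g
          rw [lam_add, (lam_P n d 0).1]
          simp
        have g4 := (gp h).symm.trans g3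
        have key : ∀ b, b = d + 2 ∨ b = d + 3 ∨ b = d + 4 ∨ b = d + 5 →
            g s n (P n d 0, b) = 0 := by
          rintro b (rfl | rfl | rfl | rfl)
          · exact g2
          · exact g3
          · exact g4
          · exact g5
        rw [key _ (na _ hbb), key _ (na _ hab)]
    · obtain ⟨g3, g4⟩ := gn h
      have key : ∀ b, b = d + 2 ∨ b = d + 3 ∨ b = d + 4 ∨ b = d + 5 →
          g s n (P n d j, b) = 0 := by
        rintro b (rfl | rfl | rfl | rfl)
        · exact g2
        · exact g3
        · exact g4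
        · exact g5
      rw [key _ (na _ hbb), key _ (na _ hab)]
  · exact absurd (M.blank p (by omega) a) hj

theorem g_linked (hc : M.SuitablyConnected) (ht : M.InteriorTriple) {n : ℕ} (hn1 : 1 ≤ n)
    (hr : M.r = n + 1) {s : ℤ} (hs : ∀ d : Fin 6, (s = sgn d ∧ d + 2 ∉ used (M.tile (P n d 0))) ∨
      (s = - sgn d ∧ d + 2 ∈ used (M.tile (P n d 0)))) (x y : End M) (h : Linked M x y) :
    g s n x.1 = g s n y.1 := by
  obtain ⟨⟨p, a⟩, hx⟩ := x
  rcases h with h | h
  · rw [h]
    exact (g_join hc ht hn1 hr hs p a hx).symm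
  · rw [h]
    show g s n (p, a) = g s n (nbr p a, a + 3)
    unfold g
    simp only [lam_nbr]

/-- The number of components is at least `n / 2 + 1`, `n = r - 1`. -/
theorem le_components (hc : M.SuitablyConnected) (ht : M.InteriorTriple) :
    (M.r + 1) / 2 ≤ components M := by
  have h2 := M.two_le
  obtain ⟨n, hr⟩ : ∃ n, M.r = n + 1 := ⟨M.r - 1, by omega⟩
  have hn1 : 1 ≤ n := by omega
  obtain ⟨s, hs⟩ := exists_sign hc ht hn1 hr
  have hs1 : s = 1 ∨ s = -1 := by
    rcases hs 0 with h | h <;> rcases sgn_cases 0 with h' | h' <;> rw [h.1, h'] <;> simp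
  have hadd3 : ∀ a : Fin 6, a + 3 ≠ a := by decide
  have := end_finite M
  -- the map to the parameters
  let F : Quot (Linked M) → ℤ := Quot.lift (fun x => g s n x.1) (g_linked hc ht hn1 hr hs)
  have hF : ∀ k : Fin (n / 2 + 1), ∃ q, F q = (k : ℤ) := by
    intro k
    have hk : (k : ℕ) ≤ n / 2 := by have := k.2; omega
    have hd : Q174.HX.dist ((0, s * (k : ℤ)) : Tile) + 2 ≤ M.r ∨ (k : ℕ) = n := by
      unfold Q174.HX.dist
      rcases hs1 with h | h <;> subst h <;> simp <;> omega
    have hd' : Q174.HX.dist ((0, s * (k : ℤ)) : Tile) + 2 ≤ M.r := by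
      rcases hd with h | h
      · exact h
      · omega
    have hj : (M.tile ((0, s * (k : ℤ)) : Tile)).join 0 ≠ 0 := by
      rw [ht _ hd' 0]
      exact hadd3 0
    refine ⟨Quot.mk _ ⟨((0, s * (k : ℤ)), 0), hj⟩, ?_⟩
    show g s n ((0, s * (k : ℤ)), 0) = k
    have e : s * lam 0 ((0, s * (k : ℤ)) : Tile) = k := by
      rcases hs1 with h | h <;> subst h <;> simp [lam]
    simp only [g, e]
    split_ifs with h
    · rw [min_eq_left (by omega)]
    · omega
  choose q hq using hF
  have hinj : Function.Injective q := by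
    intro k l h
    have := hq k
    rw [h, hq l] at this
    exact Fin.ext (by exact_mod_cast this.symm)
  have : Finite (Quot (Linked M)) := Quot.finite _
  have := Nat.card_le_card_of_injective q hinj
  rw [Nat.card_eq_fintype_card, Fintype.card_fin] at this
  show (M.r + 1) / 2 ≤ Nat.card (Quot (Linked M))
  omega

/-- The number of components is `1` if and only if the diagram has one component in the sense of the
starting library. -/
theorem oneComponent_iff (hc : M.SuitablyConnected) : M.OneComponent ↔ components M = 1 := by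
  have hadj : ∀ p a, (M.tile p).join a ≠ a → (M.tile (nbr p a)).join (a + 3) ≠ a + 3 :=
    fun p a h => (hc p a).1 h
  have hjj : ∀ p a, (M.tile p).join a ≠ a →
      (M.tile p).join ((M.tile p).join a) ≠ (M.tile p).join a := by
    intro p a h
    rw [Drawing.join_join]
    exact h.symm
  unfold components
  rw [Nat.card_eq_one_iff_unique]
  constructor
  · rintro ⟨⟨p, a, h⟩, hone⟩
    refine ⟨⟨?_⟩, ⟨Quot.mk _ ⟨(p, a), h⟩⟩⟩
    rintro ⟨x⟩ ⟨y⟩
    have := hone {q | ∃ h, (Quot.mk (Linked M) ⟨q, h⟩) = Quot.mk (Linked M) x}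
      ⟨x.1.1, x.1.2, x.2, x.2, rfl⟩ ?_ ?_ y.1.1 y.1.2 y.2
    · obtain ⟨h1, h2⟩ := this
      exact h2.symm
    · rintro p a ⟨h1, h2⟩
      have hl : Linked M ⟨(p, a), h1⟩ ⟨(p, (M.tile p).join a), hjj p a h1⟩ := Or.inl rfl
      exact ⟨hjj p a h1, (Quot.sound hl).symm.trans h2⟩
    · rintro p a h0 ⟨h1, h2⟩
      have hl : Linked M ⟨(p, a), h1⟩ ⟨(nbr p a, a + 3), hadj p a h1⟩ := Or.inr rfl
      exact ⟨hadj p a h1, (Quot.sound hl).symm.trans h2⟩
  · rintro ⟨⟨hsub⟩, ⟨x0⟩⟩
    obtain ⟨x0⟩ := x0
    refine ⟨⟨x0.1.1, x0.1.2, x0.2⟩, ?_⟩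
    rintro S ⟨p, a, h, hS⟩ h1 h2 p' a' h'
    have key : ∀ x y : End M, Quot.mk (Linked M) x = Quot.mk (Linked M) y → x.1 ∈ S → y.1 ∈ S := by
      intro x y hxy
      have h4 := Quot.eqvGen_exact hxy
      have h3 : (x.1 ∈ S ↔ y.1 ∈ S) := by
        clear hxy
        induction h4 with
        | rel x y hl =>
          obtain ⟨⟨px, ax⟩, hx⟩ := x
          obtain ⟨⟨py, ay⟩, hy⟩ := y
          rcases hl with hl | hl
          · simp only [Prod.mk.injEq] at hl
            obtain ⟨rfl, rfl⟩ := hl
            refine ⟨fun hh => h1 _ _ hh, fun hh => ?_⟩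
            have := h1 _ _ hh
            rwa [Drawing.join_join] at this
          · simp only [Prod.mk.injEq] at hl
            obtain ⟨rfl, rfl⟩ := hl
            refine ⟨fun hh => h2 _ _ hx hh, fun hh => ?_⟩
            have h5 := h2 _ _ hy hh
            have e : ∀ (p : Tile) (a : Fin 6), nbr (nbr p a) (a + 3) = p ∧ a + 3 + 3 = a := by
              rintro ⟨u, v⟩ a
              fin_cases a <;> simp [nbr, dir]
            rw [(e px ax).1, (e px ax).2] at h5
            exact h5
        | refl x => exact Iff.rfl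
        | symm x y _ ih => exact ih.symm
        | trans x y z _ _ ih1 ih2 => exact ih1.trans ih2
      exact h3.1
    exact key ⟨(p, a), h⟩ ⟨(p', a'), h'⟩ (hsub _ _) hS

/-- the half-edges of a mosaic, a finite set -/
noncomputable def box (r : ℕ) : Finset (Tile × Fin 6 × Fin 6) :=
  (Finset.Icc (-(r : ℤ)) r ×ˢ Finset.Icc (-(r : ℤ)) r) ×ˢ Finset.univ

theorem crossing_le {r : ℕ} (hr : M.r = r + 1) : crossingNumber M ≤ 9 * (2 * r + 1) ^ 2 := by
  have h : {h | M.IsHalfEdge h} ⊆ (box r : Set (Tile × Fin 6 × Fin 6)) := by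
    rintro ⟨p, a, b⟩ h
    have hp : Q174.HX.dist p < M.r := by
      by_contra hp
      have e := M.blank p (by simpa using hp)
      have h1 : Cyclic a b ((M.tile p).join a) ((M.tile p).join b) := h
      rw [e a, e b] at h1
      obtain ⟨h2, h3, -⟩ := h1
      simp at h3
    obtain ⟨x, y⟩ := p
    unfold Q174.HX.dist at hp
    simp only [box, Finset.coe_product, Set.mem_prod, Finset.coe_Icc, Set.mem_Icc,
      Finset.coe_univ, Set.mem_univ, and_true]
    simp only at hp
    omega
  have h2 : Nat.card {h // M.IsHalfEdge h} ≤ (box r).card := by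
    have := Set.ncard_le_ncard h (box r).finite_toSet
    rwa [Set.ncard_coe_finset] at this
  have h3 : (box r).card = (2 * r + 1) * (2 * r + 1) * 36 := by
    simp only [box, Finset.card_product, Int.card_Icc, Finset.card_univ, Fintype.card_prod,
      Fintype.card_fin]
    have : ((r : ℤ) + 1 - -(r : ℤ)).toNat = 2 * r + 1 := by omega
    rw [this]
  unfold crossingNumber
  rw [h3] at h2
  calc _ ≤ ((2 * r + 1) * (2 * r + 1) * 36) / 4 := Nat.div_le_div_right h2
    _ = 9 * (2 * r + 1) ^ 2 := by
      rw [show (2 * r + 1) * (2 * r + 1) * 36 = (9 * (2 * r + 1) ^ 2) * 4 by ring]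
      simp

end Pool.Agent.KS6_92.Hx0
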