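import Pool.Graph.R_pool_sql_team_seeded_3997aac3.Q174.HX.Tref

/-! # Mosaics with the minimal number of components: the tiles -/

set_option autoImplicit false

namespace Pool.Agent.KS6_92.Hx1

open Q174.HF Q174.HX

/-- The arcs of the boundary tiles, relative to the direction of the side.
`0`: reflector, `1`: corner of a used side, `2`: both lateral edges joined to the inner edges,
`3`: lateral edges joined to each other. -/
def tau : Fin 4 → Fin 6 → Fin 6 :=
  ![![0, 1, 2, 4, 3, 5], ![0, 1, 3, 2, 4, 5], ![0, 1, 3, 2, 5, 4], ![0, 1, 5, 4, 3, 2]]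

/-- the arcs of a boundary tile -/
def bj (d : Fin 6) (t : Fin 4) (a : Fin 6) : Fin 6 := d + tau t (a - d)

instance (a b c d : Fin 6) : Decidable (Cyclic a b c d) := inferInstanceAs (Decidable (_ ∧ _))

def bD (d : Fin 6) (t : Fin 4) : Drawing where
  join := bj d t
  join_join := by revert d t; decide +kernel
  top _ _ := false
  top_rot := by
    intro a b h
    exfalso
    revert d t a b
    decide +kernel
  odd := false

def cD : Drawing where
  join a := a + 3
  join_join := by decide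
  top a b := decide (b = a + 1)
  top_rot := by decide
  odd := false

def blD : Drawing where
  join a := a
  join_join _ := rfl
  top _ _ := false
  top_rot := by decide
  odd := false

/-- the side of a boundary tile, and its number on the side -/
def sd (n : ℕ) (p : Tile) : Fin 6 × ℤ :=
  if p.1 + p.2 = n ∧ 0 ≤ p.2 ∧ p.2 < n then (0, p.2) else
  if p.2 = n ∧ -(n : ℤ) < p.1 ∧ p.1 ≤ 0 then (1, -p.1) else
  if p.1 = -n ∧ 0 < p.2 ∧ p.2 ≤ n then (2, n - p.2) else
  if p.1 + p.2 = -n ∧ -(n : ℤ) < p.2 ∧ p.2 ≤ 0 then (3, -p.2) else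
  if p.2 = -n ∧ 0 ≤ p.1 ∧ p.1 < n then (4, p.1) else (5, p.2 + n)

theorem sd_P {n : ℕ} (hn : 1 ≤ n) (d : Fin 6) {j : ℤ} (h0 : 0 ≤ j) (h1 : j < n) :
    sd n (P n d j) = (d, j) := by
  unfold sd
  fin_cases d <;> simp [P, dir] <;> split_ifs <;> (try simp) <;> omega

/-- the type of a boundary tile -/
def ty (n : ℕ) (q : Fin 6 × ℤ) : Fin 4 :=
  if q.1.val % 2 = 0 then 0 else if q.2 = 0 then 1 else if q.1 = 1 ∧ 2 * q.2 ≤ n then 2 else 3

def tl (n : ℕ) (p : Tile) : Drawing :=
  if Q174.HX.dist p < n then cD else if Q174.HX.dist p = n then bD (sd n p).1 (ty n (sd n p)) else blD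

/-- The mosaic. -/
def mos (n : ℕ) (hn : 1 ≤ n) : Mosaic where
  r := n + 1
  two_le := by omega
  tile := tl n
  blank := by
    intro p hp a
    unfold tl
    rw [if_neg (by omega), if_neg (by omega)]
    rfl

variable {n : ℕ} (hn : 1 ≤ n)

theorem join_in {p : Tile} (hp : Q174.HX.dist p < n) (a : Fin 6) :
    ((mos n hn).tile p).join a = a + 3 := by
  show (tl n p).join a = _
  unfold tl
  rw [if_pos hp]
  rfl

theorem join_out {p : Tile} (hp : n < Q174.HX.dist p) (a : Fin 6) :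
    ((mos n hn).tile p).join a = a := (mos n hn).blank p hp a

theorem join_P (d : Fin 6) {j : ℤ} (h0 : 0 ≤ j) (h1 : j < n) (a : Fin 6) :
    ((mos n hn).tile (P n d j)).join a = bj d (ty n (d, j)) a := by
  show (tl n (P n d j)).join a = _
  unfold tl
  rw [dist_P hn d h0 h1.le, if_neg (lt_irrefl _), if_pos rfl, sd_P hn d h0 h1]
  rfl

theorem triple : (mos n hn).InteriorTriple := by
  intro p hp a
  have : Q174.HX.dist p < n := by
    have : (mos n hn).r = n + 1 := rfl
    omega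
  exact join_in hn this a

/-- `a` is the edge of the tile `p` to a tile of the board, and if both are boundary tiles then they are
on a side with the direction `1`, `3` or `5`. -/
def Use (n : ℕ) (p q : Tile) : Prop :=
  Q174.HX.dist p ≤ n ∧ Q174.HX.dist q ≤ n ∧ (Q174.HX.dist p < n ∨ Q174.HX.dist q < n ∨
    (p.2 = n ∧ q.2 = n) ∨ (p.1 + p.2 = -n ∧ q.1 + q.2 = -n) ∨ (p.1 = n ∧ q.1 = n))

theorem b0 : ∀ d a : Fin 6, bj d 0 a ≠ a ↔ (a = d + 3 ∨ a = d + 4) := by decide +kernel
theorem b1 : ∀ d a : Fin 6, bj d 1 a ≠ a ↔ (a = d + 2 ∨ a = d + 3) := by decide +kernel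
theorem b2 : ∀ d a : Fin 6, bj d 2 a ≠ a ↔ (a = d + 2 ∨ a = d + 3 ∨ a = d + 4 ∨ a = d + 5) := by
  decide +kernel
theorem b3 : ∀ d a : Fin 6, bj d 3 a ≠ a ↔ (a = d + 2 ∨ a = d + 3 ∨ a = d + 4 ∨ a = d + 5) := by
  decide +kernel

theorem use_P (d : Fin 6) {j : ℤ} (h0 : 0 ≤ j) (h1 : j < n) (a : Fin 6) :
    bj d (ty n (d, j)) a ≠ a ↔ Use n (P n d j) (nbr (P n d j) a) := by
  have e : bj d (ty n (d, j)) a ≠ a ↔ (if d.val % 2 = 0 then a = d + 3 ∨ a = d + 4 else
      if j = 0 then a = d + 2 ∨ a = d + 3 else a = d + 2 ∨ a = d + 3 ∨ a = d + 4 ∨ a = d + 5) := by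
    unfold ty
    simp only
    split_ifs
    · exact b0 d a
    · exact b1 d a
    · exact b2 d a
    · exact b3 d a
  rw [e]
  unfold Use Q174.HX.dist
  fin_cases d <;> fin_cases a <;> simp [P, dir, nbr] <;> omega

end Pool.Agent.KS6_92.Hx1
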