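import Pool.Agent.KS6_92.Hx0
import Pool.Agent.KS6_92.Hx1

/-! # Mosaics with the minimal number of components: connectivity -/

set_option autoImplicit false

namespace Pool.Agent.KS6_92.Hx2

open Q174.HF Q174.HX Hx0 Hx1

theorem a33 : ∀ d : Fin 6, d + 3 + 3 = d := by decide
theorem a43 : ∀ d : Fin 6, d + 4 + 3 = d + 1 := by decide
theorem a5 : ∀ d : Fin 6, d + 5 = d + 1 + 4 := by decide
theorem n43 : ∀ d : Fin 6, d + 4 ≠ d + 3 := by decide
theorem n25 : ∀ d : Fin 6, d + 2 ≠ d + 5 := by decide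
theorem n23 : ∀ d : Fin 6, d + 2 ≠ d + 3 := by decide
theorem sg1 : ∀ d : Fin 6, d.val % 2 = 0 → sgn d = 1 := by decide
theorem sgm : ∀ d : Fin 6, d.val % 2 = 1 → sgn d = -1 := by decide
theorem par : ∀ d : Fin 6, d.val % 2 = 1 → (d + 1).val % 2 = 0 := by decide
theorem bj034 : ∀ d : Fin 6, bj d 0 (d + 3) = d + 4 := by decide +kernel
theorem bj334 : ∀ d : Fin 6, bj d 3 (d + 3) = d + 4 := by decide +kernel
theorem bj352 : ∀ d : Fin 6, bj d 3 (d + 5) = d + 2 := by decide +kernel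
theorem bj132 : ∀ d : Fin 6, bj d 1 (d + 3) = d + 2 := by decide +kernel

theorem dist_nbr (p : Tile) (a : Fin 6) : Q174.HX.dist (nbr p a) ≤ Q174.HX.dist p + 1 := by
  obtain ⟨x, y⟩ := p
  unfold Q174.HX.dist
  fin_cases a <;> simp [nbr, dir] <;> omega

variable {n : ℕ} (hn : 1 ≤ n)

theorem use_iff (p : Tile) (a : Fin 6) :
    ((mos n hn).tile p).join a ≠ a ↔ Use n p (nbr p a) := by
  rcases lt_trichotomy (Q174.HX.dist p) n with hp | hp | hp
  · rw [join_in hn hp]
    have h3 : a + 3 ≠ a := by revert a; decide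
    have := dist_nbr p a
    exact ⟨fun _ => ⟨hp.le, by omega, Or.inl hp⟩, fun _ => h3⟩
  · obtain ⟨d, j, h0, h1, rfl⟩ := exists_P hn hp
    rw [join_P hn d h0 h1]
    exact use_P d h0 h1 a
  · rw [join_out hn hp]
    constructor
    · intro h; exact absurd rfl h
    · rintro ⟨h, -⟩; omega

theorem use_symm {p q : Tile} (h : Use n p q) : Use n q p := by
  obtain ⟨h1, h2, h3⟩ := h
  refine ⟨h2, h1, ?_⟩
  rcases h3 with h | h | ⟨h, h'⟩ | ⟨h, h'⟩ | ⟨h, h'⟩
  · exact Or.inr (Or.inl h)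
  · exact Or.inl h
  · exact Or.inr (Or.inr (Or.inl ⟨h', h⟩))
  · exact Or.inr (Or.inr (Or.inr (Or.inl ⟨h', h⟩)))
  · exact Or.inr (Or.inr (Or.inr (Or.inr ⟨h', h⟩)))

theorem suitably : (mos n hn).SuitablyConnected := by
  intro p a
  rw [use_iff hn, use_iff hn, nbr_nbr]
  exact ⟨use_symm, use_symm⟩

/-- The two ends of arcs are in the same component. -/
def R (x y : Tile × Fin 6) : Prop :=
  ∃ (hx : ((mos n hn).tile x.1).join x.2 ≠ x.2) (hy : ((mos n hn).tile y.1).join y.2 ≠ y.2),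
    Quot.mk (Linked (mos n hn)) ⟨x, hx⟩ = Quot.mk (Linked (mos n hn)) ⟨y, hy⟩

variable {hn}

theorem R.symm {x y : Tile × Fin 6} (h : R hn x y) : R hn y x := by
  obtain ⟨hx, hy, h⟩ := h
  exact ⟨hy, hx, h.symm⟩

theorem R.trans {x y z : Tile × Fin 6} (h : R hn x y) (h' : R hn y z) : R hn x z := by
  obtain ⟨hx, hy, h⟩ := h
  obtain ⟨_, hz, h'⟩ := h'
  exact ⟨hx, hz, h.trans h'⟩

theorem R.left {x y : Tile × Fin 6} (h : R hn x y) : R hn x x := h.trans h.symm

theorem R_join {p : Tile} {a b : Fin 6} (h : ((mos n hn).tile p).join a = b) (hab : b ≠ a) :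
    R hn (p, a) (p, b) := by
  have h1 : ((mos n hn).tile p).join a ≠ a := by rw [h]; exact hab
  have h2 : ((mos n hn).tile p).join b ≠ b := by
    rw [← h, Drawing.join_join, h]; exact hab.symm
  refine ⟨h1, h2, Quot.sound (Or.inl ?_)⟩
  show (p, b) = (p, ((mos n hn).tile p).join a)
  rw [h]

theorem R_nbr {p : Tile} {a : Fin 6} (h : Use n p (nbr p a)) :
    R hn (p, a) (nbr p a, a + 3) := by
  refine ⟨(use_iff hn p a).2 h, (use_iff hn _ _).2 ?_, Quot.sound (Or.inr rfl)⟩
  rw [nbr_nbr]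
  exact use_symm h

theorem use_in {p q : Tile} (hp : Q174.HX.dist p < n) (hq : Q174.HX.dist q ≤ n) : Use n p q :=
  ⟨hp.le, hq, Or.inl hp⟩

theorem R_in {p : Tile} (hp : Q174.HX.dist p < n) (a : Fin 6) : R hn (p, a) (p, a + 3) :=
  R_join (join_in hn hp a) (by revert a; decide)

/-- a tile on a line -/
def W (q : Tile) (a : Fin 6) (t : ℤ) : Tile := (q.1 + t * (dir a).1, q.2 + t * (dir a).2)

theorem nbr_W (q : Tile) (a : Fin 6) (t : ℤ) : nbr (W q a t) a = W q a (t + 1) := by
  unfold W nbr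
  ext
  · show q.1 + t * (dir a).1 + (dir a).1 = _; ring
  · show q.2 + t * (dir a).2 + (dir a).2 = _; ring

theorem walk (q : Tile) (a : Fin 6) (t : ℕ) (h : ∀ i : ℕ, i ≤ t → Q174.HX.dist (W q a i) < n) :
    R hn (W q a t, a) (q, a) := by
  induction t with
  | zero =>
    have h0 := h 0 le_rfl
    have e : W q a ((0 : ℕ) : ℤ) = q := by unfold W; simp
    rw [e] at h0 ⊢
    exact (R_in h0 a).left
  | succ t ih =>
    have h1 := ih fun i hi => h i (by omega)
    have h2 := h t (by omega)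
    have h3 := h (t + 1) le_rfl
    have e : W q a ((t + 1 : ℕ) : ℤ) = nbr (W q a t) a := by rw [nbr_W]; push_cast; rfl
    rw [e] at h3 ⊢
    exact ((R_in h3 a).trans (R_nbr (use_in h2 h3.le)).symm).trans h1

/-- the middle tile of a line -/
def z (a : Fin 6) (c : ℤ) : Tile := ![(0, c), (c, 0), (-c, 0), (0, c), (c, 0), (-c, 0)] a

theorem line_t (p : Tile) (a : Fin 6) : ∃ t : ℤ, p = W (z a (lam a p)) a t := by
  obtain ⟨x, y⟩ := p
  fin_cases a
  · exact ⟨x, by simp [W, z, lam, dir]⟩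
  · exact ⟨y, by simp [W, z, lam, dir]⟩
  · exact ⟨y, by simp [W, z, lam, dir]⟩
  · exact ⟨-x, by simp [W, z, lam, dir]⟩
  · exact ⟨-y, by simp [W, z, lam, dir]⟩
  · exact ⟨-y, by simp [W, z, lam, dir]⟩

theorem conv (a : Fin 6) (c t i : ℤ) (h : Q174.HX.dist (W (z a c) a t) < n)
    (h1 : (0 ≤ i ∧ i ≤ t) ∨ (t ≤ i ∧ i ≤ 0)) : Q174.HX.dist (W (z a c) a i) < n := by
  unfold Q174.HX.dist at *
  fin_cases a <;> simp [W, z, dir] at h ⊢ <;> omega

theorem W_W (q : Tile) (a : Fin 6) (t i : ℤ) : W (W q a t) a i = W q a (t + i) := by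
  unfold W
  ext
  · simp only; ring
  · simp only; ring

theorem line {p : Tile} (hp : Q174.HX.dist p < n) (a : Fin 6) :
    R hn (p, a) (z a (lam a p), a) := by
  obtain ⟨t, c, hc, ht⟩ : ∃ (t c : ℤ), c = lam a p ∧ p = W (z a c) a t := by
    obtain ⟨t, ht⟩ := line_t p a
    exact ⟨t, _, rfl, ht⟩
  subst ht
  rw [← hc]
  rcases le_total 0 t with h0 | h0
  · lift t to ℕ using h0
    exact walk (hn := hn) (z a c) a t fun i hi =>
      conv a _ t i hp (Or.inl ⟨by omega, by omega⟩)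
  · obtain ⟨u, hu⟩ : ∃ u : ℕ, t = -u := ⟨t.natAbs, by omega⟩
    have := walk (hn := hn) (W (z a c) a t) a u fun i hi => by
      rw [W_W]
      exact conv a _ t _ hp (Or.inr ⟨by omega, by omega⟩)
    rw [W_W, hu] at this
    have e2 : W (z a c) a (-(u : ℤ) + u) = z a c := by
      unfold W; simp
    rw [e2, ← hu] at this
    exact this.symm

/-- the line with the direction `a` and the parameter `c` -/
def L (a : Fin 6) (c : ℤ) : Tile × Fin 6 := (z a c, a)

theorem z_add (a : Fin 6) (c : ℤ) : z (a + 3) c = z a c := by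
  fin_cases a <;> rfl

theorem dist_z (a : Fin 6) (c : ℤ) : Q174.HX.dist (z a c) = c.natAbs := by
  unfold Q174.HX.dist
  fin_cases a <;> simp [z]

theorem L_add (a : Fin 6) {c : ℤ} (hc : c.natAbs < n) : R hn (L a c) (L (a + 3) c) := by
  unfold L
  rw [z_add]
  exact R_in (by rw [dist_z]; exact hc) a

theorem side3 (d : Fin 6) {j : ℤ} (h0 : 0 ≤ j) (h1 : j < n) :
    R hn (P n d j, d + 3) (L d (sgn d * j)) := by
  obtain ⟨i1, -⟩ := dist_inner hn d h0 h1
  have h := R_nbr (hn := hn) (use_symm (use_in i1 (dist_P hn d h0 h1.le).le))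
  have h2 := line (hn := hn) i1 (d + 3 + 3)
  have e : d + 3 + 3 = d := a33 d
  have e2 : lam d (nbr (P n d j) (d + 3)) = sgn d * j := by
    have := lam_nbr (d + 3) (P n d j)
    rw [e, lam_add, (lam_P n d j).1] at this
    exact this
  rw [e] at h h2
  rw [e2] at h2
  exact h.trans h2

theorem side4 (d : Fin 6) {j : ℤ} (h0 : 0 < j) (h1 : j < n) :
    R hn (P n d j, d + 4) (L (d + 1) (sgn d * (n - j))) := by
  have i1 := (dist_inner hn d h0.le h1).2 h0
  have h := R_nbr (hn := hn) (use_symm (use_in i1 (dist_P hn d h0.le h1.le).le))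
  have h2 := line (hn := hn) i1 (d + 4 + 3)
  have e : d + 4 + 3 = d + 1 := a43 d
  have e2 : lam (d + 1) (nbr (P n d j) (d + 4)) = sgn d * (n - j) := by
    have := lam_nbr (d + 4) (P n d j)
    rw [e, add14, lam_add, (lam_P n d j).2.1, ← add14] at this
    exact this
  rw [e] at h h2
  rw [e2] at h2
  exact h.trans h2

/-- reflection on the sides `0`, `2`, `4` -/
theorem refl_even (d : Fin 6) (hd : d.val % 2 = 0) {j : ℤ} (h0 : 0 < j) (h1 : j < n) :
    R hn (L d j) (L (d + 1) (n - j)) := by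
  have hs : sgn d = 1 := sg1 d hd
  have h3 := side3 (hn := hn) d h0.le h1
  have h4 := side4 (hn := hn) d h0 h1
  rw [hs, one_mul] at h3 h4
  have h : R hn (P n d j, d + 3) (P n d j, d + 4) := by
    refine R_join ?_ (n43 d)
    rw [join_P hn d h0.le h1]
    have : ty n (d, j) = 0 := by unfold ty; simp [hd]
    rw [this]
    exact bj034 d
  exact h3.symm.trans (h.trans h4)

/-- reflection on the sides `1`, `3`, `5` -/
theorem refl_odd (d : Fin 6) (hd : d.val % 2 = 1) {j : ℤ} (h0 : 0 < j) (h1 : j < n)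
    (hj : ¬ (d = 1 ∧ 2 * j ≤ n)) :
    R hn (L d (-j)) (L (d + 1) (-(n - j))) ∧ R hn (P n d j, d + 5) (P n d j, d + 2) := by
  have hs : sgn d = -1 := sgm d hd
  have h3 := side3 (hn := hn) d h0.le h1
  have h4 := side4 (hn := hn) d h0 h1
  rw [hs, neg_one_mul] at h3 h4
  have ht : ty n (d, j) = 3 := by
    unfold ty
    rw [if_neg (by simp only; omega), if_neg (by simp only; omega), if_neg hj]
  constructor
  · have h : R hn (P n d j, d + 3) (P n d j, d + 4) := by
      refine R_join ?_ (n43 d)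
      rw [join_P hn d h0.le h1, ht]
      exact bj334 d
    exact h3.symm.trans (h.trans h4)
  · refine R_join ?_ (n25 d)
    rw [join_P hn d h0.le h1, ht]
    exact bj352 d

/-- the special tiles -/
theorem special {j : ℤ} (h0 : 0 < j) (h1 : 2 * j ≤ n) (h2 : j < n) :
    R hn (L 1 (-j)) (P n 1 j, 3) ∧ R hn (L 2 (-(n - j))) (P n 1 j, 0) := by
  have h3 := side3 (hn := hn) 1 h0.le h2
  have h4 := side4 (hn := hn) 1 h0 h2
  have hs : sgn 1 = -1 := rfl
  rw [hs, neg_one_mul] at h3 h4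
  have ht : ty n (1, j) = 2 := by
    unfold ty
    rw [if_neg (by simp), if_neg (by simp only; omega), if_pos ⟨rfl, h1⟩]
  constructor
  · refine h3.symm.trans ?_
    refine R_join ?_ (by decide)
    rw [join_P hn 1 h0.le h2, ht]
    decide +kernel
  · refine h4.symm.trans ?_
    refine R_join ?_ (by decide)
    rw [join_P hn 1 h0.le h2, ht]
    decide +kernel

/-- the first corner of a used side -/
theorem corner0 (d : Fin 6) (hd : d.val % 2 = 1) : R hn (L d 0) (P n d 0, d + 2) := by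
  have h1 : (0 : ℤ) < n := by exact_mod_cast hn
  have h3 := side3 (hn := hn) d le_rfl h1
  rw [mul_zero] at h3
  refine h3.symm.trans (R_join ?_ (n23 d))
  have ht : ty n (d, 0) = 1 := by
    unfold ty
    rw [if_neg (by simp only; omega), if_pos rfl]
  rw [join_P hn d le_rfl h1, ht]
  exact bj132 d

/-- moving along a used side -/
theorem lateral (d : Fin 6) (hd : d.val % 2 = 1) {j : ℤ} (h0 : 0 ≤ j) (h1 : j < n) :
    R hn (P n d j, d + 2) (P n d (j + 1), d + 5) := by
  have hu : Use n (P n d j) (nbr (P n d j) (d + 2)) := by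
    rw [← use_P d h0 h1]
    unfold ty
    rw [if_neg (by simp only; omega)]
    split_ifs
    · clear * -; revert d; decide +kernel
    · clear * -; revert d; decide +kernel
    · clear * -; revert d; decide +kernel
  have h := R_nbr (hn := hn) hu
  rw [nbr_P_next, add23] at h
  exact h

/-- the second corner of a used side -/
theorem corner1 (d : Fin 6) (hd : d.val % 2 = 1) : R hn (L (d + 1) 0) (P n d n, d + 5) := by
  have h1 : (0 : ℤ) < n := by exact_mod_cast hn
  have h3 := side3 (hn := hn) (d + 1) le_rfl h1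
  rw [mul_zero] at h3
  rw [P_last]
  rw [a5]
  refine h3.symm.trans (R_join ?_ (n43 (d + 1)))
  have ht : ty n (d + 1, 0) = 0 := by
    have := par d hd
    unfold ty
    rw [if_pos (by simpa using this)]
  rw [join_P hn (d + 1) le_rfl h1, ht]
  exact bj034 (d + 1)

end Pool.Agent.KS6_92.Hx2
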