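import Pool.Agent.KS6_92.Hx2

/-! # Mosaics with the minimal number of components: the count -/

set_option autoImplicit false

namespace Pool.Agent.KS6_92.Hx3

open Q174.HF Q174.HX Hx0 Hx1 Hx2

variable {n : ℕ} {hn : 1 ≤ n}

theorem addz {c : ℤ} (h : -(n : ℤ) < c ∧ c < n) : c.natAbs < n := by omega

/-- the lines `0`, `1`, `2` instead of `3`, `4`, `5` -/
theorem L3 {c : ℤ} (h : -(n : ℤ) < c ∧ c < n) : R hn (L 3 c) (L 0 c) := (L_add 0 (addz h)).symm
theorem L4 {c : ℤ} (h : -(n : ℤ) < c ∧ c < n) : R hn (L 4 c) (L 1 c) := (L_add 1 (addz h)).symm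
theorem L5 {c : ℤ} (h : -(n : ℤ) < c ∧ c < n) : R hn (L 5 c) (L 2 c) := (L_add 2 (addz h)).symm

theorem E3 {j : ℤ} (h0 : 0 < j) (h1 : j < n) : R hn (L 0 (-j)) (L 1 (-(n - j))) := by
  have h : R hn (L 3 (-j)) (L 4 (-(n - j))) := (refl_odd 3 (by decide) h0 h1 (by simp)).1
  exact ((L3 (by omega)).symm.trans h).trans (L4 (by omega))

theorem E5 {j : ℤ} (h0 : 0 < j) (h1 : j < n) : R hn (L 2 (-j)) (L 0 (-(n - j))) := by
  have h : R hn (L 5 (-j)) (L 0 (-(n - j))) := (refl_odd 5 (by decide) h0 h1 (by simp)).1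
  exact (L5 (by omega)).symm.trans h

theorem E1 {j : ℤ} (h0 : 0 < j) (h1 : j < n) (h2 : n < 2 * j) :
    R hn (L 1 (-j)) (L 2 (-(n - j))) :=
  (refl_odd 1 (by decide) h0 h1 (by simp; omega)).1

theorem F0 {j : ℤ} (h0 : 0 < j) (h1 : j < n) : R hn (L 0 j) (L 1 (n - j)) :=
  refl_even 0 (by decide) h0 h1

theorem F2 {j : ℤ} (h0 : 0 < j) (h1 : j < n) : R hn (L 2 j) (L 0 (n - j)) :=
  (refl_even 2 (by decide) h0 h1 : R hn (L 2 j) (L 3 (n - j))).trans (L3 (by omega))

theorem F4 {j : ℤ} (h0 : 0 < j) (h1 : j < n) : R hn (L 1 j) (L 2 (n - j)) :=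
  ((L4 (by omega)).symm.trans (refl_even 4 (by decide) h0 h1 : R hn (L 4 j) (L 5 (n - j)))).trans
    (L5 (by omega))

/-- the straight sides -/
theorem chain (d : Fin 6) (hd : d.val % 2 = 1) (hd1 : d ≠ 1) (j : ℕ) (hj : j < n) :
    R hn (L d 0) (P n d j, d + 2) := by
  induction j with
  | zero => exact corner0 d hd
  | succ j ih =>
    have h1 := lateral (hn := hn) d hd (j := (j : ℤ)) (by omega) (by omega)
    have h2 := (refl_odd (hn := hn) d hd (j := (j : ℤ) + 1) (by omega) (by omega)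
      (fun h => hd1 h.1)).2
    have := ((ih (by omega)).trans h1).trans h2
    push_cast
    exact this

theorem chain' (d : Fin 6) (hd : d.val % 2 = 1) (hd1 : d ≠ 1) : R hn (L d 0) (L (d + 1) 0) := by
  have h0 := chain (hn := hn) d hd hd1 (n - 1) (by omega)
  have h1 := lateral (hn := hn) d hd (j := ((n - 1 : ℕ) : ℤ)) (by omega) (by omega)
  have e : (((n - 1 : ℕ) : ℤ) + 1) = n := by omega
  rw [e] at h1
  exact (h0.trans h1).trans (corner1 d hd).symm

theorem z0 : -(n : ℤ) < 0 ∧ (0 : ℤ) < n ↔ 1 ≤ n := by omega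

include hn in
theorem zz : -(n : ℤ) < 0 ∧ (0 : ℤ) < n := by omega

theorem base0 : R hn (L 0 0) (L 1 0) := by
  have h : R hn (L 3 0) (L 4 0) := chain' 3 (by decide) (by decide)
  exact ((L3 (zz (hn := hn))).symm.trans h).trans (L4 (zz (hn := hn)))

theorem base2 : R hn (L 2 0) (L 1 0) := by
  have h : R hn (L 5 0) (L 0 0) := chain' 5 (by decide) (by decide)
  exact ((L5 (zz (hn := hn))).symm.trans h).trans base0

theorem curve {i : ℤ} (h0 : 0 < i) (h1 : i < n) (h2 : 2 * i ≤ n) :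
    R hn (L 2 (-(n - i))) (L 1 (-i)) := by
  have e : (n : ℤ) - (n - i) = i := by ring
  have a1 := E5 (hn := hn) (j := n - i) (by omega) (by omega)
  rw [e] at a1
  have a2 := E3 (hn := hn) (j := i) (by omega) (by omega)
  rcases h2.lt_or_eq with h | h
  · have a3 := E1 (hn := hn) (j := n - i) (by omega) (by omega) (by omega)
    rw [e] at a3
    have a4 := E5 (hn := hn) (j := i) (by omega) (by omega)
    have a5 := E3 (hn := hn) (j := n - i) (by omega) (by omega)
    rw [e] at a5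
    exact (((a1.trans a2).trans a3).trans a4).trans a5
  · have e2 : (n : ℤ) - i = i := by omega
    rw [e2] at a1 a2 ⊢
    exact a1.trans a2

/-- the side with the special tiles -/
theorem chain1 (j : ℕ) (hj : j < n) : R hn (L 1 0) (P n 1 j, 3) := by
  induction j with
  | zero => exact corner0 1 (by decide)
  | succ j ih =>
    have h1 : R hn (P n 1 j, 3) (P n 1 (j + 1), 0) :=
      lateral (hn := hn) 1 (by decide) (j := (j : ℤ)) (by omega) (by omega)
    have h3 := (ih (by omega)).trans h1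
    push_cast
    by_cases h : 2 * ((j : ℤ) + 1) ≤ n
    · obtain ⟨s1, s2⟩ := special (hn := hn) (j := (j : ℤ) + 1) (by omega) h (by omega)
      exact ((h3.trans s2.symm).trans (curve (by omega) (by omega) h)).trans s1
    · have h2 : R hn (P n 1 (j + 1), 0) (P n 1 (j + 1), 3) :=
        (refl_odd (hn := hn) 1 (by decide) (j := (j : ℤ) + 1) (by omega) (by omega)
          (fun h' => h h'.2)).2
      exact h3.trans h2

theorem neg_half {i : ℤ} (h0 : 0 < i) (h1 : i < n) (h2 : 2 * i ≤ n) :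
    R hn (L 0 (-i)) (L 1 0) ∧ R hn (L 1 (-i)) (L 1 0) ∧ R hn (L 2 (-i)) (L 1 0) ∧
    R hn (L 0 (-(n - i))) (L 1 0) ∧ R hn (L 1 (-(n - i))) (L 1 0) ∧
    R hn (L 2 (-(n - i))) (L 1 0) := by
  have e : (n : ℤ) - (n - i) = i := by ring
  obtain ⟨s1, -⟩ := special (hn := hn) h0 h2 h1
  have c1 : R hn (L 1 (-i)) (L 1 0) := by
    lift i to ℕ using h0.le
    exact s1.trans (chain1 i (by omega)).symm
  have c2 : R hn (L 2 (-(n - i))) (L 1 0) := (curve h0 h1 h2).trans c1
  have a5 := E3 (hn := hn) (j := n - i) (by omega) (by omega)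
  rw [e] at a5
  have c3 : R hn (L 0 (-(n - i))) (L 1 0) := a5.trans c1
  have a1 := E5 (hn := hn) (j := n - i) (by omega) (by omega)
  rw [e] at a1
  have c4 : R hn (L 0 (-i)) (L 1 0) := a1.symm.trans c2
  have a2 := E3 (hn := hn) (j := i) (by omega) (by omega)
  have c5 : R hn (L 1 (-(n - i))) (L 1 0) := a2.symm.trans c4
  have a4 := E5 (hn := hn) (j := i) (by omega) (by omega)
  exact ⟨c4, c1, a4.trans c3, c3, c5, c2⟩

theorem neg_all {i : ℤ} (h0 : 0 < i) (h1 : i < n) :
    R hn (L 0 (-i)) (L 1 0) ∧ R hn (L 1 (-i)) (L 1 0) ∧ R hn (L 2 (-i)) (L 1 0) := by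
  rcases le_or_gt (2 * i) n with h | h
  · obtain ⟨a, b, c, -⟩ := neg_half (hn := hn) h0 h1 h
    exact ⟨a, b, c⟩
  · obtain ⟨-, -, -, a, b, c⟩ := neg_half (hn := hn) (i := n - i) (by omega) (by omega) (by omega)
    have e : (n : ℤ) - (n - i) = i := by ring
    rw [e] at a b c
    exact ⟨a, b, c⟩

theorem pos_all {j : ℤ} (h0 : 0 < j) (h1 : j < n) :
    R hn (L 1 j) (L 0 j) ∧ R hn (L 2 j) (L 0 j) ∧ R hn (L 0 j) (L 0 (n - j)) := by
  have e : (n : ℤ) - (n - j) = j := by ring
  have f0 := F0 (hn := hn) h0 h1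
  have f4 := F4 (hn := hn) (j := n - j) (by omega) (by omega)
  rw [e] at f4
  have f2 := F2 (hn := hn) h0 h1
  have f0' := F0 (hn := hn) (j := n - j) (by omega) (by omega)
  rw [e] at f0'
  have h3 : R hn (L 0 j) (L 0 (n - j)) := (f0.trans f4).trans f2
  exact ⟨f0'.symm.trans h3.symm, f2.trans h3.symm, h3⟩

/-- Every line is in the component of one of the lines `L 0 k`, `k ≤ n / 2`. -/
theorem lines (a : Fin 6) {c : ℤ} (h : -(n : ℤ) < c ∧ c < n) :
    ∃ k : ℕ, k ≤ n / 2 ∧ R hn (L a c) (L 0 k) := by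
  have key : ∀ a : Fin 6, (a = 0 ∨ a = 1 ∨ a = 2) → ∃ k : ℕ, k ≤ n / 2 ∧ R hn (L a c) (L 0 k) := by
    intro a ha
    rcases lt_trichotomy c 0 with hc | hc | hc
    · obtain ⟨h1, h2, h3⟩ := neg_all (hn := hn) (i := -c) (by omega) (by omega)
      rw [neg_neg] at h1 h2 h3
      refine ⟨0, by omega, ?_⟩
      have hb := (base0 (hn := hn)).symm
      rcases ha with rfl | rfl | rfl
      · exact h1.trans hb
      · exact h2.trans hb
      · exact h3.trans hb
    · subst hc
      refine ⟨0, by omega, ?_⟩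
      have hb := (base0 (hn := hn)).symm
      rcases ha with rfl | rfl | rfl
      · exact hb.symm.left
      · exact hb
      · exact base2.trans hb
    · obtain ⟨h1, h2, h3⟩ := pos_all (hn := hn) hc h.2
      have h4 : ∃ k : ℕ, k ≤ n / 2 ∧ R hn (L 0 c) (L 0 k) := by
        rcases le_or_gt (2 * c) n with h | h
        · refine ⟨c.toNat, by omega, ?_⟩
          have : ((c.toNat : ℕ) : ℤ) = c := by omega
          rw [this]
          exact h3.left
        · refine ⟨(n - c).toNat, by omega, ?_⟩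
          have : (((n - c).toNat : ℕ) : ℤ) = n - c := by omega
          rw [this]
          exact h3
      obtain ⟨k, hk, h5⟩ := h4
      refine ⟨k, hk, ?_⟩
      rcases ha with rfl | rfl | rfl
      · exact h5
      · exact h1.trans h5
      · exact h2.trans h5
  have ha : (a = 0 ∨ a = 1 ∨ a = 2) ∨ (a = 3 ∨ a = 4 ∨ a = 5) := by
    clear * -; revert a; decide
  rcases ha with ha | ha
  · exact key a ha
  · rcases ha with rfl | rfl | rfl
    · obtain ⟨k, hk, h5⟩ := key 0 (by simp)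
      exact ⟨k, hk, (L3 h).trans h5⟩
    · obtain ⟨k, hk, h5⟩ := key 1 (by simp)
      exact ⟨k, hk, (L4 h).trans h5⟩
    · obtain ⟨k, hk, h5⟩ := key 2 (by simp)
      exact ⟨k, hk, (L5 h).trans h5⟩

theorem lam_le (a : Fin 6) (p : Tile) (hp : Q174.HX.dist p < n) :
    -(n : ℤ) < lam a p ∧ lam a p < n := by
  obtain ⟨x, y⟩ := p
  unfold Q174.HX.dist at hp
  simp only at hp
  fin_cases a <;> simp [lam] <;> omega

theorem used_P (d : Fin 6) (j : ℤ) (a : Fin 6) :
    bj d (ty n (d, j)) a ≠ a ↔ (if d.val % 2 = 0 then a = d + 3 ∨ a = d + 4 else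
      if j = 0 then a = d + 2 ∨ a = d + 3 else a = d + 2 ∨ a = d + 3 ∨ a = d + 4 ∨ a = d + 5) := by
  unfold ty
  simp only
  split_ifs
  · exact b0 d a
  · exact b1 d a
  · exact b2 d a
  · exact b3 d a

/-- All ends. -/
theorem ends (p : Tile) (a : Fin 6) (h : ((mos n hn).tile p).join a ≠ a) :
    ∃ k : ℕ, k ≤ n / 2 ∧ R hn (p, a) (L 0 k) := by
  rcases lt_trichotomy (Q174.HX.dist p) n with hp | hp | hp
  · obtain ⟨k, hk, h1⟩ := lines (hn := hn) a (lam_le a p hp)
    exact ⟨k, hk, (line hp a).trans h1⟩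
  · obtain ⟨d, j, h0, h1, rfl⟩ := exists_P hn hp
    have hu := h
    rw [join_P hn d h0 h1, used_P] at hu
    have c3 : ∃ k : ℕ, k ≤ n / 2 ∧ R hn (P n d j, d + 3) (L 0 k) := by
      obtain ⟨k, hk, h5⟩ := lines (hn := hn) d (c := sgn d * j) (by
        rcases sgn_cases d with h | h <;> rw [h] <;> omega)
      exact ⟨k, hk, (side3 d h0 h1).trans h5⟩
    have c4 : 0 < j → ∃ k : ℕ, k ≤ n / 2 ∧ R hn (P n d j, d + 4) (L 0 k) := by
      intro hj
      obtain ⟨k, hk, h5⟩ := lines (hn := hn) (d + 1) (c := sgn d * (n - j)) (by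
        rcases sgn_cases d with h | h <;> rw [h] <;> omega)
      exact ⟨k, hk, (side4 d hj h1).trans h5⟩
    have c2 : ∀ i : ℤ, 0 ≤ i → i < n → d.val % 2 = 1 →
        ∃ k : ℕ, k ≤ n / 2 ∧ R hn (P n d i, d + 2) (L 0 k) := by
      intro i hi0 hi1 hd
      lift i to ℕ using hi0
      by_cases hd1 : d = 1
      · subst hd1
        exact ⟨0, by omega, (chain1 i (by omega)).symm.trans base0.symm⟩
      · obtain ⟨k, hk, h5⟩ := lines (hn := hn) d (c := 0) (zz (hn := hn))
        exact ⟨k, hk, (chain d hd hd1 i (by omega)).symm.trans h5⟩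
    split_ifs at hu with hd hj
    · rcases hu with rfl | rfl
      · exact c3
      · rcases h0.lt_or_eq with hj | hj
        · exact c4 hj
        · subst hj
          obtain ⟨k, hk, h5⟩ := c3
          refine ⟨k, hk, R.trans (R_join ?_ (n43 d).symm) h5⟩
          rw [join_P hn d h0 h1]
          have ht : ty n (d, 0) = 0 := by unfold ty; simp [hd]
          rw [ht]
          clear * -
          revert d; decide +kernel
    · rcases hu with rfl | rfl
      · exact c2 j h0 h1 (by omega)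
      · exact c3
    · rcases hu with rfl | rfl | rfl | rfl
      · exact c2 j h0 h1 (by omega)
      · exact c3
      · exact c4 (by omega)
      · obtain ⟨k, hk, h5⟩ := c2 (j - 1) (by omega) (by omega) (by omega)
        have h6 := lateral (hn := hn) d (by omega) (j := j - 1) (by omega) (by omega)
        rw [sub_add_cancel] at h6
        exact ⟨k, hk, h6.symm.trans h5⟩
  · exact absurd (join_out hn hp a) h

/-- The mosaic has the minimal number of components. -/
theorem components_le (hn : 1 ≤ n) : components (mos n hn) ≤ n / 2 + 1 := by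
  have hk : ∀ k : Fin (n / 2 + 1), ((mos n hn).tile (L 0 k).1).join (L 0 k).2 ≠ (L 0 k).2 := by
    intro k
    have : Q174.HX.dist (L 0 k).1 < n := by
      show Q174.HX.dist (z 0 k) < n
      rw [dist_z]
      have := k.2
      omega
    rw [join_in hn this]
    exact (by decide : ∀ a : Fin 6, a + 3 ≠ a) _
  let f : Fin (n / 2 + 1) → Quot (Linked (mos n hn)) := fun k => Quot.mk _ ⟨L 0 k, hk k⟩
  have hf : Function.Surjective f := by
    rintro ⟨⟨⟨p, a⟩, h⟩⟩
    obtain ⟨k, hk1, hx, hy, h1⟩ := ends (hn := hn) p a h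
    exact ⟨⟨k, by omega⟩, h1.symm⟩
  have h1 := Nat.card_le_card_of_surjective f hf
  have e : Nat.card (Fin (n / 2 + 1)) = n / 2 + 1 := by simp
  rw [e] at h1
  exact h1

theorem sharp (r : ℕ) (hr : 2 ≤ r) : ∃ M : Mosaic, M.r = r ∧ M.SuitablyConnected ∧
    M.InteriorTriple ∧ components M = (r + 1) / 2 := by
  obtain ⟨n, rfl⟩ : ∃ n, r = n + 1 := ⟨r - 1, by omega⟩
  have hn : 1 ≤ n := by omega
  refine ⟨mos n hn, rfl, suitably hn, triple hn, le_antisymm ?_ ?_⟩
  · have := components_le hn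
    omega
  · exact le_components (suitably hn) (triple hn)

end Pool.Agent.KS6_92.Hx3
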