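import Pool.Graph.R_pool_sql_team_seeded_3997aac3.Q299.FAL.NET
import Pool.Graph.R_pool_sql_team_seeded_3997aac3.Q280.FAL.NL

/-!
# Asymptotics of weighted state sums of nets

As `Pool.Agent.Q299.FAL.task_NET`, for general terms which satisfy a Gaussian bound and converge on the
scale `√N`.
-/

set_option autoImplicit false

namespace Pool.Agent.KS6_92.Wt

open Finset Filter Topology MeasureTheory
open Pool.Agent.Q191.TW (cs)
open Pool.Agent.Q99.FAL
open Pool.Agent.Q299.FAL (vc XL XL_apply lower)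

variable {c : ℕ}

open Classical in
/-- the state sum of a net with general terms -/
noncomputable def ZT (X : Net c) (T : (Fin c → Fin 6 → ℤ) → ℂ) (N : ℕ) : ℂ :=
  ∑ a : Fin c → Fin 6 → Fin N,
    if (fun b => zz (a b)) - ((N : ℤ) - 1) • X.a0 ∈ X.L then T (fun b => zz (a b)) else 0

open Classical in
lemma sum_ZT {d : ℕ} (X : Net c) (E : Fin d → Fin c → Fin 6 → ℤ)
    (h1 : ∀ t : Fin d → ℤ, (∑ j, t j • E j) ∈ X.L)
    (h2 : ∀ a ∈ X.L, ∃! t : Fin d → ℤ, a = ∑ j, t j • E j) (N : ℕ)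
    (T : (Fin c → Fin 6 → ℤ) → ℂ)
    (hT : ∀ (v : Fin c → Fin 6 → ℤ) (b : Fin c) (i : Fin 6), ¬ (0 ≤ v b i ∧ v b i < N) → T v = 0)
    (K : ℂ) :
    ∑' t : Fin d → ℤ, K * T (vc X E N t) = K * ZT X T N := by
  have hex : ∀ a : Fin c → Fin 6 → Fin N, ∃ t : Fin d → ℤ,
      (fun b => zz (a b)) - ((N : ℤ) - 1) • X.a0 ∈ X.L →
        (fun b => zz (a b)) - ((N : ℤ) - 1) • X.a0 = ∑ j, t j • E j := by
    intro a
    by_cases ha : (fun b => zz (a b)) - ((N : ℤ) - 1) • X.a0 ∈ X.L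
    · obtain ⟨t, ht, -⟩ := h2 _ ha
      exact ⟨t, fun _ => ht⟩
    · exact ⟨0, fun h => absurd h ha⟩
  choose tf htf using hex
  have hvc : ∀ a : Fin c → Fin 6 → Fin N, (fun b => zz (a b)) - ((N : ℤ) - 1) • X.a0 ∈ X.L →
      vc X E N (tf a) = fun b => zz (a b) := by
    intro a ha
    unfold vc
    rw [← htf a ha, add_sub_cancel]
  set S : Finset (Fin d → ℤ) := (univ.filter fun a : Fin c → Fin 6 → Fin N =>
    (fun b => zz (a b)) - ((N : ℤ) - 1) • X.a0 ∈ X.L).image tf with hS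
  rw [tsum_eq_sum (s := S)]
  · rw [hS, sum_image]
    · unfold ZT
      rw [mul_sum, sum_filter]
      refine sum_congr rfl fun a _ => ?_
      split_ifs with h
      · rw [hvc a h]
      · rw [mul_zero]
    · intro a ha a' ha' haa
      rw [coe_filter, Set.mem_setOf_eq] at ha ha'
      have e1 := hvc a ha.2
      have e2 := hvc a' ha'.2
      rw [haa, e2] at e1
      funext b i
      have := congrFun (congrFun e1 b) i
      simp only [zz] at this
      apply Fin.ext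
      exact_mod_cast this.symm
  · intro t ht
    by_contra hne
    apply ht
    have hcube : ∀ b i, 0 ≤ vc X E N t b i ∧ vc X E N t b i < N := by
      intro b i
      by_contra hh
      exact hne (by rw [hT _ b i hh, mul_zero])
    have hlt : ∀ b i, (vc X E N t b i).toNat < N := by
      intro b i
      have := hcube b i
      omega
    have hzz : (fun b => zz (fun i => (⟨(vc X E N t b i).toNat, hlt b i⟩ : Fin N))) =
        vc X E N t := by
      funext b i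
      show (((vc X E N t b i).toNat : ℕ) : ℤ) = _
      exact Int.toNat_of_nonneg (hcube b i).1
    have hmem : (fun b => zz (fun i => (⟨(vc X E N t b i).toNat, hlt b i⟩ : Fin N))) -
        ((N : ℤ) - 1) • X.a0 = ∑ j, t j • E j := by
      rw [hzz]
      unfold vc
      rw [add_sub_cancel_left]
    have hmemL : (fun b => zz (fun i => (⟨(vc X E N t b i).toNat, hlt b i⟩ : Fin N))) -
        ((N : ℤ) - 1) • X.a0 ∈ X.L := by
      rw [hmem]
      exact h1 t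
    rw [hS, mem_image]
    refine ⟨fun b i => ⟨(vc X E N t b i).toNat, hlt b i⟩, ?_, ?_⟩
    · rw [mem_filter]
      exact ⟨mem_univ _, hmemL⟩
    · obtain ⟨t0, -, hu⟩ := h2 _ hmemL
      rw [hu _ (htf _ hmemL), hu t hmem.symm.symm]

/-- **asymptotics of a state sum of Gaussian type.** -/
theorem net_gen (hLB : S_LB) (X : Net c) (a : Fin c → Fin 6 → ℝ) (ha : a ∈ X.Ang)
    (T : ℕ → (Fin c → Fin 6 → ℤ) → ℂ) (G : (Fin c → Fin 6 → ℝ) → ℂ)
    (hT : ∀ N : ℕ, 1 ≤ N → ∀ (v : Fin c → Fin 6 → ℤ) (b : Fin c) (i : Fin 6),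
      ¬ (0 ≤ v b i ∧ v b i < N) → T N v = 0)
    (C0 κ0 : ℝ) (hκ0 : 0 < κ0)
    (hNB' : ∀ N : ℕ, 1 ≤ N → ∀ a' : Fin c → Fin 6 → ℤ, a' - ((N : ℤ) - 1) • X.a0 ∈ X.L →
      ‖T N a'‖ ≤ C0 * Real.exp (-κ0 * ((∑ b, ∑ i, ((a' b i : ℝ) - N * a b i) ^ 2) / N)))
    (hNL' : ∀ (a' : ℕ → Fin c → Fin 6 → ℤ) (x : Fin c → Fin 6 → ℝ),
      (∀ N : ℕ, a' N - ((N : ℤ) - 1) • X.a0 ∈ X.L) →
      (∀ b i, Tendsto (fun N : ℕ => ((a' N b i : ℝ) - N * a b i) / √N) atTop (𝓝 (x b i))) →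
      x ∈ X.LR →
      Tendsto (fun N : ℕ => T N (a' N)) atTop (𝓝 (G x))) :
    ∃ E : Fin (Module.finrank ℤ X.L) → Fin c → Fin 6 → ℤ,
    (∀ t : Fin (Module.finrank ℤ X.L) → ℤ, (∑ j, t j • E j) ∈ X.L) ∧
    (∀ a ∈ X.L, ∃! t : Fin (Module.finrank ℤ X.L) → ℤ, a = ∑ j, t j • E j) ∧
    (∀ τ : Fin (Module.finrank ℤ X.L) → ℝ, (∑ j, τ j • toR (E j)) = 0 → τ = 0) ∧
    (∀ x ∈ X.LR, ∃ τ : Fin (Module.finrank ℤ X.L) → ℝ, x = ∑ j, τ j • toR (E j)) ∧
    Tendsto (fun N : ℕ => (((√N ^ Module.finrank ℤ X.L)⁻¹ : ℝ) : ℂ) * ZT X (T N) N) atTop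
      (𝓝 (∫ τ : Fin (Module.finrank ℤ X.L) → ℝ, G (XL E τ))) := by
  obtain ⟨E, h1, h2, h3, h4⟩ := hLB c X
  refine ⟨E, h1, h2, h3, h4, ?_⟩
  obtain ⟨τ, hτ⟩ := h4 _ ha.1
  obtain ⟨K, hK, hlow⟩ := lower E h3
  obtain ⟨M, hM⟩ : ∃ M : ℝ, M = ∑ b, ∑ i, ((X.a0 b i : ℤ) : ℝ) ^ 2 := ⟨_, rfl⟩
  have hM0 : 0 ≤ M := by
    rw [hM]
    exact sum_nonneg fun b _ => sum_nonneg fun i _ => sq_nonneg _
  have hab : ∀ b i, a b i = X.a0 b i + XL E τ b i := by
    intro b i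
    have h5 := congrFun (congrFun hτ b) i
    rw [← XL_apply] at h5
    have h6 : a b i - X.a0 b i = XL E τ b i := h5
    linarith
  have hvc : ∀ (N : ℕ) (t : Fin (Module.finrank ℤ X.L) → ℤ) (b : Fin c) (i : Fin 6),
      ((vc X E N t b i : ℤ) : ℝ) - N * a b i =
        XL E (fun j => (t j : ℝ) - N * τ j) b i - X.a0 b i := by
    intro N t b i
    rw [hab]
    have e1 : ((vc X E N t b i : ℤ) : ℝ) = ((N : ℝ) - 1) * X.a0 b i + ∑ j, (t j : ℝ) * (E j b i : ℝ) := by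
      unfold vc
      simp only [Pi.add_apply, Pi.smul_apply, Finset.sum_apply, smul_eq_mul]
      push_cast
      rfl
    have e2 : ∀ y : Fin (Module.finrank ℤ X.L) → ℝ, XL E y b i = ∑ j, y j * (E j b i : ℝ) := by
      intro y
      rw [XL_apply]
      simp only [Finset.sum_apply, Pi.smul_apply, smul_eq_mul, toR]
    rw [e1, e2, e2]
    simp only [sub_mul, sum_sub_distrib]
    rw [mul_add, mul_sum]
    have e3 : ∀ j, (N : ℝ) * (τ j * (E j b i : ℝ)) = N * τ j * (E j b i : ℝ) := fun j => by ring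
    simp only [e3]
    ring
  have hLmem : ∀ (N : ℕ) (t : Fin (Module.finrank ℤ X.L) → ℤ),
      vc X E N t - ((N : ℤ) - 1) • X.a0 ∈ X.L := by
    intro N t
    unfold vc
    rw [add_sub_cancel_left]
    exact h1 t
  have hEL : ∀ j, E j ∈ X.L := by
    intro j
    have := h1 (Pi.single j 1)
    rwa [sum_eq_single j (fun i _ hi => by rw [Pi.single_eq_of_ne hi, zero_smul])
      (fun h => absurd (mem_univ _) h), Pi.single_eq_same, one_smul] at this
  have hXL : ∀ τ, XL E τ ∈ X.LR := by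
    intro τ
    rw [XL_apply]
    exact X.LR.sum_mem fun j _ => X.LR.smul_mem _ (Submodule.subset_span ⟨_, hEL j, rfl⟩)
  have hriem := Pool.Agent.Q99.FW.riemann (d := Module.finrank ℤ X.L) τ
    (κ := κ0 / (2 * K)) (C := |C0| * Real.exp (κ0 * M)) (by positivity)
    (fun N t => T N (vc X E N t))
    (fun u => G (XL E u)) ?_ ?_
  · refine hriem.congr' ?_
    filter_upwards [eventually_ge_atTop 1] with N hN
    have := sum_ZT X E h1 h2 N (T N) (hT N hN) 1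
    simp only [one_mul] at this
    rw [this]
  · filter_upwards [eventually_ge_atTop 1] with N hN t
    have hN0 : (0 : ℝ) < N := by exact_mod_cast hN
    have hN1 : (1 : ℝ) ≤ N := by exact_mod_cast hN
    have h5 := hNB' N hN (vc X E N t) (hLmem N t)
    refine h5.trans ?_
    have h6 : ∑ j, ((t j : ℝ) - N * τ j) ^ 2 ≤ K * (2 * (∑ b, ∑ i, (((vc X E N t b i : ℤ) : ℝ) - N * a b i) ^ 2 + M)) := by
      refine (hlow _).trans (mul_le_mul_of_nonneg_left ?_ hK.le)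
      rw [hM, ← sum_add_distrib, mul_sum]
      refine sum_le_sum fun b _ => ?_
      rw [← sum_add_distrib, mul_sum]
      refine sum_le_sum fun i _ => ?_
      rw [hvc]
      nlinarith [sq_nonneg (XL E (fun j => (t j : ℝ) - N * τ j) b i - 2 * X.a0 b i)]
    have h7 : -κ0 * ((∑ b, ∑ i, (((vc X E N t b i : ℤ) : ℝ) - N * a b i) ^ 2) / N) ≤
        κ0 * M + -(κ0 / (2 * K)) * ((∑ j, ((t j : ℝ) - N * τ j) ^ 2) / N) := by
      have h8 : (∑ j, ((t j : ℝ) - N * τ j) ^ 2) / (2 * K) - M ≤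
          ∑ b, ∑ i, (((vc X E N t b i : ℤ) : ℝ) - N * a b i) ^ 2 := by
        rw [sub_le_iff_le_add, div_le_iff₀ (by positivity)]
        linarith
      have h9 : (∑ j, ((t j : ℝ) - N * τ j) ^ 2) / (2 * K) / N - M ≤
          (∑ b, ∑ i, (((vc X E N t b i : ℤ) : ℝ) - N * a b i) ^ 2) / N := by
        rw [le_div_iff₀ hN0, sub_mul, div_mul_cancel₀ _ hN0.ne']
        nlinarith
      have h10 := mul_le_mul_of_nonneg_left h9 hκ0.le
      have e : -(κ0 / (2 * K)) * ((∑ j, ((t j : ℝ) - N * τ j) ^ 2) / N) =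
          -(κ0 * ((∑ j, ((t j : ℝ) - N * τ j) ^ 2) / (2 * K) / N)) := by
        field_simp
      rw [e]
      linarith
    calc C0 * Real.exp (-κ0 * ((∑ b, ∑ i, (((vc X E N t b i : ℤ) : ℝ) - N * a b i) ^ 2) / N))
        ≤ |C0| * Real.exp (-κ0 * ((∑ b, ∑ i, (((vc X E N t b i : ℤ) : ℝ) - N * a b i) ^ 2) / N)) :=
          mul_le_mul_of_nonneg_right (le_abs_self _) (Real.exp_pos _).le
      _ ≤ |C0| * Real.exp (κ0 * M + -(κ0 / (2 * K)) * ((∑ j, ((t j : ℝ) - N * τ j) ^ 2) / N)) :=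
          mul_le_mul_of_nonneg_left (Real.exp_le_exp.2 h7) (abs_nonneg _)
      _ = _ := by rw [Real.exp_add, mul_assoc]
  · intro u x hx
    refine hNL' (fun N => vc X E N (x N)) (XL E u) (fun N => hLmem N (x N)) (fun b i => ?_) (hXL u)
    have e2 : ∀ y : Fin (Module.finrank ℤ X.L) → ℝ, XL E y b i = ∑ j, y j * (E j b i : ℝ) := by
      intro y
      rw [XL_apply]
      simp only [Finset.sum_apply, Pi.smul_apply, smul_eq_mul, toR]
    have h5 : ∀ N : ℕ, (((vc X E N (x N) b i : ℤ) : ℝ) - N * a b i) / √N =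
        ∑ j, ((x N j : ℝ) - N * τ j) / √N * (E j b i : ℝ) - (X.a0 b i : ℝ) / √N := by
      intro N
      rw [hvc, e2, sub_div, sum_div]
      congr 1
      exact sum_congr rfl fun j _ => by ring
    have h6 : Tendsto (fun N : ℕ => ∑ j, ((x N j : ℝ) - N * τ j) / √N * (E j b i : ℝ) -
        (X.a0 b i : ℝ) / √N) atTop (𝓝 (∑ j, u j * (E j b i : ℝ) - 0)) := by
      refine Tendsto.sub (tendsto_finsetSum _ fun j _ => (hx j).mul_const _) ?_
      have hsq : Tendsto (fun N : ℕ => √(N : ℝ)) atTop atTop :=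
        Real.tendsto_sqrt_atTop.comp tendsto_natCast_atTop_atTop
      exact hsq.const_div_atTop _
    rw [sub_zero, ← e2] at h6
    exact h6.congr fun N => (h5 N).symm

/-- the weight of the twist regions -/
noncomputable def zw (N : ℕ) (v : Fin c → Fin 6 → ℤ) : ℝ :=
  ∏ b, (((n1 (v b) - n2 (v b) : ℤ) : ℝ) *
    Real.sin (Real.pi * ((n1 (v b) - n2 (v b) : ℤ) : ℝ) / N))

lemma zdiff {x : Fin 6 → ℤ} {y : Fin 6 → ℝ} (N : ℕ) (h1 : n1 y = 1 / 2) (h2 : n2 y = 1 / 2) :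
    ((n1 x - n2 x : ℤ) : ℝ) = n1 (fun i => (x i : ℝ) - N * y i) - n2 (fun i => (x i : ℝ) - N * y i) := by
  unfold n1 n2 at *
  push_cast
  linear_combination (N : ℝ) * h1 - (N : ℝ) * h2

lemma zdiff_sq (y : Fin 6 → ℝ) : (n1 y - n2 y) ^ 2 ≤ 6 * ∑ i, y i ^ 2 := by
  rw [Fin.sum_univ_six]
  unfold n1 n2
  nlinarith [sq_nonneg (y 0 - y 1), sq_nonneg (y 0 - y 2), sq_nonneg (y 0 + y 3), sq_nonneg (y 0 + y 4),
    sq_nonneg (y 0 + y 5), sq_nonneg (y 1 - y 2), sq_nonneg (y 1 + y 3), sq_nonneg (y 1 + y 4),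
    sq_nonneg (y 1 + y 5), sq_nonneg (y 2 + y 3), sq_nonneg (y 2 + y 4), sq_nonneg (y 2 + y 5),
    sq_nonneg (y 3 - y 4), sq_nonneg (y 3 - y 5), sq_nonneg (y 4 - y 5)]

lemma zw_bound {κ : ℝ} (hκ : 0 < κ) : ∃ C : ℝ, 0 < C ∧ ∀ (N : ℕ), 1 ≤ N → ∀ (a : Fin c → Fin 6 → ℝ)
    (a' : Fin c → Fin 6 → ℤ), (∀ b, n1 (a b) = 1 / 2) → (∀ b, n2 (a b) = 1 / 2) →
    |zw N a'| ≤ C * Real.exp (κ * ((∑ b, ∑ i, ((a' b i : ℝ) - N * a b i) ^ 2) / N)) := by
  refine ⟨(6 * Real.pi / κ) ^ c * c.factorial, by positivity, fun N hN a a' h1 h2 => ?_⟩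
  have hN0 : (0 : ℝ) < N := by exact_mod_cast hN
  set Q : ℝ := ∑ b, ∑ i, ((a' b i : ℝ) - N * a b i) ^ 2 with hQ
  have hQ0 : 0 ≤ Q := sum_nonneg fun b _ => sum_nonneg fun i _ => sq_nonneg _
  have hb : ∀ b, |((n1 (a' b) - n2 (a' b) : ℤ) : ℝ) *
      Real.sin (Real.pi * ((n1 (a' b) - n2 (a' b) : ℤ) : ℝ) / N)| ≤ 6 * Real.pi * Q / N := by
    intro b
    have e1 : ((n1 (a' b) - n2 (a' b) : ℤ) : ℝ) ^ 2 ≤ 6 * Q := by
      rw [zdiff N (h1 b) (h2 b)]
      refine (zdiff_sq _).trans (mul_le_mul_of_nonneg_left ?_ (by norm_num))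
      exact single_le_sum (f := fun b => ∑ i, ((a' b i : ℝ) - N * a b i) ^ 2)
        (fun b _ => sum_nonneg fun i _ => sq_nonneg _) (mem_univ b)
    have e2 : |Real.sin (Real.pi * ((n1 (a' b) - n2 (a' b) : ℤ) : ℝ) / N)| ≤
        |Real.pi * ((n1 (a' b) - n2 (a' b) : ℤ) : ℝ) / N| := Real.abs_sin_le_abs
    rw [abs_mul]
    calc |((n1 (a' b) - n2 (a' b) : ℤ) : ℝ)| *
        |Real.sin (Real.pi * ((n1 (a' b) - n2 (a' b) : ℤ) : ℝ) / N)|
        ≤ |((n1 (a' b) - n2 (a' b) : ℤ) : ℝ)| * |Real.pi * ((n1 (a' b) - n2 (a' b) : ℤ) : ℝ) / N| :=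
          mul_le_mul_of_nonneg_left e2 (abs_nonneg _)
      _ = Real.pi * ((n1 (a' b) - n2 (a' b) : ℤ) : ℝ) ^ 2 / N := by
          rw [abs_div, abs_mul, abs_of_pos Real.pi_pos, abs_of_pos hN0, ← sq_abs]
          ring
      _ ≤ Real.pi * (6 * Q) / N := by
          gcongr
      _ = _ := by ring
  calc |zw N a'| = ∏ b, |((n1 (a' b) - n2 (a' b) : ℤ) : ℝ) *
        Real.sin (Real.pi * ((n1 (a' b) - n2 (a' b) : ℤ) : ℝ) / N)| := by
        unfold zw
        rw [abs_prod]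
    _ ≤ ∏ _b : Fin c, (6 * Real.pi * Q / N) := prod_le_prod (fun b _ => abs_nonneg _) fun b _ => hb b
    _ = (6 * Real.pi / κ) ^ c * (κ * (Q / N)) ^ c := by
        rw [prod_const, card_univ, Fintype.card_fin, ← mul_pow]
        congr 1
        field_simp
    _ ≤ (6 * Real.pi / κ) ^ c * (c.factorial * Real.exp (κ * (Q / N))) := by
        refine mul_le_mul_of_nonneg_left ?_ (by positivity)
        have h3 := Real.pow_div_factorial_le_exp (κ * (Q / N)) (by positivity) c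
        rw [div_le_iff₀ (by positivity)] at h3
        linarith
    _ = _ := by ring

lemma zw_lim {a x : Fin c → Fin 6 → ℝ} {a' : ℕ → Fin c → Fin 6 → ℤ}
    (h1 : ∀ b, n1 (a b) = 1 / 2) (h2 : ∀ b, n2 (a b) = 1 / 2)
    (hx : ∀ b i, Tendsto (fun N : ℕ => ((a' N b i : ℝ) - N * a b i) / √N) atTop (𝓝 (x b i))) :
    Tendsto (fun N : ℕ => zw N (a' N)) atTop
      (𝓝 (∏ b, (Real.pi * (n1 (x b) - n2 (x b)) ^ 2))) := by
  unfold zw
  refine tendsto_finsetProd _ fun b _ => ?_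
  have hz : Tendsto (fun N : ℕ => ((n1 (a' N b) - n2 (a' N b) : ℤ) : ℝ) / √N) atTop
      (𝓝 (n1 (x b) - n2 (x b))) := by
    have key : ∀ N : ℕ, ((n1 (a' N b) - n2 (a' N b) : ℤ) : ℝ) / √N =
        n1 (fun i => ((a' N b i : ℝ) - N * a b i) / √N) -
          n2 (fun i => ((a' N b i : ℝ) - N * a b i) / √N) := by
      intro N
      rw [zdiff N (h1 b) (h2 b)]
      unfold n1 n2
      ring
    simp only [key]
    unfold n1 n2
    exact (((hx b 0).add (hx b 1)).add (hx b 2)).sub (((hx b 3).add (hx b 4)).add (hx b 5))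
  have hsq : Tendsto (fun N : ℕ => √(N : ℝ)) atTop atTop :=
    Real.tendsto_sqrt_atTop.comp tendsto_natCast_atTop_atTop
  have hy : Tendsto (fun N : ℕ => Real.pi * ((n1 (a' N b) - n2 (a' N b) : ℤ) : ℝ) / N) atTop (𝓝 0) := by
    have h3 : Tendsto (fun N : ℕ => Real.pi * (((n1 (a' N b) - n2 (a' N b) : ℤ) : ℝ) / √N) / √N) atTop
        (𝓝 0) := (hz.const_mul Real.pi).div_atTop hsq
    refine h3.congr' ?_
    filter_upwards [eventually_gt_atTop 0] with N hN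
    have hN0 : (0 : ℝ) < N := by exact_mod_cast hN
    have hs : √(N : ℝ) * √(N : ℝ) = N := Real.mul_self_sqrt hN0.le
    rw [mul_div_assoc, mul_div_assoc, div_div, hs]
  have hsinc : Tendsto (fun N : ℕ => Real.sinc (Real.pi * ((n1 (a' N b) - n2 (a' N b) : ℤ) : ℝ) / N))
      atTop (𝓝 1) := by
    have := (Real.continuous_sinc.tendsto 0).comp hy
    rwa [Real.sinc_zero] at this
  have h4 := ((hz.pow 2).const_mul Real.pi).mul hsinc
  rw [mul_one] at h4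
  refine h4.congr' ?_
  filter_upwards [eventually_gt_atTop 0] with N hN
  have hN0 : (0 : ℝ) < N := by exact_mod_cast hN
  have hs : √(N : ℝ) ^ 2 = N := Real.sq_sqrt hN0.le
  set z : ℝ := ((n1 (a' N b) - n2 (a' N b) : ℤ) : ℝ) with hzz
  have h5 : Real.sin (Real.pi * z / N) = (Real.pi * z / N) * Real.sinc (Real.pi * z / N) := by
    by_cases h0 : Real.pi * z / N = 0
    · rw [h0, Real.sin_zero, zero_mul]
    · rw [Real.sinc_of_ne_zero h0, mul_div_cancel₀ _ h0]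
  rw [h5, div_pow, hs]
  ring

end Pool.Agent.KS6_92.Wt
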