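import Pool.Agent.KS6_92.Wt8

/-!
# Rigidity of families of exponential sums
-/

set_option autoImplicit false

namespace Pool.Agent.KS6_92.Wt

open Finset Filter Topology
open Pool.Agent.H927R2.J.SanYB (Dn dense_Dn)
open Pool.Agent.H550R3.Jones (br)

/-! ### ultrafilters -/

variable {U : Ultrafilter ℕ}

lemma ultra_const {g : ℕ → ℤ} {A B : ℤ} (h : ∀ᶠ l in (U : Filter ℕ), A ≤ g l ∧ g l ≤ B) :
    ∃ q, ∀ᶠ l in (U : Filter ℕ), g l = q := by
  have h1 : ∀ᶠ l in (U : Filter ℕ), ∃ q ∈ (Set.Icc A B), g l = q := by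
    filter_upwards [h] with l hl
    exact ⟨g l, hl, rfl⟩
  rw [Ultrafilter.eventually_exists_mem_iff (Set.finite_Icc A B)] at h1
  obtain ⟨q, -, h2⟩ := h1
  exact ⟨q, h2⟩

lemma ultra_fin {α : Type} [Finite α] (g : ℕ → α) : ∃ q, ∀ᶠ l in (U : Filter ℕ), g l = q := by
  have h1 : ∀ᶠ l in (U : Filter ℕ), ∃ q ∈ (Set.univ : Set α), g l = q :=
    Eventually.of_forall fun l => ⟨g l, Set.mem_univ _, rfl⟩
  rw [Ultrafilter.eventually_exists_mem_iff Set.finite_univ] at h1
  obtain ⟨q, -, h2⟩ := h1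
  exact ⟨q, h2⟩

lemma ultra_top {g : ℕ → ℤ} (h0 : ∀ᶠ l in (U : Filter ℕ), 0 ≤ g l)
    (h : ∀ q, ¬ ∀ᶠ l in (U : Filter ℕ), g l = q) : Tendsto g (U : Filter ℕ) atTop := by
  rw [tendsto_atTop]
  intro B
  by_contra hcon
  have h1 : ∀ᶠ l in (U : Filter ℕ), ¬ B ≤ g l := Ultrafilter.eventually_not.2 hcon
  obtain ⟨q, hq⟩ := ultra_const (U := U) (g := g) (A := 0) (B := B) (by
    filter_upwards [h0, h1] with l a b
    exact ⟨a, by omega⟩)
  exact h q hq

/-- a converging power is eventually constant -/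
lemma pow_const {ρ L : ℝ} (hρ : 1 < ρ) (hL : 0 < L) {b : ℕ → ℤ}
    (h : Tendsto (fun l => ρ ^ b l) (U : Filter ℕ) (𝓝 L)) : ∃ q, ∀ᶠ l in (U : Filter ℕ), b l = q := by
  have h1 : Tendsto (fun l => Real.log (ρ ^ b l)) (U : Filter ℕ) (𝓝 (Real.log L)) :=
    (Real.continuousAt_log hL.ne').tendsto.comp h
  simp only [Real.log_zpow] at h1
  have hlog : 0 < Real.log ρ := Real.log_pos hρ
  have h2 : Tendsto (fun l => (b l : ℝ)) (U : Filter ℕ) (𝓝 (Real.log L / Real.log ρ)) := by
    have := h1.div_const (Real.log ρ)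
    simpa only [mul_div_cancel_right₀ _ hlog.ne'] using this
  set x := Real.log L / Real.log ρ
  refine ultra_const (A := ⌊x⌋ - 1) (B := ⌈x⌉ + 1) ?_
  filter_upwards [(tendsto_order.1 h2).1 (x - 1) (by linarith),
    (tendsto_order.1 h2).2 (x + 1) (by linarith)] with l a b'
  constructor
  · have h3 : ((⌊x⌋ - 1 : ℤ) : ℝ) < b l := by
      push_cast
      have := Int.floor_le x
      linarith
    have : ⌊x⌋ - 1 < b l := by exact_mod_cast h3
    omega
  · have h3 : (b l : ℝ) < ((⌈x⌉ + 1 : ℤ) : ℝ) := by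
      push_cast
      have := Int.le_ceil x
      linarith
    have : b l < ⌈x⌉ + 1 := by exact_mod_cast h3
    omega

lemma zpow_top {ρ : ℝ} (h : 1 < ρ) : Tendsto (fun z : ℤ => ρ ^ z) atTop atTop := by
  rw [tendsto_atTop]
  intro B
  obtain ⟨n, hn⟩ := pow_unbounded_of_one_lt B h
  filter_upwards [eventually_ge_atTop (n : ℤ)] with z hz
  calc B ≤ ρ ^ n := hn.le
    _ = ρ ^ (n : ℤ) := (zpow_natCast _ _).symm
    _ ≤ ρ ^ z := zpow_le_zpow_right₀ h.le hz

/-- the dominant term -/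
lemma half {κ : Type} [DecidableEq κ] (A : Finset κ) (hA : A.Nonempty) (a : κ → ℕ → ℤ) (P : κ → ℂ)
    (hP : ∀ C ∈ A, P C ≠ 0) {w : ℂ} (hw : 1 < ‖w‖) (b : ℕ → ℤ) (R : ℂ)
    (h : ∀ᶠ l in (U : Filter ℕ), ∑ C ∈ A, w ^ a C l * P C = w ^ b l * R)
    (hd : ∀ C ∈ A, ∀ C' ∈ A, C ≠ C' → ∀ q, ¬ ∀ᶠ l in (U : Filter ℕ), a C l - a C' l = q) :
    ∃ C ∈ A, (∀ C' ∈ A, ∀ᶠ l in (U : Filter ℕ), a C' l ≤ a C l) ∧
      ∃ q, ∀ᶠ l in (U : Filter ℕ), b l - a C l = q := by
  classical
  have hw0 : w ≠ 0 := by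
    rintro rfl
    simp at hw
    linarith
  -- the index of the maximum
  have h1 : ∀ l, ∃ C ∈ A, ∀ C' ∈ A, a C' l ≤ a C l := fun l => A.exists_max_image (fun C => a C l) hA
  choose M hM hmax using h1
  obtain ⟨⟨C, hC⟩, hq⟩ := ultra_fin (U := U) (fun l => (⟨M l, hM l⟩ : A))
  have hq' : ∀ᶠ l in (U : Filter ℕ), M l = C := by
    filter_upwards [hq] with l hl
    exact congrArg Subtype.val hl
  have hle : ∀ C' ∈ A, ∀ᶠ l in (U : Filter ℕ), a C' l ≤ a C l := by
    intro C' hC'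
    filter_upwards [hq'] with l hl
    rw [← hl]
    exact hmax l C' hC'
  refine ⟨C, hC, hle, ?_⟩
  -- the limit
  have hlim : Tendsto (fun l => w ^ (b l - a C l) * R) (U : Filter ℕ) (𝓝 (P C)) := by
    have e : ∀ᶠ l in (U : Filter ℕ), ∑ C' ∈ A, w ^ (a C' l - a C l) * P C' =
        w ^ (b l - a C l) * R := by
      filter_upwards [h] with l hl
      have h2 : ∀ n : ℤ, w ^ (n - a C l) = w ^ n * w ^ (-a C l) := fun n => by
        rw [← zpow_add₀ hw0, sub_eq_add_neg]
      rw [h2, mul_right_comm, ← hl, sum_mul]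
      refine sum_congr rfl fun C' _ => ?_
      rw [h2]
      ring
    refine Tendsto.congr' e ?_
    have h3 : Tendsto (fun l => ∑ C' ∈ A.erase C, w ^ (a C' l - a C l) * P C') (U : Filter ℕ)
        (𝓝 (∑ C' ∈ A.erase C, (0 : ℂ))) := by
      refine tendsto_finsetSum _ fun C' hC' => ?_
      obtain ⟨hne, hC'A⟩ := mem_erase.1 hC'
      have h4 : Tendsto (fun l => a C l - a C' l) (U : Filter ℕ) atTop := by
        refine ultra_top ?_ (hd C hC C' hC'A (Ne.symm hne))
        filter_upwards [hle C' hC'A] with l hl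
        omega
      have h5 : Tendsto (fun l => ‖w‖ ^ (a C l - a C' l)) (U : Filter ℕ) atTop :=
        (zpow_top hw).comp h4
      have h6 : Tendsto (fun l => w ^ (a C' l - a C l)) (U : Filter ℕ) (𝓝 0) := by
        rw [tendsto_zero_iff_norm_tendsto_zero]
        refine (tendsto_inv_atTop_zero.comp h5).congr fun l => ?_
        simp only [Function.comp]
        rw [norm_zpow, ← zpow_neg]
        congr 1
        ring
      have := h6.mul_const (P C')
      rwa [zero_mul] at this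
    rw [sum_const_zero] at h3
    have h7 : ∀ l, ∑ C' ∈ A, w ^ (a C' l - a C l) * P C' =
        ∑ C' ∈ A.erase C, w ^ (a C' l - a C l) * P C' + P C := by
      intro l
      rw [← sum_erase_add A _ hC, sub_self, zpow_zero, one_mul]
    simp only [h7]
    have := h3.add_const (P C)
    rwa [zero_add] at this
  have hR : R ≠ 0 := by
    rintro rfl
    simp only [mul_zero] at hlim
    exact hP C hC (tendsto_nhds_unique tendsto_const_nhds hlim).symm
  have hn : Tendsto (fun l => ‖w‖ ^ (b l - a C l)) (U : Filter ℕ) (𝓝 (‖P C‖ / ‖R‖)) := by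
    have h8 := (hlim.norm).div_const ‖R‖
    refine h8.congr fun l => ?_
    rw [norm_mul, norm_zpow, mul_div_cancel_right₀ _ (norm_ne_zero_iff.2 hR)]
  exact pow_const hw (div_pos (norm_pos_iff.2 (hP C hC)) (norm_pos_iff.2 hR)) hn

/-! ### real generic points -/

lemma real_Dn {t : ℝ} (h0 : 0 < t) (h1 : t ≠ 1) : ((t : ℝ) : ℂ) ∈ Dn := by
  refine ⟨by exact_mod_cast h0.ne', fun n hn => ?_⟩
  unfold Pool.Agent.H550R3.Jones.br
  have e : ((t : ℝ) : ℂ) ^ (n : ℤ) - ((t : ℝ) : ℂ) ^ (-(n : ℤ)) = ((t ^ (n : ℤ) - t ^ (-(n : ℤ)) : ℝ) : ℂ) := by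
    push_cast
    rfl
  rw [e]
  have h2 : t ^ (n : ℤ) - t ^ (-(n : ℤ)) ≠ 0 := by
    intro h3
    have h4 : t ^ (n : ℤ) = t ^ (-(n : ℤ)) := by linarith
    have h5 := zpow_right_injective₀ h0 h1 h4
    omega
  exact_mod_cast h2

lemma pick_gt {S : Set ℂ} (hS : S.Finite) : ∃ v ∈ Dn, 1 < ‖v‖ ∧ v ∉ S := by
  have h1 : ((fun t : ℝ => (t : ℂ)) '' Set.Ioi 1).Infinite :=
    (Set.infinite_image_iff (Complex.ofReal_injective.injOn)).2 (Set.Ioi_infinite 1)
  obtain ⟨v, hv, hvS⟩ := (h1.sdiff hS).nonempty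
  obtain ⟨t, ht, rfl⟩ := hv
  have ht' : 1 < t := ht
  refine ⟨_, real_Dn (by linarith) ht'.ne', ?_, hvS⟩
  simp only [Complex.norm_real, Real.norm_eq_abs, abs_of_pos (by linarith : 0 < t)]
  exact ht'

lemma pick_lt {S : Set ℂ} (hS : S.Finite) : ∃ v ∈ Dn, ‖v‖ < 1 ∧ v ∉ S := by
  have h1 : ((fun t : ℝ => (t : ℂ)) '' Set.Ioo 0 1).Infinite :=
    (Set.infinite_image_iff (Complex.ofReal_injective.injOn)).2 (Set.Ioo_infinite (by norm_num))
  obtain ⟨v, hv, hvS⟩ := (h1.sdiff hS).nonempty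
  obtain ⟨t, ht, rfl⟩ := hv
  have ht' : 0 < t ∧ t < 1 := ht
  refine ⟨_, real_Dn ht'.1 ht'.2.ne, ?_, hvS⟩
  simp only [Complex.norm_real, Real.norm_eq_abs, abs_of_pos ht'.1]
  exact ht'.2

/-! ### the rigidity -/

/-- the relations of a sequence -/
def rel {c : ℕ} (U : Ultrafilter ℕ) (n : ℕ → Fin c → ℤ) : Submodule ℤ (Fin c → ℤ) where
  carrier := {x | ∃ q : ℤ, ∀ᶠ l in (U : Filter ℕ), ∑ s, x s * n l s = q}
  zero_mem' := ⟨0, Eventually.of_forall fun l => by simp⟩
  add_mem' := by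
    rintro x y ⟨q, hq⟩ ⟨q', hq'⟩
    refine ⟨q + q', ?_⟩
    filter_upwards [hq, hq'] with l h1 h2
    rw [← h1, ← h2, ← sum_add_distrib]
    refine sum_congr rfl fun s _ => ?_
    rw [Pi.add_apply]
    ring
  smul_mem' := by
    rintro r x ⟨q, hq⟩
    refine ⟨r * q, ?_⟩
    filter_upwards [hq] with l h1
    rw [← h1, mul_sum]
    refine sum_congr rfl fun s _ => ?_
    rw [Pi.smul_apply, smul_eq_mul]
    ring

lemma rel_mem {c : ℕ} {n : ℕ → Fin c → ℤ} {x : Fin c → ℤ} :
    x ∈ rel U n ↔ ∃ q : ℤ, ∀ᶠ l in (U : Filter ℕ), ∑ s, x s * n l s = q := Iff.rfl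

/-- **rigidity.**  For a sequence `n` of integer vectors whose coordinates tend to infinity there are
`r` and `ν`, `ν` without zero coordinate, such that all exponential sums `F` with rational
coefficients which are, along the sequence, equal up to powers of `v`, are equal up to powers of `v`
along the line `r + m ν`. -/
theorem rigid {c : ℕ} (n : ℕ → Fin c → ℤ) (hn : ∀ s, Tendsto (fun l => |n l s|) atTop atTop) :
    ∃ r ν : Fin c → ℤ, (∀ s, ν s ≠ 0) ∧
    ∀ (ι : Type) [Fintype ι] (α : ι → Fin c → ℤ) (ε : ι → Fin c → ℂ)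
      (_ : ∀ k s, ε k s * ε k s = 1) (S : ι → ℂ → ℂ) (_ : ∀ k, Rat (S k))
      (F : (Fin c → ℤ) → ℂ → ℂ)
      (_ : ∀ n : Fin c → ℤ, ∀ v ∈ Dn, F n v = ∑ k, (∏ s, ε k s ^ (n s).natAbs) *
        v ^ (∑ s, α k s * n s) * S k v)
      (_ : ∀ l l', ∃ a : ℤ, ∀ v ∈ Dn, F (n l) v = v ^ a * F (n l') v),
      ∃ e : ℤ, ∀ m : ℕ, ∀ v ∈ Dn, F (r + (m : ℤ) • ν) v = v ^ ((m : ℤ) * e) * F r v := by
  classical
  let U : Ultrafilter ℕ := hyperfilter ℕ
  have hU : (U : Filter ℕ) ≤ atTop := Nat.hyperfilter_le_atTop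
  obtain ⟨G, hG⟩ := (IsNoetherian.noetherian (rel U n) : (rel U n).FG)
  -- the large set
  have hGm : ∀ x ∈ G, ∃ q : ℤ, ∀ᶠ l in (U : Filter ℕ), ∑ s, x s * n l s = q := by
    intro x hx
    exact rel_mem.1 (by rw [← hG]; exact Submodule.subset_span hx)
  choose! q hq using hGm
  have hGe : ∀ᶠ l in (U : Filter ℕ), ∀ x ∈ G, ∑ s, x s * n l s = q x :=
    (Finset.eventually_all G).2 fun x hx => hq x hx
  obtain ⟨pr, hpr⟩ := ultra_fin (U := U) (fun l => fun s => decide (Even (n l s)))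
  have hE : ∀ᶠ l in (U : Filter ℕ), (∀ x ∈ G, ∑ s, x s * n l s = q x) ∧
      (fun s => decide (Even (n l s))) = pr := hGe.and hpr
  obtain ⟨j, hj⟩ := hE.exists
  have hbig : ∀ᶠ l in (U : Filter ℕ), ∀ s, |n j s| < |n l s| := by
    refine eventually_all.2 fun s => ?_
    exact ((hn s).mono_left hU).eventually_gt_atTop _
  obtain ⟨i, hi⟩ := (hE.and hbig).exists
  refine ⟨n j, n i - n j, ?_, ?_⟩
  · intro s h0
    have h1 : n i s = n j s := by
      have : n i s - n j s = 0 := h0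
      omega
    have h2 := hi.2 s
    rw [h1] at h2
    exact lt_irrefl _ h2
  -- relations are constant on the large set
  have hconst : ∀ l, (∀ x ∈ G, ∑ s, x s * n l s = q x) → ∀ x ∈ rel U n,
      ∑ s, x s * n l s = ∑ s, x s * n j s := by
    intro l hl x hx
    rw [← hG] at hx
    refine Submodule.span_induction (p := fun x _ => ∑ s, x s * n l s = ∑ s, x s * n j s)
      ?_ ?_ ?_ ?_ hx
    · intro x hx
      rw [hl x hx, hj.1 x hx]
    · simp
    · intro x y _ _ h1 h2
      simp only [Pi.add_apply, add_mul, sum_add_distrib, h1, h2]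
    · intro r x _ h1
      simp only [Pi.smul_apply, smul_eq_mul, mul_assoc, ← mul_sum, h1]
  have hpar : ∀ l, (fun s => decide (Even (n l s))) = pr → ∀ s, (Even (n l s) ↔ Even (n j s)) := by
    intro l hl s
    have h1 := congrFun (hl.trans hj.2.symm) s
    simpa using h1
  intro ι _ α ε hε S hS F hF hsame
  -- signs
  have hsgn : ∀ (k : ι) (s : Fin c) (x y : ℤ), (Even x ↔ Even y) →
      ε k s ^ x.natAbs = ε k s ^ y.natAbs := by
    intro k s x y hxy
    have key : ∀ z : ℕ, ε k s ^ z = if Even z then 1 else ε k s := by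
      intro z
      rcases Nat.even_or_odd z with h | h
      · rw [if_pos h]
        obtain ⟨w, hw⟩ := h
        rw [hw, ← two_mul, pow_mul, pow_two, hε, one_pow]
      · rw [if_neg (Nat.not_even_iff_odd.2 h)]
        obtain ⟨w, hw⟩ := h
        rw [hw, pow_succ, pow_mul, pow_two, hε, one_pow, one_mul]
    rw [key, key]
    have h1 : Even x.natAbs ↔ Even y.natAbs := by rw [Int.natAbs_even, Int.natAbs_even, hxy]
    by_cases h2 : Even x.natAbs
    · rw [if_pos h2, if_pos (h1.1 h2)]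
    · rw [if_neg h2, if_neg fun h => h2 (h1.2 h)]
  -- clusters
  let st : Setoid ι := 
    { r := fun k k' => α k - α k' ∈ rel U n
      iseqv := 
        { refl := fun k => by rw [sub_self]; exact (rel U n).zero_mem
          symm := fun {k k'} h => by
            have := (rel U n).neg_mem h
            rwa [neg_sub] at this
          trans := fun {k k' k''} h h' => by
            have := (rel U n).add_mem h h'
            rwa [sub_add_sub_cancel] at this } }
  let Q := Quotient st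
  have hout : ∀ k : ι, α k - α ((Quotient.mk st k).out) ∈ rel U n := fun k =>
    st.symm (Quotient.exact (Quotient.out_eq (Quotient.mk st k)))
  let p : Q → ℂ → ℂ := fun C v => ∑ k ∈ univ.filter (fun k => Quotient.mk st k = C),
    (∏ s, ε k s ^ (n j s).natAbs) * v ^ (∑ s, (α k s - α C.out s) * n j s) * S k v
  have hpR : ∀ C, Rat (p C) := fun C =>
    Rat.sum _ _ fun k _ => ((Rat.const _).mul (Rat.zpow _)).mul (hS k)
  -- the sums in terms of the clusters
  have hFC : ∀ x : Fin c → ℤ, (∀ s, (Even (x s) ↔ Even (n j s))) →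
      (∀ y ∈ rel U n, ∑ s, y s * x s = ∑ s, y s * n j s) → ∀ v ∈ Dn,
      F x v = ∑ C : Q, v ^ (∑ s, α C.out s * x s) * p C v := by
    intro x hx hx' v hv
    rw [hF x v hv, ← sum_fiberwise univ (fun k => Quotient.mk st k)]
    refine sum_congr rfl fun C _ => ?_
    rw [mul_sum]
    refine sum_congr rfl fun k hk => ?_
    have hkC : Quotient.mk st k = C := (mem_filter.1 hk).2
    have h1 : ∏ s, ε k s ^ (x s).natAbs = ∏ s, ε k s ^ (n j s).natAbs :=
      prod_congr rfl fun s _ => hsgn k s _ _ (hx s)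
    have h2 : ∑ s, α k s * x s = ∑ s, α C.out s * x s + ∑ s, (α k s - α C.out s) * n j s := by
      have h3 := hx' _ (hout k)
      rw [hkC] at h3
      simp only [Pi.sub_apply] at h3
      rw [← h3, ← sum_add_distrib]
      refine sum_congr rfl fun s _ => ?_
      ring
    rw [h1, h2, zpow_add₀ hv.1]
    ring
  -- only one cluster
  let A : Finset Q := univ.filter fun C => ¬ ∀ v ∈ Dn, p C v = 0
  have hFA : ∀ x : Fin c → ℤ, (∀ s, (Even (x s) ↔ Even (n j s))) →
      (∀ y ∈ rel U n, ∑ s, y s * x s = ∑ s, y s * n j s) → ∀ v ∈ Dn,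
      F x v = ∑ C ∈ A, v ^ (∑ s, α C.out s * x s) * p C v := by
    intro x hx hx' v hv
    rw [hFC x hx hx' v hv, sum_filter]
    refine sum_congr rfl fun C _ => ?_
    split_ifs with h
    · rw [h v hv, mul_zero]
    · rfl
  have hdist : ∀ C C' : Q, C ≠ C' → ∀ q, ¬ ∀ᶠ l in (U : Filter ℕ),
      ∑ s, α C.out s * n l s - ∑ s, α C'.out s * n l s = q := by
    intro C C' hne q hq'
    apply hne
    have h1 : α C.out - α C'.out ∈ rel U n := by
      rw [rel_mem]
      refine ⟨q, ?_⟩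
      filter_upwards [hq'] with l hl
      rw [← hl, ← sum_sub_distrib]
      refine sum_congr rfl fun s _ => ?_
      rw [Pi.sub_apply]
      ring
    have h2 : Quotient.mk st C.out = Quotient.mk st C'.out := Quotient.sound h1
    rwa [Quotient.out_eq, Quotient.out_eq] at h2
  have hbad : (⋃ C ∈ A, {v | v ∈ Dn ∧ p C v = 0}).Finite := by
    refine Set.Finite.biUnion A.finite_toSet fun C hC => ?_
    rcases (hpR C).zeros with h | h
    · exact absurd h (mem_filter.1 hC).2
    · exact h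
  have hone : ∀ C ∈ A, ∀ C' ∈ A, C = C' := by
    intro C1 hC1 C2 hC2
    by_contra hne
    have hA : A.Nonempty := ⟨C1, hC1⟩
    choose b hb using fun l => hsame l j
    have hP : ∀ v ∈ Dn, v ∉ (⋃ C ∈ A, {v | v ∈ Dn ∧ p C v = 0}) → ∀ C ∈ A, p C v ≠ 0 := by
      intro v hv hv' C hC h0
      apply hv'
      rw [Set.mem_iUnion₂]
      exact ⟨C, hC, hv, h0⟩
    obtain ⟨v1, hv1, hn1, hz1⟩ := pick_gt hbad
    obtain ⟨v2, hv2, hn2, hz2⟩ := pick_lt hbad
    obtain ⟨C, hC, hCmax, q1, hq1⟩ := half (U := U) A hA (fun C l => ∑ s, α C.out s * n l s)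
      (fun C => p C v1) (hP v1 hv1 hz1) hn1 b (F (n j) v1) (by
        filter_upwards [hE] with l hl
        rw [← hb l v1 hv1]
        exact (hFA (n l) (hpar l hl.2) (fun y hy => hconst l hl.1 y hy) v1 hv1).symm)
      (fun C _ C' _ h => hdist C C' h)
    have hv20 : v2 ≠ 0 := hv2.1
    obtain ⟨C', hC', hCmin, q2, hq2⟩ := half (U := U) A hA (fun C l => -∑ s, α C.out s * n l s)
      (fun C => p C v2) (hP v2 hv2 hz2) (w := v2⁻¹) (by
        rw [norm_inv]
        exact (one_lt_inv₀ (norm_pos_iff.2 hv20)).2 hn2) (fun l => -b l) (F (n j) v2) (by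
        filter_upwards [hE] with l hl
        have h1 : ∀ z : ℤ, v2⁻¹ ^ (-z) = v2 ^ z := fun z => by
          rw [inv_zpow', neg_neg]
        simp only [h1]
        rw [← hb l v2 hv2]
        exact (hFA (n l) (hpar l hl.2) (fun y hy => hconst l hl.1 y hy) v2 hv2).symm)
      (fun C hC C' hC' h q hq' => hdist C' C (Ne.symm h) q (by
        filter_upwards [hq'] with l hl
        rw [← hl]
        ring))
    have hCC : C = C' := by
      by_contra hne'
      refine hdist C C' hne' (-q2 - q1) ?_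
      filter_upwards [hq1, hq2] with l h1 h2
      rw [← h1, ← h2]
      ring
    have hall : ∀ D ∈ A, D = C := by
      intro D hD
      by_contra hne'
      refine hdist D C hne' 0 ?_
      filter_upwards [hCmax D hD, hCmin D hD] with l h1 h2
      rw [← hCC] at h2
      have h1' : ∑ s, α D.out s * n l s ≤ ∑ s, α C.out s * n l s := h1
      have h2' : -∑ s, α D.out s * n l s ≤ -∑ s, α C.out s * n l s := h2
      omega
    exact hne ((hall C1 hC1).trans (hall C2 hC2).symm)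
  -- the line
  have hline : ∀ m : ℕ, (∀ s, (Even ((n j + (m : ℤ) • (n i - n j)) s) ↔ Even (n j s))) ∧
      (∀ y ∈ rel U n, ∑ s, y s * (n j + (m : ℤ) • (n i - n j)) s = ∑ s, y s * n j s) := by
    intro m
    constructor
    · intro s
      have h1 := hpar i hi.1.2 s
      have h2 : Even ((m : ℤ) * (n i s - n j s)) := by
        refine Even.mul_left ?_ _
        rw [Int.even_sub]
        exact h1
      show Even (n j s + (m : ℤ) * (n i s - n j s)) ↔ _
      rw [Int.even_add]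
      tauto
    · intro y hy
      have h1 := hconst i hi.1.1 y hy
      have h2 : ∀ s, y s * (n j + (m : ℤ) • (n i - n j)) s =
          y s * n j s + (m : ℤ) * (y s * n i s - y s * n j s) := by
        intro s
        show y s * (n j s + (m : ℤ) * (n i s - n j s)) = _
        ring
      simp only [h2]
      rw [sum_add_distrib, ← mul_sum, sum_sub_distrib, h1, sub_self, mul_zero, add_zero]
  by_cases hA : A.Nonempty
  · obtain ⟨C0, hC0⟩ := hA
    have hA1 : A = {C0} := by
      ext C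
      rw [mem_singleton]
      exact ⟨fun h => hone C h C0 hC0, fun h => h ▸ hC0⟩
    refine ⟨∑ s, α C0.out s * (n i s - n j s), fun m v hv => ?_⟩
    have h0 := hline 0
    rw [hFA _ (hline m).1 (hline m).2 v hv, hFA (n j) (fun s => Iff.rfl) (fun y _ => rfl) v hv,
      hA1, sum_singleton, sum_singleton, ← mul_assoc, ← zpow_add₀ hv.1]
    congr 2
    rw [mul_sum, ← sum_add_distrib]
    refine sum_congr rfl fun s _ => ?_
    show α C0.out s * (n j s + (m : ℤ) * (n i s - n j s)) = _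
    ring
  · have hA1 : A = ∅ := not_nonempty_iff_eq_empty.1 hA
    refine ⟨0, fun m v hv => ?_⟩
    rw [hFA _ (hline m).1 (hline m).2 v hv, hFA (n j) (fun s => Iff.rfl) (fun y _ => rfl) v hv,
      hA1, sum_empty, sum_empty, mul_zero]

end Pool.Agent.KS6_92.Wt
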