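import Pool.Graph.R_pool_sql_team_seeded_3997aac3.Q261.KN.MP
import Pool.Graph.R_pool_sql_team_seeded_3997aac3.Q261.KN.PJ
import Pool.Graph.R_pool_sql_team_seeded_3997aac3.Q191.SH.Two
import Pool.Graph.R_seed8.H927R2.J.SanYB
import Pool.Graph.R_seed8.W613.QAT.Cont

/-!
# Powers of a crossing at generic points: rational functions
-/

set_option autoImplicit false

namespace Pool.Agent.KS6_92.Wt

open Finset Matrix
open Pool.Agent.H550R3.Jones (br brf Gen W irr WM tens)
open Pool.Agent.H927R2.J.SanYB (Dn dense_Dn)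
open Pool.Agent.Q191.FT (Cas lam Sc lam_ne)
open Pool.Agent.Q191.SH (gg sgn cx_sc)
open Pool.Agent.Q191.LB (cx sg)

/-- rational functions without poles at the generic points -/
def Rat (f : ℂ → ℂ) : Prop := ∃ p q : Polynomial ℂ, ∀ v ∈ Dn, q.eval v ≠ 0 ∧ f v * q.eval v = p.eval v

lemma Rat.congr {f g : ℂ → ℂ} (h : Rat f) (hfg : ∀ v ∈ Dn, f v = g v) : Rat g := by
  obtain ⟨p, q, h⟩ := h
  exact ⟨p, q, fun v hv => ⟨(h v hv).1, by rw [← hfg v hv]; exact (h v hv).2⟩⟩

lemma Rat.const (c : ℂ) : Rat fun _ => c :=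
  ⟨Polynomial.C c, 1, fun v _ => by simp⟩

lemma Rat.id : Rat fun v => v := ⟨Polynomial.X, 1, fun v _ => by simp⟩

lemma Rat.add {f g : ℂ → ℂ} (hf : Rat f) (hg : Rat g) : Rat fun v => f v + g v := by
  obtain ⟨p, q, h⟩ := hf
  obtain ⟨p', q', h'⟩ := hg
  refine ⟨p * q' + p' * q, q * q', fun v hv => ⟨?_, ?_⟩⟩
  · rw [Polynomial.eval_mul]
    exact mul_ne_zero (h v hv).1 (h' v hv).1
  · rw [Polynomial.eval_add, Polynomial.eval_mul, Polynomial.eval_mul, Polynomial.eval_mul,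
      ← (h v hv).2, ← (h' v hv).2]
    ring

lemma Rat.mul {f g : ℂ → ℂ} (hf : Rat f) (hg : Rat g) : Rat fun v => f v * g v := by
  obtain ⟨p, q, h⟩ := hf
  obtain ⟨p', q', h'⟩ := hg
  refine ⟨p * p', q * q', fun v hv => ⟨?_, ?_⟩⟩
  · rw [Polynomial.eval_mul]
    exact mul_ne_zero (h v hv).1 (h' v hv).1
  · rw [Polynomial.eval_mul, Polynomial.eval_mul, ← (h v hv).2, ← (h' v hv).2]
    ring

lemma Rat.neg {f : ℂ → ℂ} (hf : Rat f) : Rat fun v => -f v :=
  ((Rat.const (-1)).mul hf).congr fun v _ => by ring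

lemma Rat.sub {f g : ℂ → ℂ} (hf : Rat f) (hg : Rat g) : Rat fun v => f v - g v :=
  (hf.add hg.neg).congr fun v _ => by ring

lemma Rat.inv {f : ℂ → ℂ} (hf : Rat f) (h0 : ∀ v ∈ Dn, f v ≠ 0) : Rat fun v => (f v)⁻¹ := by
  obtain ⟨p, q, h⟩ := hf
  refine ⟨q, p, fun v hv => ?_⟩
  rw [← (h v hv).2]
  refine ⟨mul_ne_zero (h0 v hv) (h v hv).1, ?_⟩
  rw [← mul_assoc, inv_mul_cancel₀ (h0 v hv), one_mul]

lemma Rat.pow {f : ℂ → ℂ} (hf : Rat f) : ∀ n : ℕ, Rat fun v => f v ^ n
  | 0 => (Rat.const 1).congr fun v _ => (pow_zero _).symm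
  | n + 1 => ((hf.pow n).mul hf).congr fun v _ => (pow_succ _ _).symm

lemma Rat.zpow (n : ℤ) : Rat fun v => v ^ n := by
  have hi : Rat fun v => v⁻¹ := Rat.id.inv fun v hv => hv.1
  obtain ⟨m, hm | hm⟩ := n.eq_nat_or_neg
  · rw [hm]
    exact (Rat.id.pow m).congr fun v _ => (zpow_natCast v m).symm
  · rw [hm]
    refine (hi.pow m).congr fun v _ => ?_
    rw [_root_.zpow_neg, zpow_natCast, inv_pow]

lemma Rat.sum {ι : Type} (s : Finset ι) (f : ι → ℂ → ℂ) (h : ∀ i ∈ s, Rat (f i)) :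
    Rat fun v => ∑ i ∈ s, f i v := by
  classical
  induction s using Finset.induction_on with
  | empty => exact (Rat.const 0).congr fun v _ => by rw [sum_empty]
  | insert a s ha ih =>
    refine ((h a (mem_insert_self a s)).add (ih fun i hi => h i (mem_insert_of_mem hi))).congr
      fun v _ => ?_
    rw [sum_insert ha]

lemma Rat.prod {ι : Type} (s : Finset ι) (f : ι → ℂ → ℂ) (h : ∀ i ∈ s, Rat (f i)) :
    Rat fun v => ∏ i ∈ s, f i v := by
  classical
  induction s using Finset.induction_on with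
  | empty => exact (Rat.const 1).congr fun v _ => by rw [prod_empty]
  | insert a s ha ih =>
    refine ((h a (mem_insert_self a s)).mul (ih fun i hi => h i (mem_insert_of_mem hi))).congr
      fun v _ => ?_
    rw [prod_insert ha]

/-- a rational function vanishes or has finitely many zeros -/
lemma Rat.zeros {f : ℂ → ℂ} (hf : Rat f) : (∀ v ∈ Dn, f v = 0) ∨ {v | v ∈ Dn ∧ f v = 0}.Finite := by
  obtain ⟨p, q, h⟩ := hf
  by_cases hp : p = 0
  · left
    intro v hv
    have := (h v hv).2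
    rw [hp, Polynomial.eval_zero] at this
    exact (mul_eq_zero.1 this).resolve_right (h v hv).1
  · right
    refine (Polynomial.finite_setOfPred_isRoot hp).subset ?_
    rintro v ⟨hv, h0⟩
    show p.eval v = 0
    rw [← (h v hv).2, h0, zero_mul]

lemma Rat.br (n : ℤ) : Rat fun v => br v n := (Rat.zpow n).sub (Rat.zpow (-n))

lemma Rat.brf (n : ℕ) : Rat fun v => brf v n := Rat.prod _ _ fun j _ => Rat.br _

lemma Rat.lam (n : ℤ) : Rat fun v => lam v n := (Rat.zpow n).add (Rat.zpow (-n))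

lemma brf_ne {v : ℂ} (hv : v ∈ Dn) (n : ℕ) : brf v n ≠ 0 := by
  unfold Pool.Agent.H550R3.Jones.brf
  refine prod_ne_zero_iff.2 fun j _ => ?_
  have := hv.2 (j + 1) (Nat.succ_pos j)
  push_cast at this
  exact this

lemma gen_of' {v : ℂ} (h : v ∈ Dn) : ∃ u : ℂ, Gen u ∧ u ^ 2 = v := by
  obtain ⟨u, hu⟩ := IsAlgClosed.exists_pow_nat_eq v (n := 2) (by norm_num)
  refine ⟨u, ⟨?_, ?_⟩, hu⟩
  · rintro rfl
    apply h.1
    rw [← hu]
    norm_num
  · intro n hn
    rw [hu]
    exact h.2 n hn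

/-- matrices of rational functions -/
def MRat {ι : Type} (A : ℂ → Matrix ι ι ℂ) : Prop := ∀ i j, Rat fun v => A v i j

lemma MRat.mul {ι : Type} [Fintype ι] {A B : ℂ → Matrix ι ι ℂ} (hA : MRat A) (hB : MRat B) :
    MRat fun v => A v * B v := by
  intro i j
  refine (Rat.sum univ (fun k v => A v i k * B v k j) fun k _ => (hA i k).mul (hB k j)).congr
    fun v _ => ?_
  show _ = (A v * B v) i j
  rw [Matrix.mul_apply]

lemma MRat.add {ι : Type} {A B : ℂ → Matrix ι ι ℂ} (hA : MRat A) (hB : MRat B) :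
    MRat fun v => A v + B v := fun i j => (hA i j).add (hB i j)

lemma MRat.smul {ι : Type} {A : ℂ → Matrix ι ι ℂ} {f : ℂ → ℂ} (hA : MRat A) (hf : Rat f) :
    MRat fun v => f v • A v := fun i j => hf.mul (hA i j)

lemma MRat.one {ι : Type} [DecidableEq ι] : MRat fun _ : ℂ => (1 : Matrix ι ι ℂ) := by
  intro i j
  exact Rat.const _

lemma MRat.diag {ι : Type} [DecidableEq ι] {f : ι → ℂ → ℂ} (hf : ∀ i, Rat (f i)) :
    MRat fun v => (diagonal fun i => f i v : Matrix ι ι ℂ) := by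
  intro i j
  by_cases h : i = j
  · subst h
    exact (hf i).congr fun v _ => (diagonal_apply_eq (fun i => f i v) i).symm
  · exact (Rat.const 0).congr fun v _ => (diagonal_apply_ne (fun i => f i v) h).symm

lemma MRat.kron {ι κ : Type} {A : ℂ → Matrix ι ι ℂ} {B : ℂ → Matrix κ κ ℂ} (hA : MRat A)
    (hB : MRat B) : MRat fun v => kroneckerMap (· * ·) (A v) (B v) := by
  rintro ⟨i, k⟩ ⟨j, l⟩
  exact (hA i j).mul (hB k l)

lemma MRat_E (N : ℕ) : MRat fun v => (irr v N).E := by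
  intro i j
  show Rat fun v => if (j : ℕ) = i + 1 then Pool.Agent.H550R3.Jones.br v ((N : ℤ) - (j : ℕ)) else 0
  by_cases h : (j : ℕ) = i + 1
  · simp only [if_pos h]
    exact Rat.br _
  · simp only [if_neg h]
    exact Rat.const 0

lemma MRat_F (N : ℕ) : MRat fun v => (irr v N).F := by
  intro i j
  show Rat fun v => if (i : ℕ) = j + 1 then Pool.Agent.H550R3.Jones.br v ((i : ℕ) : ℤ) else 0
  by_cases h : (i : ℕ) = j + 1
  · simp only [if_pos h]
    exact Rat.br _
  · simp only [if_neg h]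
    exact Rat.const 0

lemma MRat_K (N : ℕ) (e : ℤ) : MRat fun v => (irr v N).K v e := by
  show MRat fun v => (diagonal fun i : Fin N => v ^ (e * ((N : ℤ) - 1 - 2 * (i : ℕ))) :
    Matrix (Fin N) (Fin N) ℂ)
  exact MRat.diag fun i => Rat.zpow _

lemma MRat_Cas (N : ℕ) : MRat fun v => Cas v (W v N) := by
  have h1 : MRat fun v => (W v N).E := by
    show MRat fun v => kroneckerMap (· * ·) (irr v N).E ((irr v N).K v 1) +
      kroneckerMap (· * ·) (1 : Matrix (Fin N) (Fin N) ℂ) (irr v N).E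
    exact ((MRat_E N).kron (MRat_K N 1)).add (MRat.one.kron (MRat_E N))
  have h2 : MRat fun v => (W v N).F := by
    show MRat fun v => kroneckerMap (· * ·) (irr v N).F (1 : Matrix (Fin N) (Fin N) ℂ) +
      kroneckerMap (· * ·) ((irr v N).K v (-1)) (irr v N).F
    exact ((MRat_F N).kron MRat.one).add ((MRat_K N (-1)).kron (MRat_F N))
  show MRat fun v => (W v N).F * (W v N).E + diagonal fun i => lam v ((W v N).wt i + 1)
  refine (h2.mul h1).add ?_
  have h3 : ∀ v i, (W v N).wt i = (N : ℤ) - 1 - 2 * (i.1 : ℕ) + ((N : ℤ) - 1 - 2 * (i.2 : ℕ)) :=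
    fun v i => rfl
  simp only [h3]
  exact MRat.diag fun i => Rat.lam _

/-- the projections of the Casimir operator -/
noncomputable def Pd (N d : ℕ) (v : ℂ) : Matrix (Fin N × Fin N) (Fin N × Fin N) ℂ :=
  Polynomial.aeval (Cas v (W v N))
    (Lagrange.basis (range N) (fun d : ℕ => lam v (2 * (d : ℤ) + 1)) d)

lemma MRat_Pd (N d : ℕ) : MRat (Pd N d) := by
  have key : ∀ s : Finset ℕ, d ∉ s → MRat fun v => Polynomial.aeval (Cas v (W v N))
      (∏ j ∈ s, Lagrange.basisDivisor (lam v (2 * (d : ℤ) + 1)) (lam v (2 * (j : ℤ) + 1))) := by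
    intro s
    induction s using Finset.induction_on with
    | empty =>
      intro _
      simp only [prod_empty, map_one]
      exact MRat.one
    | insert a s ha ih =>
      intro hd
      have hda : d ≠ a := fun h => hd (h ▸ mem_insert_self a s)
      have hne : ∀ v ∈ Dn, lam v (2 * (d : ℤ) + 1) - lam v (2 * (a : ℤ) + 1) ≠ 0 := by
        intro v hv
        obtain ⟨u, hu, rfl⟩ := gen_of' hv
        exact sub_ne_zero.2 (lam_ne hu (by omega) (by omega) ⟨(d : ℤ) - a, by ring⟩)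
      simp only [prod_insert ha, map_mul]
      refine MRat.mul ?_ (ih fun h => hd (mem_insert_of_mem h))
      have e : ∀ v, Polynomial.aeval (Cas v (W v N))
          (Lagrange.basisDivisor (lam v (2 * (d : ℤ) + 1)) (lam v (2 * (a : ℤ) + 1))) =
          (lam v (2 * (d : ℤ) + 1) - lam v (2 * (a : ℤ) + 1))⁻¹ •
            (Cas v (W v N) + (-lam v (2 * (a : ℤ) + 1)) • (1 : Matrix (Fin N × Fin N) _ ℂ)) := by
        intro v
        unfold Lagrange.basisDivisor
        rw [map_mul, map_sub, Polynomial.aeval_C, Polynomial.aeval_X, Polynomial.aeval_C,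
          Algebra.algebraMap_eq_smul_one, Algebra.algebraMap_eq_smul_one, smul_mul_assoc, one_mul,
          neg_smul, ← sub_eq_add_neg]
      simp only [e]
      refine MRat.smul ?_ (((Rat.lam _).sub (Rat.lam _)).inv hne)
      exact (MRat_Cas N).add (MRat.one.smul (Rat.lam _).neg)
  unfold Pd Lagrange.basis
  exact key ((range N).erase d) (notMem_erase d _)

/-- the exponent of an eigenvalue -/
def bet (N d : ℕ) : ℤ := ((2 * (d : ℤ) + 1) ^ 2 - 1) / 4 - ((N : ℤ) ^ 2 - 1)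

/-- the sign of an eigenvalue -/
noncomputable def eps (N d : ℕ) : ℂ := sgn N (2 * (d : ℤ) + 1)

lemma eps_sq (N d : ℕ) : eps N d * eps N d = 1 := Pool.Agent.Q191.SH.sgn_sq _ _

lemma gg_pow (N : ℕ) (σ : Bool) (m : ℕ) (v : ℂ) (hv : v ≠ 0) (d : ℕ) :
    gg N (sg σ) v (2 * (d : ℤ) + 1) ^ m = eps N d ^ m * v ^ (bet N d * (sg σ * m)) := by
  unfold gg eps bet
  rw [mul_pow]
  congr 1
  rw [← zpow_natCast, ← _root_.zpow_mul]
  congr 1
  ring

/-- **powers of a crossing at generic points** -/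
lemma cx_pow {N : ℕ} (hN : 0 < N) (σ : Bool) (m : ℕ) {v : ℂ} (hv : v ∈ Dn) :
    cx σ N v ^ m = ∑ d : Fin N, (eps N d ^ m * v ^ (bet N d * (sg σ * m))) • Pd N d v := by
  obtain ⟨u, hu, rfl⟩ := gen_of' hv
  have h1 := (cx_sc hu N σ).pow m
  have h2 := Pool.Agent.Q261.KN.task_PJ Pool.Agent.Q261.KN.task_MP N hN u hu _ _ h1
  rw [h2, Finset.sum_range]
  refine sum_congr rfl fun d _ => ?_
  rw [gg_pow N σ m (u ^ 2) hv.1]
  rfl

end Pool.Agent.KS6_92.Wt
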