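import Pool.Agent.KS6_92.Wt7
import Pool.Agent.KS6_92.Wt8

/-!
# The coloured Jones polynomials as functions of the numbers of crossings, at generic points
-/

set_option autoImplicit false

namespace Pool.Agent.KS6_92.Wt

open Finset Matrix
open Pool.Agent.H550R3.Jones (br brf Gen W irr crossP crossN)
open Pool.Agent.H927R2.J.SanYB (Dn dense_Dn)
open Pool.Agent.Q191.LB (cx sg)
open Pool.Agent.Q99.FAL (Pc Ty)
open Pool.Agent.Q99.HT (lnk elh wf kas)
open Pool.Agent.W709.QAT (Piece run)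

variable {N : ℕ}

/-- an operator on two strands -/
noncomputable def opT (T : Matrix (Fin N × Fin N) (Fin N × Fin N) ℂ) (i : ℕ)
    (f : List (Fin N) → ℂ) : List (Fin N) → ℂ := fun s => match s.drop i with
      | a :: b :: r => ∑ p : Fin N × Fin N, T (a, b) p * f (s.take i ++ p.1 :: p.2 :: r)
      | _ => 0

/-- a cup -/
noncomputable def cupT (v : ℂ) (i : ℕ) (f : List (Fin N) → ℂ) : List (Fin N) → ℂ :=
  fun s => match s.drop i with
      | a :: b :: r => Pool.Agent.W709.QAT.cup N v (a, b) * f (s.take i ++ r)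
      | _ => 0

lemma cup_act (v : ℂ) (i : ℕ) (f : List (Fin N) → ℂ) :
    Piece.act N v (Piece.cup i) f = cupT v i f := rfl

/-- a piece with an arbitrary operator as its crossings -/
noncomputable def step (v : ℂ) (P : Pc) (T : Matrix (Fin N × Fin N) (Fin N × Fin N) ℂ)
    (f : List (Fin N) → ℂ) : List (Fin N) → ℂ :=
  match P.ty with
  | .V => opT T P.p f
  | .H => (Piece.cap P.p).act N v (opT T (P.p + 1) ((Piece.cup (P.p + 2)).act N v f))
  | .YL => opT T P.p ((Piece.cup (P.p + 1)).act N v f)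
  | .YR => opT T (P.p + 1) ((Piece.cup P.p).act N v f)
  | .LL => (Piece.cap (P.p + 1)).act N v (opT T P.p f)
  | .LR => (Piece.cap P.p).act N v (opT T (P.p + 1) f)

/-- a diagram with arbitrary operators as crossings -/
noncomputable def runT (v : ℂ) : (D : List Pc) →
    (Fin D.length → Matrix (Fin N × Fin N) (Fin N × Fin N) ℂ) →
    (List (Fin N) → ℂ) → List (Fin N) → ℂ
  | [], _, f => f
  | P :: D, T, f => runT v D (fun k => T k.succ) (step v P (T 0) f)

lemma run_elh (v : ℂ) (P : Pc) (σ : Bool) (m : ℕ) (f : List (Fin N) → ℂ) :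
    run N v (elh P.ty P.p σ m) f = step v P (cx σ N v ^ m) f := by
  obtain ⟨T, p, σ', m'⟩ := P
  cases T <;> rfl

lemma run_lnk (v : ℂ) : ∀ (D : List Pc) (f : Fin D.length → Bool × ℕ) (g : List (Fin N) → ℂ),
    run N v (lnk D f) g = runT v D (fun k => cx (f k).1 N v ^ (f k).2) g
  | [], _, _ => rfl
  | P :: D, f, g => by
    have h : run N v (elh P.ty P.p (f 0).1 (f 0).2 ++ lnk D (fun k => f k.succ)) g =
        run N v (lnk D (fun k => f k.succ)) (run N v (elh P.ty P.p (f 0).1 (f 0).2) g) := by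
      unfold Pool.Agent.W709.QAT.run
      rw [List.foldl_append]
    show run N v (elh P.ty P.p (f 0).1 (f 0).2 ++ lnk D (fun k => f k.succ)) g = _
    rw [h, run_elh, run_lnk v D]
    rfl

/-! ### linearity -/

/-- linear operators -/
def Lin (Φ : (List (Fin N) → ℂ) → List (Fin N) → ℂ) : Prop :=
  ∀ (ι : Type) (t : Finset ι) (c : ι → ℂ) (g : ι → List (Fin N) → ℂ) (s : List (Fin N)),
    Φ (fun s => ∑ κ ∈ t, c κ * g κ s) s = ∑ κ ∈ t, c κ * Φ (g κ) s

lemma Lin.comp {Φ Ψ : (List (Fin N) → ℂ) → List (Fin N) → ℂ} (h : Lin Φ) (h' : Lin Ψ) :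
    Lin fun f => Φ (Ψ f) := by
  intro ι t c g s
  have e : Ψ (fun s => ∑ κ ∈ t, c κ * g κ s) = fun s => ∑ κ ∈ t, c κ * Ψ (g κ) s :=
    funext fun s => h' ι t c g s
  show Φ (Ψ (fun s => ∑ κ ∈ t, c κ * g κ s)) s = _
  rw [e, h ι t c _ s]

lemma lin_op (T : Matrix (Fin N × Fin N) (Fin N × Fin N) ℂ) (i : ℕ) : Lin (opT T i) := by
  intro ι t c g s
  unfold opT
  rcases s.drop i with _ | ⟨a, _ | ⟨b, r⟩⟩
  · simp
  · simp
  · simp only [mul_sum]
    rw [sum_comm]
    refine sum_congr rfl fun κ _ => sum_congr rfl fun p _ => ?_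
    ring

lemma lin_cup (v : ℂ) (i : ℕ) : Lin (Piece.act N v (Piece.cup i)) := by
  intro ι t c g s
  simp only [cup_act]
  unfold cupT
  rcases s.drop i with _ | ⟨a, _ | ⟨b, r⟩⟩
  · simp
  · simp
  · simp only [mul_sum]
    refine sum_congr rfl fun κ _ => ?_
    ring

lemma lin_cap (v : ℂ) (i : ℕ) : Lin (Piece.act N v (Piece.cap i)) := by
  intro ι t c g s
  unfold Pool.Agent.W709.QAT.Piece.act
  simp only [mul_sum]
  rw [sum_comm]
  refine sum_congr rfl fun κ _ => sum_congr rfl fun p _ => ?_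
  ring

lemma lin_step (v : ℂ) (P : Pc) (T : Matrix (Fin N × Fin N) (Fin N × Fin N) ℂ) :
    Lin (step v P T) := by
  obtain ⟨ty, p, σ', m'⟩ := P
  cases ty
  · exact lin_op T p
  · exact (lin_cap v p).comp ((lin_op T (p + 1)).comp (lin_cup v (p + 2)))
  · exact (lin_op T p).comp (lin_cup v (p + 1))
  · exact (lin_op T (p + 1)).comp (lin_cup v p)
  · exact (lin_cap v (p + 1)).comp (lin_op T p)
  · exact (lin_cap v p).comp (lin_op T (p + 1))

lemma lin_run (v : ℂ) : ∀ (D : List Pc)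
    (T : Fin D.length → Matrix (Fin N × Fin N) (Fin N × Fin N) ℂ), Lin (runT v D T)
  | [], _ => fun _ _ _ _ _ => rfl
  | P :: D, T => (lin_run v D fun k => T k.succ).comp (lin_step v P (T 0))

/-- linearity in the operator -/
lemma op_lin {ι : Type} (t : Finset ι) (c : ι → ℂ)
    (A : ι → Matrix (Fin N × Fin N) (Fin N × Fin N) ℂ) (i : ℕ) (f : List (Fin N) → ℂ) :
    opT (∑ d ∈ t, c d • A d) i f = fun s => ∑ d ∈ t, c d * opT (A d) i f s := by
  funext s
  unfold opT
  rcases s.drop i with _ | ⟨a, _ | ⟨b, r⟩⟩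
  · simp
  · simp
  · simp only [mul_sum]
    rw [sum_comm]
    refine sum_congr rfl fun p _ => ?_
    rw [Matrix.sum_apply, sum_mul]
    refine sum_congr rfl fun d _ => ?_
    rw [Matrix.smul_apply, smul_eq_mul]
    ring

lemma step_lin {ι : Type} (v : ℂ) (P : Pc) (t : Finset ι) (c : ι → ℂ)
    (A : ι → Matrix (Fin N × Fin N) (Fin N × Fin N) ℂ) (f : List (Fin N) → ℂ) :
    step v P (∑ d ∈ t, c d • A d) f = fun s => ∑ d ∈ t, c d * step v P (A d) f s := by
  obtain ⟨ty, p, σ', m'⟩ := P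
  cases ty
  · exact op_lin t c A p f
  · show Piece.act N v (Piece.cap p) (opT (∑ d ∈ t, c d • A d) (p + 1) _) = _
    rw [op_lin]
    exact funext fun s => lin_cap v p ι t c _ s
  · exact op_lin t c A p _
  · exact op_lin t c A (p + 1) _
  · show Piece.act N v (Piece.cap (p + 1)) (opT (∑ d ∈ t, c d • A d) p _) = _
    rw [op_lin]
    exact funext fun s => lin_cap v (p + 1) ι t c _ s
  · show Piece.act N v (Piece.cap p) (opT (∑ d ∈ t, c d • A d) (p + 1) _) = _
    rw [op_lin]
    exact funext fun s => lin_cap v p ι t c _ s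

/-- **the expansion** -/
lemma run_expand (v : ℂ) : ∀ (D : List Pc) (c : Fin D.length → Fin N → ℂ)
    (A : Fin D.length → Fin N → Matrix (Fin N × Fin N) (Fin N × Fin N) ℂ)
    (f : List (Fin N) → ℂ) (s : List (Fin N)),
    runT v D (fun k => ∑ d : Fin N, c k d • A k d) f s =
      ∑ κ : Fin D.length → Fin N, (∏ k, c k (κ k)) * runT v D (fun k => A k (κ k)) f s
  | [], c, A, f, s => by
    have : IsEmpty (Fin ([] : List Pc).length) := by
      show IsEmpty (Fin 0)
      infer_instance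
    have h : ∀ κ : Fin ([] : List Pc).length → Fin N,
        (∏ k, c k (κ k)) * runT v [] (fun k => A k (κ k)) f s = f s := by
      intro κ
      have e : (∏ k, c k (κ k)) = 1 := Finset.prod_of_isEmpty _
      rw [e, one_mul]
      rfl
    rw [sum_congr rfl fun κ _ => h κ, sum_const]
    have e2 : (univ : Finset (Fin ([] : List Pc).length → Fin N)).card = 1 := by
      rw [card_univ, Fintype.card_fun]
      simp
    rw [e2, one_smul]
    rfl
  | P :: D, c, A, f, s => by
    show runT v D (fun k => ∑ d : Fin N, c k.succ d • A k.succ d)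
      (step v P (∑ d : Fin N, c 0 d • A 0 d) f) s = _
    rw [step_lin, lin_run v D _ (Fin N) univ (c 0) (fun d => step v P (A 0 d) f) s]
    have h1 : ∀ d : Fin N, c 0 d * runT v D (fun k => ∑ d : Fin N, c k.succ d • A k.succ d)
        (step v P (A 0 d) f) s =
        ∑ κ : Fin D.length → Fin N, (c 0 d * ∏ k, c k.succ (κ k)) *
          runT v D (fun k => A k.succ (κ k)) (step v P (A 0 d) f) s := by
      intro d
      rw [run_expand v D (fun k => c k.succ) (fun k => A k.succ), mul_sum]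
      refine sum_congr rfl fun κ _ => ?_
      ring
    rw [sum_congr rfl fun d _ => h1 d]
    refine Eq.trans ?_ ((Fin.consEquiv (fun _ : Fin (D.length + 1) => Fin N)).sum_comp
      (fun κ : Fin (D.length + 1) → Fin N => (∏ k : Fin (P :: D).length, c k (κ k)) *
        runT v (P :: D) (fun k => A k (κ k)) f s))
    rw [Fintype.sum_prod_type]
    refine sum_congr rfl fun d _ => sum_congr rfl fun κ _ => ?_
    have h2 : (∏ k : Fin (P :: D).length, c k ((Fin.consEquiv (fun _ : Fin (D.length + 1) => Fin N))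
        (d, κ) k)) = c 0 d * ∏ k : Fin D.length, c k.succ (κ k) := by
      exact Fin.prod_univ_succ (n := D.length) (fun k : Fin (D.length + 1) =>
        c k ((Fin.consEquiv (fun _ : Fin (D.length + 1) => Fin N)) (d, κ) k))
    rw [h2]
    rfl

/-! ### rationality -/

lemma Rat_kap (N k : ℕ) : Rat fun v => Pool.Agent.W709.QAT.kap N v k := by
  unfold Pool.Agent.W709.QAT.kap
  refine ((Rat.const _).mul (Rat.zpow _)).mul ?_
  simp only [div_eq_mul_inv]
  exact ((Rat.brf _).mul (Rat.brf _)).mul ((Rat.brf _).inv fun v hv => brf_ne hv _)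

lemma kap_ne' {N k : ℕ} {v : ℂ} (hv : v ∈ Dn) : Pool.Agent.W709.QAT.kap N v k ≠ 0 := by
  unfold Pool.Agent.W709.QAT.kap
  have h1 : (-1 : ℂ) ^ k ≠ 0 := pow_ne_zero _ (by norm_num)
  exact mul_ne_zero (mul_ne_zero h1 (zpow_ne_zero _ hv.1))
    (div_ne_zero (mul_ne_zero (brf_ne hv _) (brf_ne hv _)) (brf_ne hv _))

lemma Rat_cup (p : Fin N × Fin N) : Rat fun v => Pool.Agent.W709.QAT.cup N v p := by
  unfold Pool.Agent.W709.QAT.cup
  by_cases h : (p.1 : ℕ) + p.2 = N - 1
  · simp only [if_pos h]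
    exact Rat_kap _ _
  · simp only [if_neg h]
    exact Rat.const 0

lemma Rat_cap (p : Fin N × Fin N) : Rat fun v => Pool.Agent.W709.QAT.cap N v p := by
  unfold Pool.Agent.W709.QAT.cap
  by_cases h : (p.1 : ℕ) + p.2 = N - 1
  · simp only [if_pos h]
    exact (Rat_kap _ _).inv fun v hv => kap_ne' hv
  · simp only [if_neg h]
    exact Rat.const 0

lemma Rat_op {T : ℂ → Matrix (Fin N × Fin N) (Fin N × Fin N) ℂ} (hT : MRat T) (i : ℕ)
    {g : ℂ → List (Fin N) → ℂ} (hg : ∀ s, Rat fun v => g v s) (s : List (Fin N)) :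
    Rat fun v => opT (T v) i (g v) s := by
  unfold opT
  rcases s.drop i with _ | ⟨a, _ | ⟨b, r⟩⟩
  · exact Rat.const 0
  · exact Rat.const 0
  · exact Rat.sum _ _ fun p _ => (hT _ _).mul (hg _)

lemma Rat_acup (i : ℕ) {g : ℂ → List (Fin N) → ℂ} (hg : ∀ s, Rat fun v => g v s)
    (s : List (Fin N)) : Rat fun v => Piece.act N v (Piece.cup i) (g v) s := by
  simp only [cup_act]
  unfold cupT
  rcases s.drop i with _ | ⟨a, _ | ⟨b, r⟩⟩
  · exact Rat.const 0
  · exact Rat.const 0
  · exact (Rat_cup _).mul (hg _)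

lemma Rat_acap (i : ℕ) {g : ℂ → List (Fin N) → ℂ} (hg : ∀ s, Rat fun v => g v s)
    (s : List (Fin N)) : Rat fun v => Piece.act N v (Piece.cap i) (g v) s := by
  unfold Pool.Agent.W709.QAT.Piece.act
  exact Rat.sum _ _ fun p _ => (Rat_cap _).mul (hg _)

lemma Rat_step (P : Pc) {T : ℂ → Matrix (Fin N × Fin N) (Fin N × Fin N) ℂ} (hT : MRat T)
    {g : ℂ → List (Fin N) → ℂ} (hg : ∀ s, Rat fun v => g v s) (s : List (Fin N)) :
    Rat fun v => step v P (T v) (g v) s := by
  obtain ⟨ty, p, σ', m'⟩ := P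
  cases ty
  · exact Rat_op hT p hg s
  · exact Rat_acap p (Rat_op hT (p + 1) (Rat_acup (p + 2) hg)) s
  · exact Rat_op hT p (Rat_acup (p + 1) hg) s
  · exact Rat_op hT (p + 1) (Rat_acup p hg) s
  · exact Rat_acap (p + 1) (Rat_op hT p hg) s
  · exact Rat_acap p (Rat_op hT (p + 1) hg) s

lemma Rat_run : ∀ (D : List Pc) (T : Fin D.length → ℂ → Matrix (Fin N × Fin N) (Fin N × Fin N) ℂ)
    (_ : ∀ k, MRat (T k)) (g : ℂ → List (Fin N) → ℂ) (_ : ∀ s, Rat fun v => g v s)
    (s : List (Fin N)), Rat fun v => runT v D (fun k => T k v) (g v) s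
  | [], _, _, _, hg, s => hg s
  | P :: D, T, hT, _, hg, s =>
    Rat_run D (fun k => T k.succ) (fun k => hT k.succ) _ (fun s => Rat_step P (hT 0) hg s) s

/-- the coefficients of the expansion -/
noncomputable def Sc' (N : ℕ) (hN : 0 < N) (D : List Pc) (κ : Fin D.length → Fin N) (v : ℂ) : ℂ :=
  runT v D (fun k => Pd N (κ k) v) (fun l => if l = [⟨0, hN⟩] then 1 else 0) [⟨0, hN⟩]

lemma Rat_Sc (hN : 0 < N) (D : List Pc) (κ : Fin D.length → Fin N) : Rat (Sc' N hN D κ) :=
  Rat_run D (fun k => Pd N (κ k)) (fun _ => MRat_Pd _ _)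
    (fun _ l => if l = [⟨0, hN⟩] then 1 else 0) (fun _ => Rat.const _) _

/-- **the coloured Jones polynomial as a function of the numbers of crossings** -/
theorem jones_expand (hN : 0 < N) (D : List Pc) (n : Fin D.length → ℤ) {v : ℂ} (hv : v ∈ Dn) :
    Pool.Agent.W709.QAT.jones N (lnk D (fn n)) v =
      ∑ κ : Fin D.length → Fin N, (∏ k, eps N (κ k) ^ (n k).natAbs) *
        v ^ (∑ k, bet N (κ k) * n k) * Sc' N hN D κ v := by
  unfold Pool.Agent.W709.QAT.jones
  rw [dif_pos hN, run_lnk]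
  have h1 : (fun k => cx ((fn n) k).1 N v ^ ((fn n) k).2) = fun k : Fin D.length =>
      ∑ d : Fin N, (eps N d ^ (n k).natAbs * v ^ (bet N d * n k)) • Pd N d v := by
    funext k
    rw [cx_pow hN _ _ hv]
    refine sum_congr rfl fun d _ => ?_
    have h2 : sg ((fn n) k).1 * (((fn n) k).2 : ℤ) = n k := congrFun (wf_fn n) k
    rw [h2]
    rfl
  rw [h1, run_expand v D (fun k d => eps N d ^ (n k).natAbs * v ^ (bet N d * n k))
    (fun _ d => Pd N d v)]
  refine sum_congr rfl fun κ _ => ?_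
  have h3 : ∏ k, (eps N (κ k) ^ (n k).natAbs * v ^ (bet N (κ k) * n k)) =
      (∏ k, eps N (κ k) ^ (n k).natAbs) * v ^ (∑ k, bet N (κ k) * n k) := by
    rw [prod_mul_distrib]
    congr 1
    have : ∀ s : Finset (Fin D.length), ∏ k ∈ s, v ^ (bet N (κ k) * n k) =
        v ^ (∑ k ∈ s, bet N (κ k) * n k) := by
      intro s
      induction s using Finset.induction_on with
      | empty => simp
      | insert a s ha ih => rw [prod_insert ha, sum_insert ha, zpow_add₀ hv.1, ih]
    exact this univ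
  rw [h3]
  rfl

end Pool.Agent.KS6_92.Wt
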