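import Pool.Agent.KS6_92.Wt7
import Pool.Agent.KS6_92.Wt9
import Pool.Agent.KS6_92.Wt10
import Pool.Graph.R_pool_sql_team_seeded_63374d34.N566.VV.Core

/-!
# The coloured Jones polynomials of highly twisted links are not constant up to units
-/

set_option autoImplicit false

namespace Pool.Agent.KS6_92.Wt

open Finset Filter Topology
open Pool.Agent.H927R2.J.SanYB (Dn dense_Dn)
open Pool.Agent.Q99.FAL
open Pool.Agent.Q99.HT (kas lnk)
open Pool.Agent.N566.VV (rt rt_norm rt_ne)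

/-- equality up to powers of `v` on the generic points gives the equality of the absolute values at
`rt N`. -/
lemma norm_of_rel {N : ℕ} {f g : ℂ → ℂ} (hf : ContinuousAt f (rt N)) (hg : ContinuousAt g (rt N))
    {a : ℤ} (h : ∀ v ∈ Dn, f v = v ^ a * g v) : ‖f (rt N)‖ = ‖g (rt N)‖ := by
  have hcont : ContinuousAt (fun v => f v - v ^ a * g v) (rt N) :=
    hf.sub ((continuousAt_zpow₀ _ a (Or.inl (rt_ne N))).mul hg)
  have hmem : rt N ∈ closure Dn := dense_Dn (rt N)
  have hne : (𝓝[Dn] (rt N)).NeBot := mem_closure_iff_nhdsWithin_neBot.1 hmem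
  have ht : Tendsto (fun v => f v - v ^ a * g v) (𝓝[Dn] (rt N))
      (𝓝 (f (rt N) - rt N ^ a * g (rt N))) := hcont.tendsto.mono_left nhdsWithin_le_nhds
  have ht0 : Tendsto (fun v => f v - v ^ a * g v) (𝓝[Dn] (rt N)) (𝓝 0) := by
    refine tendsto_const_nhds.congr' ?_
    filter_upwards [self_mem_nhdsWithin] with v hv
    rw [h v hv, sub_self]
  have h0 := tendsto_nhds_unique ht ht0
  have h1 : f (rt N) = rt N ^ a * g (rt N) := sub_eq_zero.1 h0
  rw [h1, norm_mul, norm_zpow, rt_norm, one_zpow, one_mul]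

lemma kas_jones (N : ℕ) (D : List Pc) (f : Fin D.length → Bool × ℕ) :
    kas N D f = Pool.Agent.W709.QAT.jones N (lnk D f) (rt N) := rfl

/-- **The coloured Jones polynomials of highly twisted links are not constant.** -/
theorem not_const (D : List Pc) (hV : Val D 1) (hP : Pri D 1) (hD : D ≠ [])
    (p : Fin D.length → Fin 6 → ℝ) (hp : Pos D p) (n : ℕ → Fin D.length → ℤ)
    (hn : ∀ s, Tendsto (fun l => |n l s|) atTop atTop)
    (hsame : ∀ N, Odd N → ∀ l l', ∃ a : ℤ, ∀ v ∈ Dn,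
      Pool.Agent.W709.QAT.jones N (lnk D (fn (n l))) v =
        v ^ a * Pool.Agent.W709.QAT.jones N (lnk D (fn (n l'))) v) : False := by
  obtain ⟨r, ν, hν, H⟩ := rigid n hn
  have h1 := line_unbounded D hV hP hD p hp r ν hν
  obtain ⟨N0, h2⟩ := eventually_atTop.1 h1
  -- an odd colour
  have hN : Odd (2 * N0 + 1) := ⟨N0, rfl⟩
  have hN0 : 0 < 2 * N0 + 1 := by omega
  obtain ⟨e, he⟩ := H (Fin D.length → Fin (2 * N0 + 1)) (fun κ s => bet (2 * N0 + 1) (κ s))
    (fun κ s => eps (2 * N0 + 1) (κ s)) (fun κ s => eps_sq _ _) (fun κ => Sc' (2 * N0 + 1) hN0 D κ)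
    (fun κ => Rat_Sc hN0 D κ)
    (fun x v => Pool.Agent.W709.QAT.jones (2 * N0 + 1) (lnk D (fn x)) v)
    (fun x v hv => jones_expand hN0 D x hv) (fun l l' => hsame _ hN l l')
  obtain ⟨m, hm⟩ := h2 (2 * N0 + 1) (by omega) ‖kas (2 * N0 + 1) D (fn r)‖
  have hc := fun E => Pool.Agent.W613.QAT.cont E (2 * N0 + 1) hN0
  have h3 := norm_of_rel (hc (lnk D (fn (r + (m : ℤ) • ν)))) (hc (lnk D (fn r))) (he m)
  rw [kas_jones, kas_jones, h3] at hm
  exact lt_irrefl _ hm

end Pool.Agent.KS6_92.Wt
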