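import Mathlib

/-!
# Second moments of complex Gaussian integrals which split
-/

set_option autoImplicit false

namespace Pool.Agent.KS6_92.Wt

open Finset Filter Topology MeasureTheory

/-- the second moment of a complex Gaussian in one variable -/
lemma int_sq_gauss {b : ℂ} (hb : 0 < b.re) :
    ∫ t : ℝ, ((t : ℂ) ^ 2) * Complex.exp (-b * (t : ℂ) ^ 2) ≠ 0 := by
  have hb0 : b ≠ 0 := by
    rintro rfl
    simp at hb
  have i1 := integrable_cexp_neg_mul_sq hb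
  have i2 := integrable_mul_cexp_neg_mul_sq hb
  have i3 : Integrable fun t : ℝ => ((t : ℂ) ^ 2) * Complex.exp (-b * (t : ℂ) ^ 2) := by
    have h := integrable_rpow_mul_exp_neg_mul_sq hb (s := 2) (by norm_num)
    refine h.mono ?_ ?_
    · have hc : Continuous fun t : ℝ => ((t : ℂ) ^ 2) * Complex.exp (-b * (t : ℂ) ^ 2) := by fun_prop
      exact hc.aestronglyMeasurable
    · refine Eventually.of_forall fun t => ?_
      rw [norm_mul, norm_cexp_neg_mul_sq, norm_pow, Complex.norm_real, norm_mul]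
      simp only [Real.norm_eq_abs, Real.rpow_two, abs_pow, Real.abs_exp]
      exact le_rfl
  have hd : ∀ t : ℝ, HasDerivAt (fun t : ℝ => (t : ℂ) * Complex.exp (-b * (t : ℂ) ^ 2))
      (Complex.exp (-b * (t : ℂ) ^ 2) - 2 * b * (((t : ℂ) ^ 2) * Complex.exp (-b * (t : ℂ) ^ 2))) t := by
    intro t
    have h1 : HasDerivAt (fun z : ℂ => z * Complex.exp (-b * z ^ 2))
        (1 * Complex.exp (-b * (t : ℂ) ^ 2) + (t : ℂ) * (Complex.exp (-b * (t : ℂ) ^ 2) *
          (-b * (2 * (t : ℂ) ^ 1 * 1)))) (t : ℂ) := by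
      have h2 : HasDerivAt (fun z : ℂ => -b * z ^ 2) (-b * (2 * (t : ℂ) ^ 1 * 1)) (t : ℂ) := by
        have := ((hasDerivAt_id (t : ℂ)).pow 2).const_mul (-b)
        simpa using this
      exact (hasDerivAt_id (t : ℂ)).mul h2.cexp
    have h3 := h1.comp_ofReal
    refine h3.congr_deriv ?_
    ring
  have h0 := integral_eq_zero_of_hasDerivAt_of_integrable hd (i1.sub (i3.const_mul (2 * b))) i2
  rw [integral_sub i1 (i3.const_mul (2 * b)), integral_const_mul] at h0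
  intro h
  rw [h, mul_zero, sub_zero, integral_gaussian_complex hb] at h0
  have hpi : (Real.pi : ℂ) / b ≠ 0 := div_ne_zero (by exact_mod_cast Real.pi_ne_zero) hb0
  exact (Complex.cpow_ne_zero_iff.2 (Or.inl hpi)) h0

/-- linear changes of variables -/
lemma int_comp {m c d : ℕ} (e : ((Fin m → ℝ) × (Fin c → ℝ)) ≃L[ℝ] (Fin d → ℝ)) :
    ∃ r : ℝ, r ≠ 0 ∧ ∀ f : (Fin d → ℝ) → ℂ,
      ∫ τ, f τ = r • ∫ p : (Fin m → ℝ) × (Fin c → ℝ), f (e p) := by
  let μ : Measure (Fin d → ℝ) := (volume : Measure ((Fin m → ℝ) × (Fin c → ℝ))).map e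
  have hv : (volume : Measure ((Fin m → ℝ) × (Fin c → ℝ))).IsAddHaarMeasure :=
    Measure.prod.instIsAddHaarMeasure (volume : Measure (Fin m → ℝ)) (volume : Measure (Fin c → ℝ))
  have : μ.IsAddHaarMeasure := ContinuousLinearEquiv.isAddHaarMeasure_map e volume
  have h1 := Measure.isAddLeftInvariant_eq_smul (volume : Measure (Fin d → ℝ)) μ
  have h2 := Measure.addHaarScalarFactor_pos_of_isAddHaarMeasure
    (volume : Measure (Fin d → ℝ)) μ
  refine ⟨(Measure.addHaarScalarFactor (volume : Measure (Fin d → ℝ)) μ : ℝ),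
    by exact_mod_cast h2.ne', fun f => ?_⟩
  have h3 : ∫ τ, f τ = ∫ τ, f τ ∂(Measure.addHaarScalarFactor (volume : Measure (Fin d → ℝ)) μ • μ) := by
    rw [← h1]
  rw [h3, integral_smul_nnreal_measure]
  have h4 : ∫ τ, f τ ∂μ = ∫ p : (Fin m → ℝ) × (Fin c → ℝ), f (e p) :=
    e.toHomeomorph.measurableEmbedding.integral_map f
  rw [h4]
  rfl

/-- **second moments of complex Gaussian integrals which split.** -/
theorem split_ne {d c : ℕ} (B : (Fin d → ℝ) →ₗ[ℝ] (Fin d → ℝ) →ₗ[ℝ] ℝ)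
    (l : Fin c → (Fin d → ℝ) →ₗ[ℝ] ℝ) (σ : Fin c → Fin d → ℝ) (Λ w : Fin c → ℝ)
    (hΛ : ∀ b, 0 < Λ b) (hl : ∀ b b', l b (σ b') = if b = b' then 1 else 0)
    (hB : ∀ b τ, B (σ b) τ = Λ b * l b τ) (hB' : ∀ b τ, B τ (σ b) = Λ b * l b τ)
    (h : ∫ τ : Fin d → ℝ, Complex.exp ((-(B τ τ) : ℝ) + (∑ b, w b * l b τ ^ 2 : ℝ) * Complex.I) ≠ 0) :
    ∫ τ : Fin d → ℝ, ((∏ b, l b τ ^ 2 : ℝ) : ℂ) *
      Complex.exp ((-(B τ τ) : ℝ) + (∑ b, w b * l b τ ^ 2 : ℝ) * Complex.I) ≠ 0 := by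
  classical
  set K : Submodule ℝ (Fin d → ℝ) := ⨅ b, LinearMap.ker (l b) with hK
  have hmem : ∀ τ, τ ∈ K ↔ ∀ b, l b τ = 0 := by
    intro τ
    rw [hK, Submodule.mem_iInf]
    exact forall_congr' fun b => LinearMap.mem_ker
  let k : (Fin (Module.finrank ℝ K) → ℝ) ≃ₗ[ℝ] K := (Module.finBasis ℝ K).equivFun.symm
  let F : ((Fin (Module.finrank ℝ K) → ℝ) × (Fin c → ℝ)) →ₗ[ℝ] (Fin d → ℝ) :=
    (K.subtype ∘ₗ k.toLinearMap).coprod (Fintype.linearCombination ℝ σ)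
  have hF : ∀ y t, F (y, t) = (k y : Fin d → ℝ) + ∑ b, t b • σ b := by
    intro y t
    simp only [F, LinearMap.coprod_apply, Fintype.linearCombination_apply]
    rfl
  have hlF : ∀ b y t, l b (F (y, t)) = t b := by
    intro b y t
    rw [hF, map_add, map_sum, (hmem _).1 (k y).2 b, zero_add]
    simp only [map_smul, smul_eq_mul, hl, mul_ite, mul_one, mul_zero]
    rw [Finset.sum_ite_eq Finset.univ b t, if_pos (mem_univ b)]
  have hinj : Function.Injective F := by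
    rw [← LinearMap.ker_eq_bot, LinearMap.ker_eq_bot']
    rintro ⟨y, t⟩ h0
    have ht : t = 0 := by
      funext b
      have := hlF b y t
      rw [h0, map_zero] at this
      exact this.symm
    rw [ht, hF] at h0
    simp only [Pi.zero_apply, zero_smul, sum_const_zero, add_zero] at h0
    have h1 : k y = 0 := Subtype.ext h0
    rw [(LinearEquiv.map_eq_zero_iff k).1 h1, ht]
    rfl
  have hsurj : Function.Surjective F := by
    intro τ
    have h1 : τ - ∑ b, l b τ • σ b ∈ K := by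
      rw [hmem]
      intro b
      rw [map_sub, map_sum]
      simp only [map_smul, smul_eq_mul, hl, mul_ite, mul_one, mul_zero]
      rw [Finset.sum_ite_eq Finset.univ b fun b' => l b' τ, if_pos (mem_univ b), sub_self]
    refine ⟨(k.symm ⟨_, h1⟩, fun b => l b τ), ?_⟩
    rw [hF, LinearEquiv.apply_symm_apply]
    show τ - ∑ b, l b τ • σ b + ∑ b, l b τ • σ b = τ
    exact sub_add_cancel _ _
  let e : ((Fin (Module.finrank ℝ K) → ℝ) × (Fin c → ℝ)) ≃L[ℝ] (Fin d → ℝ) :=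
    (LinearEquiv.ofBijective F ⟨hinj, hsurj⟩).toContinuousLinearEquiv
  have he : ∀ p, e p = F p := fun p => rfl
  obtain ⟨r, hr, hint⟩ := int_comp e
  -- the quadratic form splits
  have hQ : ∀ y t, B (F (y, t)) (F (y, t)) = B (k y) (k y) + ∑ b, Λ b * t b ^ 2 := by
    intro y t
    have e1 : ∀ x, B x (F (y, t)) = B x (k y) + ∑ b, t b * (Λ b * l b x) := by
      intro x
      rw [hF, map_add, map_sum]
      congr 1
      refine sum_congr rfl fun b _ => ?_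
      rw [map_smul, hB', smul_eq_mul]
    have e2 : B (F (y, t)) (k y) = B (k y) (k y) := by
      rw [hF, map_add, map_sum, LinearMap.add_apply, LinearMap.sum_apply]
      have : ∑ b, (B (t b • σ b)) (k y : Fin d → ℝ) = 0 := by
        refine sum_eq_zero fun b _ => ?_
        rw [map_smul, LinearMap.smul_apply, hB, (hmem _).1 (k y).2 b, mul_zero, smul_zero]
      rw [this, add_zero]
    rw [e1, e2]
    congr 1
    refine sum_congr rfl fun b _ => ?_
    rw [hlF]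
    ring
  have hsplit : ∀ (P : (Fin c → ℝ) → ℂ) (p : (Fin (Module.finrank ℝ K) → ℝ) × (Fin c → ℝ)),
      P (fun b => l b (e p)) * Complex.exp ((-(B (e p) (e p)) : ℝ) +
        (∑ b, w b * l b (e p) ^ 2 : ℝ) * Complex.I) =
      Complex.exp ((-(B (k p.1) (k p.1)) : ℝ)) * (P p.2 * ∏ b, Complex.exp (-((Λ b : ℂ) -
        (w b : ℂ) * Complex.I) * (p.2 b : ℂ) ^ 2)) := by
    rintro P ⟨y, t⟩
    rw [he]
    simp only [hlF]
    rw [hQ, ← Complex.exp_sum]
    have e3 : ((-(B (k y) (k y) + ∑ b, Λ b * t b ^ 2) : ℝ) : ℂ) + ((∑ b, w b * t b ^ 2 : ℝ) : ℂ) *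
        Complex.I = ((-(B (k y) (k y)) : ℝ) : ℂ) + ∑ b, -((Λ b : ℂ) - (w b : ℂ) * Complex.I) *
          (t b : ℂ) ^ 2 := by
      push_cast
      rw [neg_add, add_assoc, ← sum_neg_distrib, sum_mul, ← sum_add_distrib]
      congr 1
      refine sum_congr rfl fun b _ => ?_
      ring
    rw [e3, Complex.exp_add]
    ring
  -- the integral without the squares
  have hne1 : ∫ y : Fin (Module.finrank ℝ K) → ℝ, Complex.exp ((-(B (k y) (k y)) : ℝ)) ≠ 0 := by
    intro h0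
    apply h
    rw [hint]
    have e4 : ∀ p : (Fin (Module.finrank ℝ K) → ℝ) × (Fin c → ℝ),
        Complex.exp ((-(B (e p) (e p)) : ℝ) + (∑ b, w b * l b (e p) ^ 2 : ℝ) * Complex.I) =
        Complex.exp ((-(B (k p.1) (k p.1)) : ℝ)) * (∏ b, Complex.exp (-((Λ b : ℂ) -
        (w b : ℂ) * Complex.I) * (p.2 b : ℂ) ^ 2)) := by
      intro p
      have := hsplit (fun _ => 1) p
      simpa using this
    simp only [e4]
    have e5 : ∫ p : (Fin (Module.finrank ℝ K) → ℝ) × (Fin c → ℝ),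
        Complex.exp ((-(B (k p.1) (k p.1)) : ℝ)) * (∏ b, Complex.exp (-((Λ b : ℂ) -
        (w b : ℂ) * Complex.I) * (p.2 b : ℂ) ^ 2)) =
        (∫ y : Fin (Module.finrank ℝ K) → ℝ, Complex.exp ((-(B (k y) (k y)) : ℝ))) *
          ∫ t : Fin c → ℝ, ∏ b, Complex.exp (-((Λ b : ℂ) - (w b : ℂ) * Complex.I) * (t b : ℂ) ^ 2) :=
      integral_prod_mul (μ := volume) (ν := volume)
        (fun y : Fin (Module.finrank ℝ K) → ℝ => Complex.exp ((-(B (k y) (k y)) : ℝ)))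
        (fun t : Fin c → ℝ => ∏ b, Complex.exp (-((Λ b : ℂ) - (w b : ℂ) * Complex.I) * (t b : ℂ) ^ 2))
    rw [e5, h0, zero_mul, smul_zero]
  -- the integral with the squares
  rw [hint]
  have e6 : ∀ p : (Fin (Module.finrank ℝ K) → ℝ) × (Fin c → ℝ),
      ((∏ b, l b (e p) ^ 2 : ℝ) : ℂ) *
        Complex.exp ((-(B (e p) (e p)) : ℝ) + (∑ b, w b * l b (e p) ^ 2 : ℝ) * Complex.I) =
      Complex.exp ((-(B (k p.1) (k p.1)) : ℝ)) * (∏ b, ((p.2 b : ℂ) ^ 2 * Complex.exp (-((Λ b : ℂ) -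
      (w b : ℂ) * Complex.I) * (p.2 b : ℂ) ^ 2))) := by
    intro p
    have := hsplit (fun t => ((∏ b, t b ^ 2 : ℝ) : ℂ)) p
    rw [this, prod_mul_distrib]
    push_cast
    rfl
  simp only [e6]
  have e7 : ∫ p : (Fin (Module.finrank ℝ K) → ℝ) × (Fin c → ℝ),
      Complex.exp ((-(B (k p.1) (k p.1)) : ℝ)) * (∏ b, ((p.2 b : ℂ) ^ 2 * Complex.exp (-((Λ b : ℂ) -
      (w b : ℂ) * Complex.I) * (p.2 b : ℂ) ^ 2))) =
      (∫ y : Fin (Module.finrank ℝ K) → ℝ, Complex.exp ((-(B (k y) (k y)) : ℝ))) *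
        ∫ t : Fin c → ℝ, ∏ b, ((t b : ℂ) ^ 2 * Complex.exp (-((Λ b : ℂ) - (w b : ℂ) * Complex.I) *
          (t b : ℂ) ^ 2)) :=
    integral_prod_mul (μ := volume) (ν := volume)
      (fun y : Fin (Module.finrank ℝ K) → ℝ => Complex.exp ((-(B (k y) (k y)) : ℝ)))
      (fun t : Fin c → ℝ => ∏ b, ((t b : ℂ) ^ 2 * Complex.exp (-((Λ b : ℂ) - (w b : ℂ) * Complex.I) *
          (t b : ℂ) ^ 2)))
  have e8 : ∫ t : Fin c → ℝ, ∏ b, ((t b : ℂ) ^ 2 * Complex.exp (-((Λ b : ℂ) - (w b : ℂ) * Complex.I) *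
          (t b : ℂ) ^ 2)) = ∏ b, ∫ t : ℝ, ((t : ℂ) ^ 2 * Complex.exp (-((Λ b : ℂ) -
          (w b : ℂ) * Complex.I) * (t : ℂ) ^ 2)) :=
    integral_fintype_prod_volume_eq_prod (E := fun _ : Fin c => ℝ) (fun (b : Fin c) (t : ℝ) =>
      ((t : ℂ) ^ 2 * Complex.exp (-((Λ b : ℂ) - (w b : ℂ) * Complex.I) * (t : ℂ) ^ 2)))
  rw [e7, e8, smul_ne_zero_iff]
  refine ⟨hr, mul_ne_zero hne1 (prod_ne_zero_iff.2 fun b _ => int_sq_gauss ?_)⟩
  simpa using hΛ b

end Pool.Agent.KS6_92.Wt
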