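import Pool.Agent.KS6_92.Wt1
import Pool.Agent.KS6_92.Wt2

/-!
# The quadratic form of a net splits at each twist region
-/

set_option autoImplicit false

namespace Pool.Agent.KS6_92.Wt

open Finset Filter Topology MeasureTheory
open Pool.Agent.Q191.TW (cs)
open Pool.Agent.Q99.FAL
open Pool.Agent.Q299.FAL (vc XL XL_apply lower fa fb gau_ne)

/-- the bilinear form of a belt -/
noncomputable def bel (α u x : Fin 6 → ℝ) : ℝ :=
  ∑ i, Real.pi / 2 * (Real.cot (Real.pi * α i) * (u i * x i) +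
    Real.tan (Real.pi * α i) * ((dn u i - u i) * (dn x i - x i)))

lemma tan_sum {x y z : ℝ} (hx : 0 < x) (hy : 0 < y) (hz : 0 ≤ z) (h : z + x + y = 1 / 2) :
    Real.tan (Real.pi * z) * (Real.tan (Real.pi * x) + Real.tan (Real.pi * y)) =
      1 - Real.tan (Real.pi * x) * Real.tan (Real.pi * y) := by
  have hpi := Real.pi_pos
  have e : Real.pi * z = Real.pi / 2 - (Real.pi * x + Real.pi * y) := by
    have : z = 1 / 2 - (x + y) := by linarith
    rw [this]
    ring
  have c1 : 0 < Real.cos (Real.pi * x) :=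
    Real.cos_pos_of_mem_Ioo ⟨by nlinarith, by nlinarith⟩
  have c2 : 0 < Real.cos (Real.pi * y) :=
    Real.cos_pos_of_mem_Ioo ⟨by nlinarith, by nlinarith⟩
  have s1 : 0 < Real.sin (Real.pi * x + Real.pi * y) :=
    Real.sin_pos_of_pos_of_lt_pi (by positivity) (by nlinarith)
  rw [Real.tan_eq_sin_div_cos (Real.pi * z), Real.tan_eq_sin_div_cos (Real.pi * x),
    Real.tan_eq_sin_div_cos (Real.pi * y), e, Real.sin_pi_div_two_sub, Real.cos_pi_div_two_sub]
  rw [Real.sin_add] at s1 ⊢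
  rw [Real.cos_add]
  rw [div_add_div _ _ c1.ne' c2.ne', div_mul_div_comm, div_mul_div_comm, eq_sub_iff_add_eq,
    div_add_div _ _ (by positivity) (by positivity), div_eq_one_iff_eq (by positivity)]
  ring

lemma cot_half {x z : ℝ} (h : z + x = 1 / 2) : Real.cot (Real.pi * x) = Real.tan (Real.pi * z) := by
  have e : Real.pi * x = Real.pi / 2 - Real.pi * z := by
    have : x = 1 / 2 - z := by linarith
    rw [this]
    ring
  rw [e, Real.cot_eq_cos_div_sin, Real.cos_pi_div_two_sub, Real.sin_pi_div_two_sub,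
    Real.tan_eq_sin_div_cos]

lemma tan_nn {x : ℝ} (h0 : 0 ≤ x) (h1 : x ≤ 1 / 2) : 0 ≤ Real.tan (Real.pi * x) := by
  rcases h0.eq_or_lt with h | h
  · rw [← h, mul_zero, Real.tan_zero]
  rcases h1.eq_or_lt with h' | h'
  · rw [h', show Real.pi * (1 / 2) = Real.pi / 2 by ring, Real.tan_pi_div_two]
  · exact (Pool.Agent.Q299.FAL.cot_pos' h h').2.le

/-- **the quadratic form of a belt splits** -/
lemma belt_split {α : Fin 6 → ℝ} (hn : ∀ i, 0 ≤ α i) (h1 : n1 α = 1 / 2) (h2 : n2 α = 1 / 2)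
    (s1 : α 1 = 0 ↔ α 4 = 0) (s2 : α 2 = 0 ↔ α 5 = 0) (s3 : ¬ (α 1 = 0 ∧ α 2 = 0))
    (s4 : ¬ (α 0 = 0 ∧ α 3 = 0 ∧ (α 1 = 0 ∨ α 2 = 0)))
    (hcr : α 1 ≠ 0 → α 2 ≠ 0 → Real.tan (Real.pi * α 1) * Real.tan (Real.pi * α 5) =
      Real.tan (Real.pi * α 4) * Real.tan (Real.pi * α 2)) :
    ∃ s t Λ : ℝ, s + t = 1 ∧ (α 1 = 0 → s = 0) ∧ (α 2 = 0 → t = 0) ∧ 0 < Λ ∧
      ∀ x : Fin 6 → ℝ, n1 x + n2 x = 0 → (∀ i, α i = 0 → x i = 0) →
      bel α ![0, s, t, 0, -s, -t] x = Λ * n1 x := by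
  have hpi := Real.pi_pos
  have a0 := hn 0
  have a1 := hn 1
  have a2 := hn 2
  have a3 := hn 3
  have a4 := hn 4
  have a5 := hn 5
  unfold n1 at h1
  unfold n2 at h2
  -- the form
  have key : ∀ (s t : ℝ) (x : Fin 6 → ℝ), s + t = 1 → n1 x + n2 x = 0 →
      bel α ![0, s, t, 0, -s, -t] x = Real.pi / 2 *
        (Real.tan (Real.pi * α 0) * (n1 x + x 0) +
        (Real.cot (Real.pi * α 1) * s * x 1 + Real.tan (Real.pi * α 1) * t * (n1 x - x 1)) +
        (Real.cot (Real.pi * α 2) * t * x 2 + Real.tan (Real.pi * α 2) * s * (n1 x - x 2)) +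
        Real.tan (Real.pi * α 3) * (n1 x - x 3) +
        (-(Real.cot (Real.pi * α 4) * s * x 4) + Real.tan (Real.pi * α 4) * t * (n1 x + x 4)) +
        (-(Real.cot (Real.pi * α 5) * t * x 5) + Real.tan (Real.pi * α 5) * s * (n1 x + x 5))) := by
    intro s t x hst hx
    have ht : t = 1 - s := by linarith
    have hx2 : n2 x = -n1 x := by linarith
    subst ht
    unfold bel
    rw [Fin.sum_univ_six]
    simp only [dn, Fin.isValue, true_or, or_true, if_true]
    rw [if_neg (by decide), if_neg (by decide), if_neg (by decide), if_neg (by decide),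
      if_neg (by decide), if_neg (by decide), hx2]
    have e1 : n1 ![0, s, 1 - s, 0, -s, -(1 - s)] = 1 := by
      show (0 : ℝ) + s + (1 - s) = 1
      ring
    have e2 : n2 ![0, s, 1 - s, 0, -s, -(1 - s)] = -1 := by
      show (0 : ℝ) + -s + -(1 - s) = -1
      ring
    rw [e1, e2]
    simp only [Matrix.cons_val_zero, Matrix.cons_val_one, Matrix.cons_val]
    ring
  by_cases c1 : α 1 = 0
  · -- only the corner on the left
    have c4 := s1.1 c1
    have c2 : α 2 ≠ 0 := fun h => s3 ⟨c1, h⟩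
    have c5 : α 5 ≠ 0 := fun h => c2 (s2.2 h)
    have p2 : 0 < α 2 := lt_of_le_of_ne a2 (Ne.symm c2)
    have p5 : 0 < α 5 := lt_of_le_of_ne a5 (Ne.symm c5)
    have k2 : Real.cot (Real.pi * α 2) = Real.tan (Real.pi * α 0) := cot_half (by linarith)
    have k5 : Real.cot (Real.pi * α 5) = Real.tan (Real.pi * α 3) := cot_half (by linarith)
    have t0 := tan_nn a0 (by linarith)
    have t3 := tan_nn a3 (by linarith)
    have hpos : 0 < Real.tan (Real.pi * α 0) + Real.tan (Real.pi * α 3) := by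
      by_cases z0 : α 0 = 0
      · have z3 : α 3 ≠ 0 := fun h => s4 ⟨z0, h, Or.inl c1⟩
        have := (Pool.Agent.Q299.FAL.cot_pos' (lt_of_le_of_ne a3 (Ne.symm z3)) (by linarith)).2
        linarith
      · have := (Pool.Agent.Q299.FAL.cot_pos' (lt_of_le_of_ne a0 (Ne.symm z0)) (by linarith)).2
        linarith
    refine ⟨0, 1, Real.pi * (Real.tan (Real.pi * α 0) + Real.tan (Real.pi * α 3)), by ring,
      fun _ => rfl, fun h => absurd h c2, by positivity, fun x hx hz => ?_⟩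
    rw [key 0 1 x (by ring) hx, k2, k5, hz 1 c1, hz 4 c4, c1, c4]
    have e1 : n1 x = x 0 + x 2 := by
      unfold n1
      rw [hz 1 c1]
      ring
    have e2 : n1 x = -(x 3 + x 5) := by
      have : n2 x = x 3 + x 5 := by
        unfold n2
        rw [hz 4 c4]
        ring
      linarith
    have tz : Real.tan (Real.pi * 0) = 0 := by rw [mul_zero, Real.tan_zero]
    rw [tz]
    linear_combination (-(Real.pi / 2) * Real.tan (Real.pi * α 0)) * e1 -
      (Real.pi / 2) * Real.tan (Real.pi * α 3) * e2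
  by_cases c2 : α 2 = 0
  · -- only the corner on the right
    have c5 := s2.1 c2
    have c4 : α 4 ≠ 0 := fun h => c1 (s1.2 h)
    have p1 : 0 < α 1 := lt_of_le_of_ne a1 (Ne.symm c1)
    have p4 : 0 < α 4 := lt_of_le_of_ne a4 (Ne.symm c4)
    have k1 : Real.cot (Real.pi * α 1) = Real.tan (Real.pi * α 0) := cot_half (by linarith)
    have k4 : Real.cot (Real.pi * α 4) = Real.tan (Real.pi * α 3) := cot_half (by linarith)
    have t0 := tan_nn a0 (by linarith)
    have t3 := tan_nn a3 (by linarith)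
    have hpos : 0 < Real.tan (Real.pi * α 0) + Real.tan (Real.pi * α 3) := by
      by_cases z0 : α 0 = 0
      · have z3 : α 3 ≠ 0 := fun h => s4 ⟨z0, h, Or.inr c2⟩
        have := (Pool.Agent.Q299.FAL.cot_pos' (lt_of_le_of_ne a3 (Ne.symm z3)) (by linarith)).2
        linarith
      · have := (Pool.Agent.Q299.FAL.cot_pos' (lt_of_le_of_ne a0 (Ne.symm z0)) (by linarith)).2
        linarith
    refine ⟨1, 0, Real.pi * (Real.tan (Real.pi * α 0) + Real.tan (Real.pi * α 3)), by ring,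
      fun h => absurd h c1, fun _ => rfl, by positivity, fun x hx hz => ?_⟩
    rw [key 1 0 x (by ring) hx, k1, k4, hz 2 c2, hz 5 c5, c2, c5]
    have e1 : n1 x = x 0 + x 1 := by
      unfold n1
      rw [hz 2 c2]
      ring
    have e2 : n1 x = -(x 3 + x 4) := by
      have : n2 x = x 3 + x 4 := by
        unfold n2
        rw [hz 5 c5]
        ring
      linarith
    have tz : Real.tan (Real.pi * 0) = 0 := by rw [mul_zero, Real.tan_zero]
    rw [tz]
    linear_combination (-(Real.pi / 2) * Real.tan (Real.pi * α 0)) * e1 -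
      (Real.pi / 2) * Real.tan (Real.pi * α 3) * e2
  -- both corners
  have c4 : α 4 ≠ 0 := fun h => c1 (s1.2 h)
  have c5 : α 5 ≠ 0 := fun h => c2 (s2.2 h)
  have p1 : 0 < α 1 := lt_of_le_of_ne a1 (Ne.symm c1)
  have p2 : 0 < α 2 := lt_of_le_of_ne a2 (Ne.symm c2)
  have p4 : 0 < α 4 := lt_of_le_of_ne a4 (Ne.symm c4)
  have p5 : 0 < α 5 := lt_of_le_of_ne a5 (Ne.symm c5)
  have T0 := tan_nn a0 (by linarith)
  have T3 := tan_nn a3 (by linarith)
  have T1 := (Pool.Agent.Q299.FAL.cot_pos' p1 (by linarith)).2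
  have T2 := (Pool.Agent.Q299.FAL.cot_pos' p2 (by linarith)).2
  have T4 := (Pool.Agent.Q299.FAL.cot_pos' p4 (by linarith)).2
  have T5 := (Pool.Agent.Q299.FAL.cot_pos' p5 (by linarith)).2
  have q0 := tan_sum p1 p2 a0 (by linarith)
  have q3 := tan_sum p4 p5 a3 (by linarith)
  have q := hcr c1 c2
  have hcot : ∀ x : ℝ, Real.cot x = (Real.tan x)⁻¹ := fun x => by
    rw [Real.cot_eq_cos_div_sin, Real.tan_eq_sin_div_cos, inv_div]
  have hk := fun s t x h h' => key s t x h h'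
  rw [hcot, hcot, hcot, hcot] at hk
  revert T0 T1 T2 T3 T4 T5 q0 q3 q hk
  generalize Real.tan (Real.pi * α 0) = A0
  generalize Real.tan (Real.pi * α 1) = A1
  generalize Real.tan (Real.pi * α 2) = A2
  generalize Real.tan (Real.pi * α 3) = A3
  generalize Real.tan (Real.pi * α 4) = A4
  generalize Real.tan (Real.pi * α 5) = A5
  intro T0 T3 T1 T2 T4 T5 q0 q3 q hk
  have hS : 0 < A1 + A2 := by positivity
  have hS' : 0 < A4 + A5 := by positivity
  have z1 : A1 / (A1 + A2) = A4 / (A4 + A5) := by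
    rw [div_eq_div_iff hS.ne' hS'.ne']
    linarith
  have z2 : A2 / (A1 + A2) = A5 / (A4 + A5) := by
    rw [div_eq_div_iff hS.ne' hS'.ne']
    linarith
  have w0 : A0 = (1 - A1 * A2) / (A1 + A2) := by
    rw [eq_div_iff hS.ne']
    exact q0
  have w3 : A3 = (1 - A4 * A5) / (A4 + A5) := by
    rw [eq_div_iff hS'.ne']
    exact q3
  refine ⟨A1 / (A1 + A2), A2 / (A1 + A2), Real.pi / 2 * (2 * A0 + 2 * A3 +
    A2 / (A1 + A2) * (A1 + A4) + A1 / (A1 + A2) * (A2 + A5)), by
      rw [← add_div, div_self hS.ne'], fun h => absurd h c1, fun h => absurd h c2, by positivity,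
    fun x hx _ => ?_⟩
  rw [hk _ _ x (by rw [← add_div, div_self hS.ne']) hx]
  have g1 : A1⁻¹ * (A1 / (A1 + A2)) - A1 * (A2 / (A1 + A2)) = A0 := by
    rw [w0]
    field_simp
  have g2 : A2⁻¹ * (A2 / (A1 + A2)) - A2 * (A1 / (A1 + A2)) = A0 := by
    rw [w0]
    field_simp
  have g4 : A4⁻¹ * (A1 / (A1 + A2)) - A4 * (A2 / (A1 + A2)) = A3 := by
    rw [w3, z1, z2]
    field_simp
  have g5 : A5⁻¹ * (A2 / (A1 + A2)) - A5 * (A1 / (A1 + A2)) = A3 := by
    rw [w3, z1, z2]
    field_simp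
  have e1 : n1 x = x 0 + x 1 + x 2 := rfl
  have e2 : n1 x = -(x 3 + x 4 + x 5) := by
    have : n2 x = x 3 + x 4 + x 5 := rfl
    linarith
  linear_combination (Real.pi / 2) * x 1 * g1 + (Real.pi / 2) * x 2 * g2 -
    (Real.pi / 2) * x 4 * g4 - (Real.pi / 2) * x 5 * g5 - (Real.pi / 2) * A0 * e1 -
    (Real.pi / 2) * A3 * e2

end Pool.Agent.KS6_92.Wt
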