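import Pool.Agent.KS6_92.Wt3
import Pool.Graph.R_pool_sql_team_seeded_3997aac3.Q151.FAL.T12
import Pool.Graph.R_pool_sql_team_seeded_3997aac3.Q151.FAL.MAX
import Pool.Graph.R_pool_sql_team_seeded_3997aac3.Q299.FAL.LB
import Pool.Graph.R_pool_sql_team_seeded_3997aac3.Q299.FAL.GI

/-!
# The weighted state sum of a net does not vanish for large `N`
-/

set_option autoImplicit false

namespace Pool.Agent.KS6_92.Wt

open Finset Filter Topology MeasureTheory
open Pool.Agent.Q191.TW (cs)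
open Pool.Agent.Q99.FAL
open Pool.Agent.Q299.FAL (vc XL XL_apply lower fa fb gau_ne n1_add n2_add n1_smul n2_smul dn_add dn_smul
  n12)

variable {c : ℕ}

lemma bel_add_left (α u u' x : Fin 6 → ℝ) : bel α (u + u') x = bel α u x + bel α u' x := by
  unfold bel
  rw [← sum_add_distrib]
  refine sum_congr rfl fun i _ => ?_
  rw [dn_add, Pi.add_apply]
  ring

lemma bel_smul_left (r : ℝ) (α u x : Fin 6 → ℝ) : bel α (r • u) x = r * bel α u x := by
  unfold bel
  rw [mul_sum]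
  refine sum_congr rfl fun i _ => ?_
  rw [dn_smul, Pi.smul_apply, smul_eq_mul]
  ring

lemma bel_comm (α u x : Fin 6 → ℝ) : bel α u x = bel α x u := by
  unfold bel
  refine sum_congr rfl fun i _ => ?_
  ring

lemma bel_zero (α x : Fin 6 → ℝ) : bel α 0 x = 0 := by
  have := bel_smul_left 0 α 0 x
  rwa [zero_smul, zero_mul] at this

/-- the bilinear form of a net in coordinates -/
noncomputable def BF {d : ℕ} (a : Fin c → Fin 6 → ℝ) (E : Fin d → Fin c → Fin 6 → ℤ) :
    (Fin d → ℝ) →ₗ[ℝ] (Fin d → ℝ) →ₗ[ℝ] ℝ :=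
  LinearMap.mk₂ ℝ (fun τ τ' => ∑ b, bel (a b) (XL E τ b) (XL E τ' b))
    (fun x y z => by
      rw [map_add, ← sum_add_distrib]
      exact sum_congr rfl fun b _ => bel_add_left _ _ _ _)
    (fun r x z => by
      rw [map_smul, smul_eq_mul, mul_sum]
      exact sum_congr rfl fun b _ => bel_smul_left _ _ _ _)
    (fun x y z => by
      rw [map_add, ← sum_add_distrib]
      refine sum_congr rfl fun b _ => ?_
      rw [bel_comm, Pi.add_apply, bel_add_left, bel_comm, bel_comm (a b) (XL E z b)])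
    (fun r x z => by
      rw [map_smul, smul_eq_mul, mul_sum]
      refine sum_congr rfl fun b _ => ?_
      rw [bel_comm, Pi.smul_apply, bel_smul_left, bel_comm])

lemma BF_apply {d : ℕ} (a : Fin c → Fin 6 → ℝ) (E : Fin d → Fin c → Fin 6 → ℤ) (τ τ' : Fin d → ℝ) :
    BF a E τ τ' = ∑ b, bel (a b) (XL E τ b) (XL E τ' b) := rfl

/-- the linear form of a belt -/
noncomputable def lf {d : ℕ} (E : Fin d → Fin c → Fin 6 → ℤ) (b : Fin c) : (Fin d → ℝ) →ₗ[ℝ] ℝ where
  toFun τ := n1 (XL E τ b)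
  map_add' x y := by rw [map_add, Pi.add_apply, n1_add]
  map_smul' r x := by rw [map_smul, Pi.smul_apply, n1_smul]; rfl

lemma lf_apply {d : ℕ} (E : Fin d → Fin c → Fin 6 → ℤ) (b : Fin c) (τ : Fin d → ℝ) :
    lf E b τ = n1 (XL E τ b) := rfl

/-- criticality at one belt -/
lemma crit_belt {X : Net c} {p a : Fin c → Fin 6 → ℝ} (hCR : S_CR) (hp : X.Good p) (hT : X.Top p a)
    (b : Fin c) (h1 : a b 1 ≠ 0) (h2 : a b 2 ≠ 0) :
    Real.tan (Real.pi * a b 1) * Real.tan (Real.pi * a b 5) =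
      Real.tan (Real.pi * a b 4) * Real.tan (Real.pi * a b 2) := by
  have hTp := Pool.Agent.Q280.FAL.tp_of hp hT
  have m1 : eij b 1 4 ∈ X.L := hp.z1 b fun h => h1 ((hTp.zer b 1).2 h)
  have m2 : eij b 2 5 ∈ X.L := hp.z2 b fun h => h2 ((hTp.zer b 2).2 h)
  have m : toR (eij b 1 4 - eij b 2 5) ∈ X.LR := Submodule.subset_span ⟨_, X.L.sub_mem m1 m2, rfl⟩
  have h := hCR c X p hp a hT.1 hT.2.1 hT.2.2 _ m
  have hval : ∀ i, toR (eij b 1 4 - eij b 2 5) b i = (![0, 1, -1, 0, -1, 1] : Fin 6 → ℝ) i := by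
    intro i
    fin_cases i <;> simp [toR, eij]
  have hoff : ∀ b', b' ≠ b → toR (eij b 1 4 - eij b 2 5) b' = 0 := by
    intro b' hb
    funext i
    simp [toR, eij, hb]
  rw [sum_eq_single b] at h
  · rw [show toR (eij b 1 4 - eij b 2 5) b = (![0, 1, -1, 0, -1, 1] : Fin 6 → ℝ) from funext hval] at h
    have e1 : ∀ i, dn (![0, 1, -1, 0, -1, 1] : Fin 6 → ℝ) i = 0 := by
      intro i
      unfold dn n1 n2
      split_ifs
      · show (0 : ℝ) + -1 + 1 = 0
        ring
      · show (0 : ℝ) + 1 + -1 = 0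
        ring
    simp only [e1, mul_zero, add_zero] at h
    rw [Fin.sum_univ_six] at h
    simp only [Matrix.cons_val_zero, Matrix.cons_val_one, Matrix.cons_val] at h
    have hle : ∀ i, a b i ≤ 1 / 2 := fun i => MX.ang_le hT.1 _ _
    have c4 : a b 4 ≠ 0 := fun h => h1 ((hTp.s1 b).2 h)
    have c5 : a b 5 ≠ 0 := fun h => h2 ((hTp.s2 b).2 h)
    have hh1 := hTp.h1 b
    have hh2 := hTp.h2 b
    unfold n1 at hh1
    unfold n2 at hh2
    have q0 := hTp.nn b 0
    have q3 := hTp.nn b 3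
    have p1 : 0 < a b 1 := lt_of_le_of_ne (hTp.nn b 1) (Ne.symm h1)
    have p2 : 0 < a b 2 := lt_of_le_of_ne (hTp.nn b 2) (Ne.symm h2)
    have p4 : 0 < a b 4 := lt_of_le_of_ne (hTp.nn b 4) (Ne.symm c4)
    have p5 : 0 < a b 5 := lt_of_le_of_ne (hTp.nn b 5) (Ne.symm c5)
    have T1 := (Pool.Agent.Q299.FAL.cot_pos' p1 (by linarith)).2
    have T2 := (Pool.Agent.Q299.FAL.cot_pos' p2 (by linarith)).2
    have T4 := (Pool.Agent.Q299.FAL.cot_pos' p4 (by linarith)).2
    have T5 := (Pool.Agent.Q299.FAL.cot_pos' p5 (by linarith)).2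
    have h3 : Real.log (Real.tan (Real.pi * a b 1) * Real.tan (Real.pi * a b 5)) =
        Real.log (Real.tan (Real.pi * a b 4) * Real.tan (Real.pi * a b 2)) := by
      rw [Real.log_mul T1.ne' T5.ne', Real.log_mul T4.ne' T2.ne']
      linarith
    exact Real.log_injOn_pos (Set.mem_Ioi.2 (by positivity)) (Set.mem_Ioi.2 (by positivity)) h3
  · intro b' _ hb
    rw [hoff b' hb]
    refine sum_eq_zero fun i _ => ?_
    have : dn (0 : Fin 6 → ℝ) i = 0 := by
      unfold dn n1 n2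
      simp
    rw [this, Pi.zero_apply, mul_zero, mul_zero, add_zero]
  · intro h'
    exact absurd (mem_univ b) h'

/-- **the weighted Gaussian integral does not vanish** -/
theorem int_ne {X : Net c} {p a : Fin c → Fin 6 → ℝ} (hGI : S_GI) (hCR : S_CR) (hp : X.Good p)
    (hT : X.Top p a) {d : ℕ} (E : Fin d → Fin c → Fin 6 → ℤ)
    (h1 : ∀ t : Fin d → ℤ, (∑ j, t j • E j) ∈ X.L)
    (h3 : ∀ τ : Fin d → ℝ, (∑ j, τ j • toR (E j)) = 0 → τ = 0)
    (h4 : ∀ x ∈ X.LR, ∃ τ : Fin d → ℝ, x = ∑ j, τ j • toR (E j)) (w : Fin c → ℝ) :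
    ∫ τ : Fin d → ℝ, ((∏ b, (Real.pi * (n1 (XL E τ b) - n2 (XL E τ b)) ^ 2) : ℝ) : ℂ) *
      gau w a (XL E τ) ≠ 0 := by
  classical
  have hTp := Pool.Agent.Q280.FAL.tp_of hp hT
  have hEL : ∀ j, E j ∈ X.L := by
    intro j
    have := h1 (Pi.single j 1)
    rwa [sum_eq_single j (fun i _ hi => by rw [Pi.single_eq_of_ne hi, zero_smul])
      (fun h => absurd (mem_univ _) h), Pi.single_eq_same, one_smul] at this
  have hXL : ∀ τ, XL E τ ∈ X.LR := by
    intro τ
    rw [XL_apply]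
    exact X.LR.sum_mem fun j _ => X.LR.smul_mem _ (Submodule.subset_span ⟨_, hEL j, rfl⟩)
  have hn12 : ∀ τ b, n2 (XL E τ b) = -n1 (XL E τ b) := by
    intro τ b
    have := n12 hp _ (hXL τ) b
    linarith
  choose s t Λ hst hs ht hΛ hsp using fun b => belt_split (hTp.nn b) (hTp.h1 b) (hTp.h2 b) (hTp.s1 b)
    (hTp.s2 b) (hTp.s3 b) (hTp.s4 b) (crit_belt hCR hp hT b)
  -- the directions
  let u : Fin c → Fin c → Fin 6 → ℝ := fun b b' => if b' = b then ![0, s b, t b, 0, -s b, -t b] else 0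
  have hu : ∀ b, u b ∈ X.LR := by
    intro b
    have e : u b = s b • toR (eij b 1 4) + t b • toR (eij b 2 5) := by
      funext b' i
      simp only [u, Pi.add_apply, Pi.smul_apply, smul_eq_mul, toR, eij]
      by_cases hb : b' = b
      · rw [if_pos hb, if_pos hb, if_pos hb]
        fin_cases i <;> simp
      · rw [if_neg hb, if_neg hb, if_neg hb]
        simp
    rw [e]
    refine X.LR.add_mem ?_ ?_
    · by_cases h : a b 1 = 0
      · rw [hs b h, zero_smul]
        exact X.LR.zero_mem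
      · exact X.LR.smul_mem _ (Submodule.subset_span ⟨_, hp.z1 b fun h' => h ((hTp.zer b 1).2 h'), rfl⟩)
    · by_cases h : a b 2 = 0
      · rw [ht b h, zero_smul]
        exact X.LR.zero_mem
      · exact X.LR.smul_mem _ (Submodule.subset_span ⟨_, hp.z2 b fun h' => h ((hTp.zer b 2).2 h'), rfl⟩)
  choose σ hσ using fun b => h4 _ (hu b)
  have hσ' : ∀ b, XL E (σ b) = u b := fun b => by rw [XL_apply, ← hσ b]
  have hBu : ∀ b τ, ∑ b', bel (a b') (u b b') (XL E τ b') = Λ b * lf E b τ := by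
    intro b τ
    rw [sum_eq_single b]
    · have e : u b b = ![0, s b, t b, 0, -s b, -t b] := if_pos rfl
      rw [e, lf_apply]
      refine hsp b _ (n12 hp _ (hXL τ) b) fun i hi => ?_
      exact MX.LR_zero (fun δ hδ => hp.zero δ hδ b i ((hTp.zer b i).1 hi)) _ (hXL τ)
    · intro b' _ hb
      have e : u b b' = 0 := if_neg hb
      rw [e, bel_zero]
    · intro h
      exact absurd (mem_univ b) h
  have hBq : ∀ τ, BF a E τ τ = ∑ b, ∑ i, Real.pi / 2 * (Real.cot (Real.pi * a b i) *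
      XL E τ b i ^ 2 + Real.tan (Real.pi * a b i) * (dn (XL E τ b) i - XL E τ b i) ^ 2) := by
    intro τ
    rw [BF_apply]
    refine sum_congr rfl fun b _ => ?_
    unfold bel
    refine sum_congr rfl fun i _ => ?_
    ring
  have hgau : ∀ τ, gau w a (XL E τ) = Complex.exp ((-(BF a E τ τ) : ℝ) +
      (∑ b, (Real.pi * w b) * lf E b τ ^ 2 : ℝ) * Complex.I) := by
    intro τ
    unfold gau
    rw [hBq]
    have e : ∑ b, Real.pi * w b / 4 * (n1 (XL E τ b) - n2 (XL E τ b)) ^ 2 =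
        ∑ b, (Real.pi * w b) * lf E b τ ^ 2 := by
      refine sum_congr rfl fun b _ => ?_
      rw [hn12, lf_apply]
      ring
    rw [e]
  have hmain := split_ne (BF a E) (lf E) σ Λ (fun b => Real.pi * w b) hΛ ?_ ?_ ?_ ?_
  · have e : ∀ τ : Fin d → ℝ, ((∏ b, (Real.pi * (n1 (XL E τ b) - n2 (XL E τ b)) ^ 2) : ℝ) : ℂ) *
        gau w a (XL E τ) = (((4 * Real.pi) ^ c : ℝ) : ℂ) * (((∏ b, lf E b τ ^ 2 : ℝ) : ℂ) *
        Complex.exp ((-(BF a E τ τ) : ℝ) + (∑ b, (Real.pi * w b) * lf E b τ ^ 2 : ℝ) *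
          Complex.I)) := by
      intro τ
      rw [hgau, ← mul_assoc, ← Complex.ofReal_mul]
      congr 2
      have e1 : ∏ b, (Real.pi * (n1 (XL E τ b) - n2 (XL E τ b)) ^ 2) =
          ∏ b : Fin c, ((4 * Real.pi) * lf E b τ ^ 2) := by
        refine prod_congr rfl fun b _ => ?_
        rw [hn12, lf_apply]
        ring
      rw [e1, prod_mul_distrib, prod_const, card_univ, Fintype.card_fin]
    simp only [e]
    rw [integral_const_mul]
    refine mul_ne_zero ?_ hmain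
    have : (0 : ℝ) < (4 * Real.pi) ^ c := by positivity
    exact_mod_cast this.ne'
  · intro b b'
    rw [lf_apply, hσ']
    by_cases hb : b = b'
    · rw [if_pos hb]
      have e : u b' b = ![0, s b', t b', 0, -s b', -t b'] := if_pos hb
      rw [e]
      show (0 : ℝ) + s b' + t b' = 1
      rw [zero_add]
      exact hst b'
    · rw [if_neg hb]
      have e : u b' b = 0 := if_neg hb
      rw [e]
      show (0 : ℝ) + 0 + 0 = 0
      ring
  · intro b τ
    rw [BF_apply, hσ']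
    exact hBu b τ
  · intro b τ
    rw [BF_apply, hσ', ← hBu b τ]
    exact sum_congr rfl fun b' _ => bel_comm _ _ _
  · have := gau_ne hGI hp hT.1 hT.2.1 E h1 h3 w
    simp only [hgau] at this
    exact this

/-- **the weighted state sum of a net does not vanish for large `N`** -/
theorem net_w (X : Net c) (p : Fin c → Fin 6 → ℝ) (w : Fin c → ℝ) (hp : X.Good p) :
    ∀ᶠ N : ℕ in atTop, ZT X (fun v => ((zw N v : ℝ) : ℂ) * tN w N v) N ≠ 0 := by
  have hCR : S_CR := Pool.Agent.Q299.FAL.task_CR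
  obtain ⟨a, ha, hz, hmax⟩ := task_MAX c X p hp
  have hT : X.Top p a := ⟨ha, hz, hmax⟩
  have hTp := Pool.Agent.Q280.FAL.tp_of hp hT
  obtain ⟨C0, κ0, hκ0, hNB'⟩ := Pool.Agent.Q280.FAL.task_NB task_T1 hCR c X p a w hp hT
  obtain ⟨c0, hc0, hNL'⟩ := Pool.Agent.Q280.FAL.task_NL task_T2 hCR c X p a w hp hT
  obtain ⟨C1, hC1, hzw⟩ := zw_bound (c := c) (κ := κ0 / 2) (by positivity)
  obtain ⟨E, h1, h2, h3, h4, hlim⟩ := net_gen Pool.Agent.Q299.FAL.task_LB X a ha
    (fun N v => ((√N ^ nV p * Real.exp (-(N * fV a)) : ℝ) : ℂ) * (((zw N v : ℝ) : ℂ) * tN w N v))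
    (fun x => ((∏ b, (Real.pi * (n1 (x b) - n2 (x b)) ^ 2) : ℝ) : ℂ) * (c0 * gau w a x))
    (fun N hN v b i h => by
      rw [Pool.Agent.Q299.FAL.tN_zero h, mul_zero, mul_zero])
    (C1 * |C0|) (κ0 / 2) (by positivity)
    (fun N hN a' ha' => by
      have hN0 : (0 : ℝ) < N := by exact_mod_cast hN
      have g1 := hNB' N hN a' ha'
      have g2 := hzw N hN a a' hTp.h1 hTp.h2
      have e : ((√N ^ nV p * Real.exp (-(N * fV a)) : ℝ) : ℂ) * (((zw N a' : ℝ) : ℂ) * tN w N a') =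
          ((zw N a' : ℝ) : ℂ) * (((√N ^ nV p * Real.exp (-(N * fV a)) : ℝ) : ℂ) * tN w N a') := by ring
      rw [e, norm_mul, Complex.norm_real, Real.norm_eq_abs]
      set Q : ℝ := (∑ b, ∑ i, ((a' b i : ℝ) - N * a b i) ^ 2) / N with hQ
      calc |zw N a'| * ‖((√N ^ nV p * Real.exp (-(N * fV a)) : ℝ) : ℂ) * tN w N a'‖
          ≤ (C1 * Real.exp (κ0 / 2 * Q)) * (|C0| * Real.exp (-κ0 * Q)) := by
            refine mul_le_mul g2 (g1.trans ?_) (norm_nonneg _) (by positivity)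
            exact mul_le_mul_of_nonneg_right (le_abs_self _) (Real.exp_pos _).le
        _ = C1 * |C0| * Real.exp (-(κ0 / 2) * Q) := by
            have : Real.exp (-(κ0 / 2) * Q) = Real.exp (κ0 / 2 * Q) * Real.exp (-κ0 * Q) := by
              rw [← Real.exp_add]
              congr 1
              ring
            rw [this]
            ring)
    (fun a' x ha' hx _ => by
      have g1 := hNL' a' x ha' hx
      have g2 := (Complex.continuous_ofReal.tendsto _).comp (zw_lim hTp.h1 hTp.h2 hx)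
      have g3 := g2.mul g1
      refine g3.congr fun N => ?_
      simp only [Function.comp]
      ring)
  have hne : ∫ τ : Fin (Module.finrank ℤ X.L) → ℝ,
      ((∏ b, (Real.pi * (n1 (XL E τ b) - n2 (XL E τ b)) ^ 2) : ℝ) : ℂ) *
        (c0 * gau w a (XL E τ)) ≠ 0 := by
    have e : ∀ τ : Fin (Module.finrank ℤ X.L) → ℝ,
        ((∏ b, (Real.pi * (n1 (XL E τ b) - n2 (XL E τ b)) ^ 2) : ℝ) : ℂ) * (c0 * gau w a (XL E τ)) =
        (c0 : ℂ) * (((∏ b, (Real.pi * (n1 (XL E τ b) - n2 (XL E τ b)) ^ 2) : ℝ) : ℂ) *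
          gau w a (XL E τ)) := fun τ => by ring
    simp only [e]
    rw [integral_const_mul]
    exact mul_ne_zero (by exact_mod_cast hc0.ne')
      (int_ne Pool.Agent.Q299.FAL.task_GI hCR hp hT E h1 h3 h4 w)
  filter_upwards [hlim.eventually_ne hne] with N hN h0
  apply hN
  have e : ZT X (fun v => ((√N ^ nV p * Real.exp (-(N * fV a)) : ℝ) : ℂ) *
      (((zw N v : ℝ) : ℂ) * tN w N v)) N = ((√N ^ nV p * Real.exp (-(N * fV a)) : ℝ) : ℂ) *
      ZT X (fun v => ((zw N v : ℝ) : ℂ) * tN w N v) N := by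
    unfold ZT
    rw [mul_sum]
    refine sum_congr rfl fun x _ => ?_
    split_ifs
    · rfl
    · rw [mul_zero]
  rw [e, h0, mul_zero, mul_zero]

end Pool.Agent.KS6_92.Wt
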