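import Pool.Agent.KS6_92.Wt4
import Pool.Graph.R_pool_sql_team_seeded_3997aac3.Q224.FAL.GD
import Pool.Graph.R_pool_sql_team_seeded_3997aac3.Q239.HU.SB
import Pool.Graph.R_pool_sql_team_seeded_3997aac3.Q208.KN.SY

/-!
# The linear part of the weights of the twist regions
-/

set_option autoImplicit false

namespace Pool.Agent.KS6_92.Wt

open Finset Filter Topology
open Pool.Agent.Q191.TW (cs)
open Pool.Agent.Q99.FAL
open Pool.Agent.Q99.KN (sn bc Wk zl ez Fk)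

/-- the part of the weight which is linear in the number of crossings -/
noncomputable def FL (N : ℕ) (w : ℤ) (A β C : ℕ) : ℂ :=
  ∑ k ∈ range N, Complex.I * Real.pi / (2 * N) * ((zl N k * Complex.sin (Real.pi * zl N k / N)) *
    (ez N w (zl N k) * Wk N (zl N k) A β C))

/-- the constant part of the weight -/
noncomputable def FS (N : ℕ) (w : ℤ) (A β C : ℕ) : ℂ :=
  ∑ k ∈ range N, ez N w (zl N k) *
    deriv (fun z : ℂ => Complex.sin (Real.pi * z / N) * Wk N z A β C) (zl N k)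

lemma zl_int (N k : ℕ) : zl N k = ((2 * (k : ℤ) + 1 - N : ℤ) : ℂ) := by
  unfold zl
  push_cast
  ring

lemma Wk_diff (N A β C : ℕ) : Differentiable ℂ fun z : ℂ => Wk N z A β C :=
  fun z => Pool.Agent.Q208.KN.Wk_an N A β C z

lemma ez_diff (N : ℕ) (w : ℤ) (z : ℂ) : HasDerivAt (ez N w)
    (ez N w z * (Complex.I * Real.pi * w * (2 * z) / (4 * N))) z := by
  unfold ez
  have h1 : HasDerivAt (fun z : ℂ => Complex.I * Real.pi * w * z ^ 2 / (4 * N))
      (Complex.I * Real.pi * w * (2 * z) / (4 * N)) z := by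
    have := ((((hasDerivAt_id z).pow 2).const_mul (Complex.I * Real.pi * w))).div_const (4 * (N : ℂ))
    simpa using this
  exact h1.cexp

lemma Fk_eq (N : ℕ) (w : ℤ) (A β C : ℕ) : Fk N w A β C = w * FL N w A β C + FS N w A β C := by
  unfold Fk FL FS
  rw [mul_sum, ← sum_add_distrib]
  refine sum_congr rfl fun k _ => ?_
  have hd : DifferentiableAt ℂ (fun z : ℂ => Complex.sin (Real.pi * z / N) * Wk N z A β C) (zl N k) := by
    refine DifferentiableAt.mul ?_ (Wk_diff N A β C _)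
    fun_prop
  have h1 : (fun z : ℂ => ez N w z * Complex.sin (Real.pi * z / N) * Wk N z A β C) =
      fun z : ℂ => ez N w z * (Complex.sin (Real.pi * z / N) * Wk N z A β C) := by
    funext z
    ring
  have h2 := ((ez_diff N w (zl N k)).mul hd.hasDerivAt).deriv
  have h3 : (ez N w * fun z => Complex.sin (Real.pi * z / N) * Wk N z A β C) =
      fun z : ℂ => ez N w z * (Complex.sin (Real.pi * z / N) * Wk N z A β C) := rfl
  rw [h3] at h2
  rw [h1, h2]
  by_cases hN : (N : ℂ) = 0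
  · rw [hN]
    simp
  · field_simp
    ring

lemma ez_per {N : ℕ} (hN : 0 < N) (w m : ℤ) (k : ℕ) :
    ez N (w + 8 * N * m) (zl N k) = ez N w (zl N k) := by
  unfold ez
  rw [Complex.exp_eq_exp_iff_exists_int, zl_int]
  refine ⟨m * (2 * (k : ℤ) + 1 - N) ^ 2, ?_⟩
  have hN' : (N : ℂ) ≠ 0 := by exact_mod_cast hN.ne'
  push_cast
  field_simp
  ring

lemma FL_per {N : ℕ} (hN : 0 < N) (w m : ℤ) (A β C : ℕ) : FL N (w + 8 * N * m) A β C = FL N w A β C := by
  unfold FL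
  refine sum_congr rfl fun k _ => ?_
  rw [ez_per hN]

lemma FS_per {N : ℕ} (hN : 0 < N) (w m : ℤ) (A β C : ℕ) : FS N (w + 8 * N * m) A β C = FS N w A β C := by
  unfold FS
  refine sum_congr rfl fun k _ => ?_
  rw [ez_per hN]

/-- the linear part of the weight of a region -/
noncomputable def tpL (N : ℕ) (w : ℤ) (x : Fin 6 → ℤ) : ℂ :=
  if x 4 = 0 ∧ x 5 = 0 then FL N w (x 0).toNat (x 1).toNat (x 3).toNat else 0

/-- the constant part of the weight of a region -/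
noncomputable def tpS (N : ℕ) (w : ℤ) (x : Fin 6 → ℤ) : ℂ :=
  if x 4 = 0 ∧ x 5 = 0 then FS N w (x 0).toNat (x 1).toNat (x 3).toNat else 0

lemma tp_eq (N : ℕ) (w : ℤ) (x : Fin 6 → ℤ) :
    Pool.Agent.Q99.HT.tp N w x = w * tpL N w x + tpS N w x := by
  unfold Pool.Agent.Q99.HT.tp tpL tpS
  split_ifs
  · exact Fk_eq _ _ _ _ _
  · ring

/-- the six angle form of the linear part -/
noncomputable def gW (N : ℕ) (w : ℤ) (x : Fin 6 → ℤ) : ℂ :=
  ((((n1 x - n2 x : ℤ) : ℝ) * Real.sin (Real.pi * ((n1 x - n2 x : ℤ) : ℝ) / N) : ℝ) : ℂ) * wt6 N w x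

/-! ### one region -/

lemma bq_sym' {N n y z : ℕ} (hn : n < N) (h : y + z = n) : bq N n y = bq N n z := by
  have h1 := Pool.Agent.Q239.HU.bq_symm (N := N) (n := n) (x := y) hn (by omega)
  rw [← h1]
  congr 2
  omega

lemma Wk_lat {N A β C k m : ℕ} (hkm : k + m + 1 = N) (hs : A + β + C < N) :
    Wk N (zl N k) A β C = ∑ b ∈ range (β + 1),
      (((bq N m A * bq N k C) * (bq N k b * bq N m (β - b : ℕ)) *
        (bq N k (A + b : ℕ) * bq N m (C + (β - b) : ℕ)) : ℝ) : ℂ) := by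
  unfold Wk
  refine sum_congr rfl fun b hb => ?_
  have hb' : b < β + 1 := mem_range.1 hb
  have hN : (N : ℂ) = k + m + 1 := by exact_mod_cast hkm.symm
  have e1 : ((N : ℂ) - 1 - zl N k) / 2 = (m : ℕ) := by
    unfold zl
    rw [hN]
    ring
  have e2 : ((N : ℂ) - 1 + zl N k) / 2 = (k : ℕ) := by
    unfold zl
    rw [hN]
    ring
  rw [e1, e2]
  rw [Pool.Agent.Q208.HT.bc_val (by omega) (by omega), Pool.Agent.Q208.HT.bc_val (by omega) (by omega),
    Pool.Agent.Q208.HT.bc_val (by omega) (by omega), Pool.Agent.Q208.HT.bc_val (by omega) (by omega),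
    Pool.Agent.Q208.HT.bc_val (by omega) (by omega), Pool.Agent.Q208.HT.bc_val (by omega) (by omega)]
  push_cast
  rfl

/-- the corners of six angles -/
lemma cor_iff {N : ℕ} (x : Fin 6 → Fin N) (A β C γ : ℕ) :
    cor (zz x) = ![(A : ℤ), (β : ℤ), (C : ℤ), (γ : ℤ)] ↔
      (x 0 : ℕ) = A ∧ (x 1 : ℕ) + x 4 = β ∧ (x 3 : ℕ) = C ∧ (x 2 : ℕ) + x 5 = γ := by
  constructor
  · intro h
    have h0 := congrFun h 0
    have h1 := congrFun h 1
    have h2 := congrFun h 2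
    have h3 := congrFun h 3
    simp only [cor, zz, Matrix.cons_val_zero, Matrix.cons_val_one, Matrix.cons_val] at h0 h1 h2 h3
    omega
  · rintro ⟨h0, h1, h2, h3⟩
    funext i
    fin_cases i
    · show ((x 0 : ℕ) : ℤ) = A
      omega
    · show ((x 1 : ℕ) : ℤ) + ((x 4 : ℕ) : ℤ) = β
      omega
    · show ((x 3 : ℕ) : ℤ) = C
      omega
    · show ((x 2 : ℕ) : ℤ) + ((x 5 : ℕ) : ℤ) = γ
      omega

lemma fib_one {N A β C γ : ℕ} (hs : A + β + C + γ + 1 = N) (w : ℤ) :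
    ∑ x ∈ (univ : Finset (Fin 6 → Fin N)).filter
      (fun x => cor (zz x) = ![(A : ℤ), (β : ℤ), (C : ℤ), (γ : ℤ)]), tpL N w (zz x) =
      FL N w A β C := by
  have hA : A < N := by omega
  have hβ : β < N := by omega
  have hC : C < N := by omega
  have hγ : γ < N := by omega
  have h0 : 0 < N := by omega
  rw [sum_eq_single (![⟨A, hA⟩, ⟨β, hβ⟩, ⟨γ, hγ⟩, ⟨C, hC⟩, ⟨0, h0⟩, ⟨0, h0⟩] : Fin 6 → Fin N)]
  · unfold tpL
    rw [if_pos ⟨rfl, rfl⟩]
    rfl
  · intro x hx hne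
    rw [mem_filter, cor_iff] at hx
    obtain ⟨-, h1, h2, h3, h4⟩ := hx
    unfold tpL
    rw [if_neg]
    rintro ⟨h5, h6⟩
    have h5' : (x 4 : ℕ) = 0 := by
      have : ((x 4 : ℕ) : ℤ) = 0 := h5
      exact_mod_cast this
    have h6' : (x 5 : ℕ) = 0 := by
      have : ((x 5 : ℕ) : ℤ) = 0 := h6
      exact_mod_cast this
    apply hne
    funext i
    apply Fin.ext
    fin_cases i
    · exact h1
    · show (x 1 : ℕ) = β
      omega
    · show (x 2 : ℕ) = γ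
      omega
    · exact h3
    · exact h5'
    · exact h6'
  · intro h
    exfalso
    apply h
    rw [mem_filter, cor_iff]
    refine ⟨mem_univ _, rfl, ?_, rfl, ?_⟩
    · show β + 0 = β
      rfl
    · show γ + 0 = γ
      rfl

/-- the terms of the six angle form -/
noncomputable def tkb (N : ℕ) (w : ℤ) (A β C : ℕ) (q : ℕ × ℕ) : ℂ :=
  (zl N q.1 * Complex.sin (Real.pi * zl N q.1 / N)) * (ez N w (zl N q.1) *
    (((bq N ((N - 1 - q.1 : ℕ) : ℤ) A * bq N q.1 C) * (bq N q.1 q.2 * bq N ((N - 1 - q.1 : ℕ) : ℤ) (β - q.2 : ℕ)) *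
        (bq N q.1 (A + q.2 : ℕ) * bq N ((N - 1 - q.1 : ℕ) : ℤ) (C + (β - q.2) : ℕ)) : ℝ) : ℂ))

lemma fib_two {N A β C γ : ℕ} (hs : A + β + C + γ + 1 = N) (w : ℤ) :
    ∑ x ∈ (univ : Finset (Fin 6 → Fin N)).filter
      (fun x => cor (zz x) = ![(A : ℤ), (β : ℤ), (C : ℤ), (γ : ℤ)]), gW N w (zz x) =
      ∑ k ∈ range N, (zl N k * Complex.sin (Real.pi * zl N k / N)) *
        (ez N w (zl N k) * Wk N (zl N k) A β C) := by
  classical
  have hN0 : 0 < N := by omega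
  have h1 : ∑ k ∈ range N, (zl N k * Complex.sin (Real.pi * zl N k / N)) *
      (ez N w (zl N k) * Wk N (zl N k) A β C) =
      ∑ q ∈ range N ×ˢ range (β + 1), tkb N w A β C q := by
    rw [sum_product]
    refine sum_congr rfl fun k hk => ?_
    have hk' := mem_range.1 hk
    rw [Wk_lat (m := N - 1 - k) (by omega) (by omega), mul_sum, mul_sum]
    rfl
  have h2 : ∑ q ∈ range N ×ˢ range (β + 1), tkb N w A β C q =
      ∑ q ∈ (range N ×ˢ range (β + 1)).filter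
        (fun q => A + q.2 ≤ q.1 ∧ C + (β - q.2) ≤ N - 1 - q.1), tkb N w A β C q := by
    rw [sum_filter]
    refine sum_congr rfl fun q hq => ?_
    split_ifs with h
    · rfl
    · unfold tkb
      rcases not_and_or.1 h with h | h
      · rw [Pool.Agent.Q208.HT.bq_zero (N := N) (n := q.1) (y := A + q.2) (by omega)]
        simp
      · rw [Pool.Agent.Q208.HT.bq_zero (N := N) (n := N - 1 - q.1) (y := C + (β - q.2)) (by omega)]
        simp
  rw [h1, h2]
  refine sum_bij (fun x _ => ((x 0 : ℕ) + x 1 + x 2, (x 1 : ℕ))) ?_ ?_ ?_ ?_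
  · intro x hx
    rw [mem_filter, cor_iff] at hx
    obtain ⟨-, g1, g2, g3, g4⟩ := hx
    rw [mem_filter, mem_product, mem_range, mem_range]
    show ((x 0 : ℕ) + x 1 + x 2 < N ∧ (x 1 : ℕ) < β + 1) ∧
      A + (x 1 : ℕ) ≤ (x 0 : ℕ) + x 1 + x 2 ∧ C + (β - (x 1 : ℕ)) ≤ N - 1 - ((x 0 : ℕ) + x 1 + x 2)
    omega
  · intro x hx y hy hxy
    rw [mem_filter, cor_iff] at hx hy
    obtain ⟨-, g1, g2, g3, g4⟩ := hx
    obtain ⟨-, k1, k2, k3, k4⟩ := hy
    have e1 : (x 0 : ℕ) + x 1 + x 2 = (y 0 : ℕ) + y 1 + y 2 := congrArg Prod.fst hxy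
    have e2 : (x 1 : ℕ) = (y 1 : ℕ) := congrArg Prod.snd hxy
    funext i
    apply Fin.ext
    fin_cases i
    · show (x 0 : ℕ) = y 0
      omega
    · show (x 1 : ℕ) = y 1
      omega
    · show (x 2 : ℕ) = y 2
      omega
    · show (x 3 : ℕ) = y 3
      omega
    · show (x 4 : ℕ) = y 4
      omega
    · show (x 5 : ℕ) = y 5
      omega
  · rintro ⟨k, b⟩ hq
    rw [mem_filter, mem_product, mem_range, mem_range] at hq
    obtain ⟨⟨q1, q2⟩, q3, q4⟩ := hq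
    simp only at q1 q2 q3 q4
    refine ⟨![⟨A, by omega⟩, ⟨b, by omega⟩, ⟨k - A - b, by omega⟩, ⟨C, by omega⟩, ⟨β - b, by omega⟩,
      ⟨N - 1 - k - C - (β - b), by omega⟩], ?_, ?_⟩
    · rw [mem_filter, cor_iff]
      refine ⟨mem_univ _, rfl, ?_, rfl, ?_⟩
      · show b + (β - b) = β
        omega
      · show k - A - b + (N - 1 - k - C - (β - b)) = γ
        omega
    · show (A + b + (k - A - b), b) = (k, b)
      congr 1
      omega
  · intro x hx
    rw [mem_filter, cor_iff] at hx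
    obtain ⟨-, g1, g2, g3, g4⟩ := hx
    obtain ⟨k, hk⟩ : ∃ k, k = (x 0 : ℕ) + x 1 + x 2 := ⟨_, rfl⟩
    obtain ⟨m, hm⟩ : ∃ m, m = (x 3 : ℕ) + x 4 + x 5 := ⟨_, rfl⟩
    have hkm : k + m + 1 = N := by omega
    have e1 : n1 (zz x) = (k : ℤ) := by
      show ((x 0 : ℕ) : ℤ) + ((x 1 : ℕ) : ℤ) + ((x 2 : ℕ) : ℤ) = k
      omega
    have e2 : n2 (zz x) = (m : ℤ) := by
      show ((x 3 : ℕ) : ℤ) + ((x 4 : ℕ) : ℤ) + ((x 5 : ℕ) : ℤ) = m
      omega
    have e3 : N - 1 - k = m := by omega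
    have hz : zl N k = ((((k : ℤ) - (m : ℤ) : ℤ) : ℝ) : ℂ) := by
      rw [zl_int]
      have : (2 * (k : ℤ) + 1 - N : ℤ) = (k : ℤ) - m := by omega
      rw [this]
      norm_cast
    show gW N w (zz x) = tkb N w A β C ((x 0 : ℕ) + x 1 + x 2, (x 1 : ℕ))
    rw [← hk]
    unfold gW wt6 tkb
    simp only
    rw [e1, e2, e3, hz]
    have hN' : (N : ℂ) ≠ 0 := by exact_mod_cast hN0.ne'
    have p1 : Complex.sin (Real.pi * ((((k : ℤ) - (m : ℤ) : ℤ) : ℝ) : ℂ) / N) =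
        ((Real.sin (Real.pi * (((k : ℤ) - (m : ℤ) : ℤ) : ℝ) / N) : ℝ) : ℂ) := by
      push_cast
      rfl
    have p2 : ez N w ((((k : ℤ) - (m : ℤ) : ℤ) : ℝ) : ℂ) =
        cs N ((w : ℝ) * ((((k : ℤ) - (m : ℤ) : ℤ) : ℝ)) ^ 2 / 4) := by
      unfold ez cs
      congr 1
      push_cast
      field_simp
    rw [p1, p2]
    have r2 : bq N (k : ℤ) (zz x 2) = bq N k (A + (x 1 : ℕ) : ℕ) := by
      show bq N (k : ℤ) ((x 2 : ℕ) : ℤ) = _
      exact bq_sym' (by omega) (by omega)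
    have r5 : bq N (m : ℤ) (zz x 5) = bq N m (C + (β - (x 1 : ℕ)) : ℕ) := by
      show bq N (m : ℤ) ((x 5 : ℕ) : ℤ) = _
      exact bq_sym' (by omega) (by omega)
    have r0 : zz x 0 = ((A : ℕ) : ℤ) := by
      show ((x 0 : ℕ) : ℤ) = _
      rw [g1]
    have r1 : zz x 1 = ((x 1 : ℕ) : ℤ) := rfl
    have r3 : zz x 3 = ((C : ℕ) : ℤ) := by
      show ((x 3 : ℕ) : ℤ) = _
      rw [g3]
    have r4 : zz x 4 = ((β - (x 1 : ℕ) : ℕ) : ℤ) := by
      show ((x 4 : ℕ) : ℤ) = _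
      congr 1
      omega
    rw [r2, r5, r0, r1, r3, r4]
    push_cast
    ring

lemma fib_eq {N A β C γ : ℕ} (hs : A + β + C + γ + 1 = N) (w : ℤ) :
    ∑ x ∈ (univ : Finset (Fin 6 → Fin N)).filter
      (fun x => cor (zz x) = ![(A : ℤ), (β : ℤ), (C : ℤ), (γ : ℤ)]), tpL N w (zz x) =
    ∑ x ∈ (univ : Finset (Fin 6 → Fin N)).filter
      (fun x => cor (zz x) = ![(A : ℤ), (β : ℤ), (C : ℤ), (γ : ℤ)]),
        Complex.I * Real.pi / (2 * N) * gW N w (zz x) := by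
  rw [fib_one hs, ← mul_sum, fib_two hs]
  unfold FL
  rw [mul_sum]

end Pool.Agent.KS6_92.Wt
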