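import Pool.Agent.KS6_92.Wt5
import Pool.Graph.R_pool_sql_team_seeded_3997aac3.Q237.FAL.OZ
import Pool.Graph.R_pool_sql_team_seeded_3997aac3.Q237.FAL.SUR
import Pool.Graph.R_pool_sql_team_seeded_3997aac3.Q237.FAL.SO
import Pool.Graph.R_pool_sql_team_seeded_3997aac3.Q237.FAL.NC
import Pool.Graph.R_pool_sql_team_seeded_3997aac3.Q299.FAL.SP

/-!
# The leading coefficient of the Kashaev state sum does not vanish for large `N`
-/

set_option autoImplicit false

namespace Pool.Agent.KS6_92.Wt

open Finset Filter Topology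
open Pool.Agent.Q191.TW (cs)
open Pool.Agent.Q99.FAL
open Pool.Agent.Q224.FAL
open Pool.Agent.Q99.KN (sn bc Wk zl ez Fk)

open Classical in
/-- sums over six angles at each vertex under a condition on the corners -/
lemma regroup {c N : ℕ} (P : (Fin c → Fin 4 → ℤ) → Prop) (f g : Fin c → (Fin 6 → Fin N) → ℂ)
    (h : ∀ κ : Fin c → Fin 4 → ℤ, P κ → ∀ k,
      ∑ x ∈ (univ : Finset (Fin 6 → Fin N)).filter (fun x => cor (zz x) = κ k), f k x =
      ∑ x ∈ (univ : Finset (Fin 6 → Fin N)).filter (fun x => cor (zz x) = κ k), g k x) :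
    (∑ a : Fin c → Fin 6 → Fin N, if P (fun k => cor (zz (a k))) then ∏ k, f k (a k) else 0) =
    ∑ a : Fin c → Fin 6 → Fin N, if P (fun k => cor (zz (a k))) then ∏ k, g k (a k) else 0 := by
  have key : ∀ u : Fin c → (Fin 6 → Fin N) → ℂ,
      (∑ a : Fin c → Fin 6 → Fin N, if P (fun k => cor (zz (a k))) then ∏ k, u k (a k) else 0) =
      ∑ κ ∈ (univ : Finset (Fin c → Fin 6 → Fin N)).image (fun a k => cor (zz (a k))),
        if P κ then ∏ k, ∑ x ∈ (univ : Finset (Fin 6 → Fin N)).filter
          (fun x => cor (zz x) = κ k), u k x else 0 := by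
    intro u
    rw [← sum_fiberwise_of_maps_to (g := fun (a : Fin c → Fin 6 → Fin N) k => cor (zz (a k)))
      (t := (univ : Finset (Fin c → Fin 6 → Fin N)).image (fun a k => cor (zz (a k))))
      (fun a ha => mem_image_of_mem _ ha)]
    refine sum_congr rfl fun κ _ => ?_
    rw [prod_univ_sum]
    have e : (univ : Finset (Fin c → Fin 6 → Fin N)).filter (fun a => (fun k => cor (zz (a k))) = κ) =
        Fintype.piFinset fun k => (univ : Finset (Fin 6 → Fin N)).filter
          (fun x => cor (zz x) = κ k) := by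
      ext a
      rw [mem_filter, Fintype.mem_piFinset]
      constructor
      · rintro ⟨-, h1⟩ k
        rw [mem_filter]
        exact ⟨mem_univ _, congrFun h1 k⟩
      · intro h1
        refine ⟨mem_univ _, funext fun k => ?_⟩
        exact (mem_filter.1 (h1 k)).2
    rw [e]
    by_cases hP : P κ
    · rw [if_pos hP]
      refine sum_congr rfl fun a ha => ?_
      have h1 : (fun k => cor (zz (a k))) = κ := by
        rw [← e, mem_filter] at ha
        exact ha.2
      rw [h1, if_pos hP]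
    · rw [if_neg hP]
      refine sum_eq_zero fun a ha => ?_
      have h1 : (fun k => cor (zz (a k))) = κ := by
        rw [← e, mem_filter] at ha
        exact ha.2
      rw [h1, if_neg hP]
  rw [key f, key g]
  refine sum_congr rfl fun κ _ => ?_
  by_cases hP : P κ
  · rw [if_pos hP, if_pos hP]
    exact prod_congr rfl fun k _ => h κ hP k
  · rw [if_neg hP, if_neg hP]

/-- six angles with given corners -/
def lift4 (κ : Fin 4 → ℤ) : Fin 6 → ℤ := ![κ 0, κ 1, κ 3, κ 2, 0, 0]

lemma cor_lift4 (κ : Fin 4 → ℤ) : cor (lift4 κ) = κ := by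
  funext i
  fin_cases i
  · rfl
  · show κ 1 + 0 = κ 1
    ring
  · rfl
  · show κ 3 + 0 = κ 3
    ring

open Classical in
/-- the leading coefficient -/
noncomputable def WD (N : ℕ) (D : List Pc) (r : Fin D.length → ℤ) : ℂ :=
  ∑ a : Fin D.length → Fin 6 → Fin N,
    if Sol D (fun k => zz (a k)) [0, 0] ((N : ℤ) - 1) then ∏ k, tpL N (r k) (zz (a k)) else 0

open Classical in
lemma WD_eq {N : ℕ} (hN : 0 < N) (D : List Pc) (r : Fin D.length → ℤ) :
    WD N D r = ∑ a : Fin D.length → Fin 6 → Fin N,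
      if Sol D (fun k => zz (a k)) [0, 0] ((N : ℤ) - 1) then
        ∏ k, (Complex.I * Real.pi / (2 * N) * gW N (r k) (zz (a k))) else 0 := by
  have h := regroup (c := D.length) (N := N)
    (fun κ => Sol D (fun k => lift4 (κ k)) [0, 0] ((N : ℤ) - 1))
    (fun k x => tpL N (r k) (zz x))
    (fun k x => Complex.I * Real.pi / (2 * N) * gW N (r k) (zz x)) ?_
  · have e : ∀ a : Fin D.length → Fin 6 → Fin N,
        Sol D (fun k => lift4 (cor (zz (a k)))) [0, 0] ((N : ℤ) - 1) ↔
          Sol D (fun k => zz (a k)) [0, 0] ((N : ℤ) - 1) := by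
      intro a
      constructor
      · exact Sol_cor D _ _ _ _ fun k => cor_lift4 _
      · exact Sol_cor D _ _ _ _ fun k => (cor_lift4 _).symm
    simp only [e] at h
    exact h
  · intro κ hκ k
    -- the sum of the corners
    have h1 := ((Pool.Agent.Q237.FAL.task_SO.1 ℤ D _ [0, 0] _).1 hκ).1 k
    rw [n12', cor_lift4] at h1
    by_cases hne : ((univ : Finset (Fin 6 → Fin N)).filter (fun x => cor (zz x) = κ k)).Nonempty
    · obtain ⟨x0, hx0⟩ := hne
      have hx1 : cor (zz x0) = κ k := (mem_filter.1 hx0).2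
      have e : κ k = ![(((x0 0 : ℕ)) : ℤ), (((x0 1 : ℕ) + (x0 4 : ℕ) : ℕ) : ℤ), (((x0 3 : ℕ)) : ℤ),
          (((x0 2 : ℕ) + (x0 5 : ℕ) : ℕ) : ℤ)] := by
        rw [← hx1, cor_iff]
        exact ⟨rfl, rfl, rfl, rfl⟩
      have hs : (x0 0 : ℕ) + ((x0 1 : ℕ) + x0 4) + x0 3 + ((x0 2 : ℕ) + x0 5) + 1 = N := by
        rw [e] at h1
        simp only [Matrix.cons_val_zero, Matrix.cons_val_one, Matrix.cons_val] at h1
        push_cast at h1
        omega
      rw [e]
      exact fib_eq hs (r k)
    · rw [not_nonempty_iff_eq_empty.1 hne, sum_empty, sum_empty]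

open Classical in
/-- **the net of a diagram** (as `Pool.Agent.Q224.FAL.task_GD`, with the condition of the sums) -/
theorem net_of (D : List Pc) (hV : Val D 1) (hP : Pri D 1) (hD : D ≠ [])
    (p : Fin D.length → Fin 6 → ℝ) (hp : Pos D p) :
    ∃ X : Net D.length, X.Good p ∧ ∀ N : ℕ, 0 < N → ∀ a : Fin D.length → Fin 6 → Fin N,
      (Sol D (fun k => zz (a k)) [0, 0] ((N : ℤ) - 1) ↔
        (fun b => zz (a b)) - ((N : ℤ) - 1) • X.a0 ∈ X.L) := by
  have hSO := Pool.Agent.Q237.FAL.task_SO
  have hOZ := Pool.Agent.Q237.FAL.task_OZ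
  have hSUR := Pool.Agent.Q237.FAL.task_SUR
  have hNC := Pool.Agent.Q237.FAL.task_NC
  have hSP := Pool.Agent.Q299.FAL.task_SP
  have hncl : (D.map fun P => ncl P.ty).sum = D.length := by
    have := hNC.1 D 1 hV
    omega
  obtain ⟨a0, o0, s0, c0, g0⟩ := hSUR ℤ D 1 hV hP hD [0, 0] rfl rfl rfl (fun _ => 1)
    (List.replicate D.length 1) (by rw [List.length_replicate, hncl]) (by simp)
  have h0 : Sol D a0 [0, 0] 1 := by
    rw [hSO.1 ℤ D a0 [0, 0] 1]
    refine ⟨s0, ?_, g0⟩
    intro c hc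
    rw [c0] at hc
    exact List.eq_of_mem_replicate hc
  set L := lat hSO D a0 h0 with hL
  have hlat : IsLat D L := fun δ => Iff.rfl
  let X : Net D.length := ⟨L, a0⟩
  -- the real span
  have hspan : ∀ x ∈ X.LR, Sol D x [0, 0] 0 ∧ ∀ k i, Out D 1 k (c6 i) → x k i = 0 := by
    intro x hx
    refine Submodule.span_induction (p := fun x _ => Sol D x [0, 0] 0 ∧
      ∀ k i, Out D 1 k (c6 i) → x k i = 0) ?_ ?_ ?_ ?_ hx
    · rintro _ ⟨δ, hδ, rfl⟩
      have hδ' : Sol D δ [0, 0] 0 ∧ ∀ k i, Out D 1 k (c6 i) → δ k i = 0 := hδ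
      refine ⟨by simpa using sol_cast hSO hδ'.1, fun k i h => ?_⟩
      show ((δ k i : ℤ) : ℝ) = 0
      rw [hδ'.2 k i h, Int.cast_zero]
    · refine ⟨?_, fun _ _ _ => rfl⟩
      have := sol_smul hSO 0 (sol_cast hSO h0)
      simpa using this
    · rintro x y _ _ ⟨hx, hx'⟩ ⟨hy, hy'⟩
      refine ⟨by simpa using sol_add hSO hx hy, fun k i h => ?_⟩
      rw [Pi.add_apply, Pi.add_apply, hx' k i h, hy' k i h, add_zero]
    · rintro r x _ ⟨hx, hx'⟩
      refine ⟨by simpa using sol_smul hSO r hx, fun k i h => ?_⟩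
      rw [Pi.smul_apply, Pi.smul_apply, hx' k i h, smul_zero]
  have h0R : Sol D (toR a0) [0, 0] (1 : ℝ) := by simpa using sol_cast hSO h0
  have hnn : ∀ {a : Fin D.length → Fin 6 → ℝ} {u : ℝ}, Sol D a [0, 0] u → (∀ k i, 0 ≤ a k i) →
      ∀ k i, Out D 1 k (c6 i) → a k i = 0 := by
    intro a u ha hn
    exact hOZ.1 D 1 hV a [0, 0] u rfl (by simp) hn ha
  -- the angle structures
  have hAng : X.Ang = AS D := by
    ext a
    constructor
    · rintro ⟨h1, h2, h3⟩
      refine ⟨?_, fun k => (h3 k).1, h2⟩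
      have h4 := sol_add hSO (hspan _ h1).1 h0R
      have e : a - toR X.a0 + toR a0 = a := by
        show a - toR a0 + toR a0 = a
        exact sub_add_cancel _ _
      rw [e, zero_add] at h4
      exact h4
    · rintro ⟨h1, h2, h3⟩
      refine ⟨?_, h3, fun b => ⟨h2 b, ?_⟩⟩
      · show a - toR a0 ∈ Submodule.span ℝ (toR '' (L : Set _))
        refine hSP hSO D L hlat _ ?_ ?_
        · have h4 := sol_add hSO h1 (sol_smul hSO (-1) h0R)
          have e : a + (-1 : ℝ) • toR a0 = a - toR a0 := by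
            rw [neg_one_smul, sub_eq_add_neg]
          rw [e] at h4
          simpa using h4
        · intro k i h
          rw [Pi.sub_apply, Pi.sub_apply, hnn h1 h3 k i h]
          show 0 - ((a0 k i : ℤ) : ℝ) = 0
          rw [o0 k i h]
          simp
      · have h4 := ((hSO.1 ℝ D a [0, 0] 1).mp h1).1 b
        have h5 := h2 b
        linarith
  have hpz : ∀ b i, p b i = 0 ↔ Out D 1 b (c6 i) := by
    intro b i
    constructor
    · intro h
      by_contra hcon
      have := hp.pos b i hcon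
      linarith
    · exact hnn hp.sol hp.nonneg b i
  have hpAS : p ∈ AS D := ⟨hp.sol, hp.half, hp.nonneg⟩
  have hzero : Sol D (0 : Fin D.length → Fin 6 → ℤ) [0, 0] 0 := by
    have := sol_smul hSO 0 h0
    simpa using this
  refine ⟨X, ?_, ?_⟩
  · refine ⟨by rw [hAng]; exact hpAS, ?_, ?_, ?_, ?_, ?_, ?_, ?_, ?_, ?_, ?_⟩
    · intro δ hδ b i h
      have hδ' : Sol D δ [0, 0] 0 ∧ ∀ k i, Out D 1 k (c6 i) → δ k i = 0 := hδ
      exact hδ'.2 b i ((hpz b i).mp h)
    · intro b i h
      exact o0 b i ((hpz b i).mp h)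
    · intro δ hδ b
      have hδ' : Sol D δ [0, 0] 0 ∧ ∀ k i, Out D 1 k (c6 i) → δ k i = 0 := hδ
      exact ((hSO.1 ℤ D δ [0, 0] 0).mp hδ'.1).1 b
    · exact s0
    · intro b
      rw [hpz, hpz]
      rfl
    · intro b
      rw [hpz, hpz]
      rfl
    · rintro b ⟨h1, h2⟩
      exact Out_13 hV b ⟨(hpz b 1).mp h1, (hpz b 2).mp h2⟩
    · rintro b ⟨h1, h2, h3⟩
      refine Out_02 hV b ⟨(hpz b 0).mp h1, (hpz b 3).mp h2, ?_⟩
      rcases h3 with h3 | h3
      · exact Or.inl ((hpz b 1).mp h3)
      · exact Or.inr ((hpz b 2).mp h3)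
    · intro b hb
      show eij b 1 4 ∈ L
      rw [hlat]
      refine ⟨Sol_cor D 0 _ _ _ (fun k => ?_) hzero, ?_⟩
      · rw [(eij_cor b).1 k]
        funext j
        fin_cases j <;> rfl
      · intro k i h
        by_cases hk : k = b
        · subst hk
          have hb' : ¬ Out D 1 k 1 := fun h' => hb ((hpz k 1).mpr h')
          fin_cases i
          · simp [eij]
          · exact absurd h hb'
          · simp [eij]
          · simp [eij]
          · exact absurd h hb'
          · simp [eij]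
        · simp [eij, hk]
    · intro b hb
      show eij b 2 5 ∈ L
      rw [hlat]
      refine ⟨Sol_cor D 0 _ _ _ (fun k => ?_) hzero, ?_⟩
      · rw [(eij_cor b).2 k]
        funext j
        fin_cases j <;> rfl
      · intro k i h
        by_cases hk : k = b
        · subst hk
          have hb' : ¬ Out D 1 k 3 := fun h' => hb ((hpz k 2).mpr h')
          fin_cases i
          · simp [eij]
          · simp [eij]
          · exact absurd h hb'
          · simp [eij]
          · simp [eij]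
          · exact absurd h hb'
        · simp [eij, hk]
  · intro N hN a
    constructor
    · intro h
      show (fun b => zz (a b)) - ((N : ℤ) - 1) • a0 ∈ L
      rw [hlat]
      refine ⟨?_, ?_⟩
      · have h4 := sol_add hSO h (sol_smul hSO (-((N : ℤ) - 1)) h0)
        have e : (fun k => zz (a k)) + (-((N : ℤ) - 1)) • a0 =
            (fun b => zz (a b)) - ((N : ℤ) - 1) • a0 := by
          rw [neg_smul]
          exact (sub_eq_add_neg _ _).symm
        rw [e] at h4
        have e2 : (N : ℤ) - 1 + -((N : ℤ) - 1) * 1 = 0 := by ring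
        rw [e2] at h4
        exact h4
      · intro k i ho
        have h5 := hOZ.2 D 1 hV (fun k => zz (a k)) [0, 0] _ rfl (by simp) (fun k i => by
          unfold zz; positivity) h k i ho
        rw [Pi.sub_apply, Pi.sub_apply, Pi.smul_apply, Pi.smul_apply, o0 k i ho, smul_zero,
          sub_zero]
        exact h5
    · intro h
      have h' : Sol D ((fun b => zz (a b)) - ((N : ℤ) - 1) • a0) [0, 0] 0 := ((hlat _).mp h).1
      have h4 := sol_add hSO h' (sol_smul hSO ((N : ℤ) - 1) h0)
      rw [sub_add_cancel] at h4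
      simpa using h4

/-- **the leading coefficient does not vanish for large `N`** -/
theorem WD_ne (D : List Pc) (hV : Val D 1) (hP : Pri D 1) (hD : D ≠ [])
    (p : Fin D.length → Fin 6 → ℝ) (hp : Pos D p) (r : Fin D.length → ℤ) :
    ∀ᶠ N : ℕ in atTop, WD N D r ≠ 0 := by
  classical
  obtain ⟨X, hX, hiff⟩ := net_of D hV hP hD p hp
  have h1 := net_w X p (fun k => (r k : ℝ)) hX
  filter_upwards [h1, eventually_gt_atTop 0] with N hN hN0
  rw [WD_eq hN0]
  have hc : (Complex.I * Real.pi / (2 * N)) ≠ 0 := by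
    have : (N : ℂ) ≠ 0 := by exact_mod_cast hN0.ne'
    have h2 : (Real.pi : ℂ) ≠ 0 := by exact_mod_cast Real.pi_ne_zero
    exact div_ne_zero (mul_ne_zero Complex.I_ne_zero h2) (mul_ne_zero two_ne_zero this)
  have e : (∑ a : Fin D.length → Fin 6 → Fin N,
      if Sol D (fun k => zz (a k)) [0, 0] ((N : ℤ) - 1) then
        ∏ k, (Complex.I * Real.pi / (2 * N) * gW N (r k) (zz (a k))) else 0) =
      (Complex.I * Real.pi / (2 * N)) ^ D.length *
        ZT X (fun v => ((zw N v : ℝ) : ℂ) * tN (fun k => (r k : ℝ)) N v) N := by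
    unfold ZT
    rw [mul_sum]
    refine sum_congr rfl fun a _ => ?_
    have h3 := hiff N hN0 a
    by_cases hs : Sol D (fun k => zz (a k)) [0, 0] ((N : ℤ) - 1)
    · rw [if_pos hs, if_pos (h3.1 hs), prod_mul_distrib, prod_const, card_univ, Fintype.card_fin]
      congr 1
      unfold gW zw tN
      beta_reduce
      rw [prod_mul_distrib, Complex.ofReal_prod]
    · rw [if_neg hs, if_neg fun h => hs (h3.2 h), mul_zero]
  rw [e]
  exact mul_ne_zero (pow_ne_zero _ hc) hN

end Pool.Agent.KS6_92.Wt
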