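import Pool.Agent.KS6_92.Wt6
import Pool.Graph.R_pool_sql_team_seeded_3997aac3.Q99.HT.Asm1

/-!
# Kashaev invariants along a line of twist numbers are not bounded
-/

set_option autoImplicit false

namespace Pool.Agent.KS6_92.Wt

open Finset Filter Topology
open Pool.Agent.Q99.FAL
open Pool.Agent.Q99.HT (tp ZD wf kas)
open Pool.Agent.Q191.LB (sg)

/-- twist regions with given signed numbers of crossings -/
def fn {c : ℕ} (n : Fin c → ℤ) : Fin c → Bool × ℕ := fun k => (decide (0 ≤ n k), (n k).natAbs)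

lemma wf_fn {c : ℕ} (n : Fin c → ℤ) : wf (fn n) = n := by
  funext k
  unfold wf fn
  by_cases h : 0 ≤ n k
  · simp only [h, decide_true]
    show (1 : ℤ) * ((n k).natAbs : ℤ) = n k
    omega
  · simp only [h, decide_false]
    show (-1 : ℤ) * ((n k).natAbs : ℤ) = n k
    omega

open Classical in
/-- the state sum along a line is a polynomial -/
noncomputable def PD (N : ℕ) (D : List Pc) (r ν : Fin D.length → ℤ) : Polynomial ℂ :=
  ∑ a : Fin D.length → Fin 6 → Fin N,
    if Sol D (fun k => zz (a k)) [0, 0] ((N : ℤ) - 1) then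
      ∏ k, (Polynomial.C (((8 * N * ν k : ℤ) : ℂ) * tpL N (r k) (zz (a k))) * Polynomial.X +
        Polynomial.C ((r k : ℂ) * tpL N (r k) (zz (a k)) + tpS N (r k) (zz (a k)))) else 0

lemma tpL_per {N : ℕ} (hN : 0 < N) (w m : ℤ) (x : Fin 6 → ℤ) :
    tpL N (w + 8 * N * m) x = tpL N w x := by
  unfold tpL
  rw [FL_per hN]

lemma tpS_per {N : ℕ} (hN : 0 < N) (w m : ℤ) (x : Fin 6 → ℤ) :
    tpS N (w + 8 * N * m) x = tpS N w x := by
  unfold tpS
  rw [FS_per hN]

lemma PD_eval {N : ℕ} (hN : 0 < N) (D : List Pc) (r ν : Fin D.length → ℤ) (m : ℕ) :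
    (PD N D r ν).eval (m : ℂ) = ZD N D (r + ((8 * N * m : ℕ) : ℤ) • ν) := by
  unfold PD ZD
  rw [Polynomial.eval_finset_sum]
  refine sum_congr rfl fun a _ => ?_
  split_ifs with h
  · rw [Polynomial.eval_prod]
    refine prod_congr rfl fun k _ => ?_
    rw [tp_eq]
    have e : (r + ((8 * N * m : ℕ) : ℤ) • ν) k = r k + 8 * N * (m * ν k) := by
      simp only [Pi.add_apply, Pi.smul_apply, smul_eq_mul]
      push_cast
      ring
    rw [e, tpL_per hN, tpS_per hN]
    simp only [Polynomial.eval_add, Polynomial.eval_mul, Polynomial.eval_C, Polynomial.eval_X]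
    push_cast
    ring
  · exact Polynomial.eval_zero

lemma PD_coeff (N : ℕ) (D : List Pc) (r ν : Fin D.length → ℤ) :
    (PD N D r ν).coeff D.length = (∏ k, ((8 * N * ν k : ℤ) : ℂ)) * WD N D r := by
  classical
  unfold PD WD
  rw [Polynomial.finset_sum_coeff, mul_sum]
  refine sum_congr rfl fun a _ => ?_
  split_ifs with h
  · rw [← prod_mul_distrib]
    have h1 := Polynomial.coeff_prod_of_natDegree_le (univ : Finset (Fin D.length))
      (fun k => (Polynomial.C (((8 * N * ν k : ℤ) : ℂ) * tpL N (r k) (zz (a k))) * Polynomial.X +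
        Polynomial.C ((r k : ℂ) * tpL N (r k) (zz (a k)) + tpS N (r k) (zz (a k))))) 1
      (fun k _ => Polynomial.natDegree_linear_le)
    rw [card_univ, Fintype.card_fin, mul_one] at h1
    rw [h1]
    refine prod_congr rfl fun k _ => ?_
    rw [Polynomial.coeff_add, Polynomial.coeff_C_mul, Polynomial.coeff_X_one, mul_one,
      Polynomial.coeff_C, if_neg one_ne_zero, add_zero]
  · simp

/-- **a bounded line** -/
theorem WD_zero (D : List Pc) (hV : Val D 1) (hD : D ≠ []) {N : ℕ} (hN : 0 < N)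
    (r ν : Fin D.length → ℤ) (hν : ∀ k, ν k ≠ 0) (B : ℝ)
    (hB : ∀ m : ℕ, ‖kas N D (fn (r + (m : ℤ) • ν))‖ ≤ B) : WD N D r = 0 := by
  by_contra hne
  have hc : 0 < D.length := List.length_pos_iff.2 hD
  have h1 : (PD N D r ν).coeff D.length ≠ 0 := by
    rw [PD_coeff]
    refine mul_ne_zero (prod_ne_zero_iff.2 fun k _ => ?_) hne
    have : (8 * N * ν k : ℤ) ≠ 0 := by
      have h2 : (N : ℤ) ≠ 0 := by exact_mod_cast hN.ne'
      exact mul_ne_zero (mul_ne_zero (by norm_num) h2) (hν k)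
    exact_mod_cast this
  have h2 : 0 < (PD N D r ν).degree := by
    refine lt_of_lt_of_le ?_ (Polynomial.le_degree_of_ne_zero h1)
    exact_mod_cast hc
  have h3 := Polynomial.tendsto_norm_atTop (PD N D r ν) h2 (l := atTop) (z := fun m : ℕ => (m : ℂ)) (by
    simp only [Complex.norm_natCast]
    exact tendsto_natCast_atTop_atTop)
  have hN' : (0 : ℝ) < N := by exact_mod_cast hN
  obtain ⟨m, hm⟩ := (h3.eventually_gt_atTop (B / ((N / Real.pi) ^ D.length))).exists
  obtain ⟨θ, hθ, h4⟩ := Pool.Agent.Q99.HT.t_SG N hN D (fn (r + ((8 * N * m : ℕ) : ℤ) • ν)) hV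
  have h5 := hB (8 * N * m)
  unfold kas at h5
  rw [dif_pos hN, h4, wf_fn, ← PD_eval hN, norm_mul, norm_mul, hθ, one_mul, norm_pow, norm_div,
    Complex.norm_natCast, Complex.norm_real, Real.norm_eq_abs, abs_of_pos Real.pi_pos] at h5
  rw [div_lt_iff₀ (by have := Real.pi_pos; positivity)] at hm
  linarith

/-- **Kashaev invariants along a line of twist numbers are not bounded** -/
theorem line_unbounded (D : List Pc) (hV : Val D 1) (hP : Pri D 1) (hD : D ≠ [])
    (p : Fin D.length → Fin 6 → ℝ) (hp : Pos D p) (r ν : Fin D.length → ℤ) (hν : ∀ k, ν k ≠ 0) :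
    ∀ᶠ N : ℕ in atTop, ∀ B : ℝ, ∃ m : ℕ, B < ‖kas N D (fn (r + (m : ℤ) • ν))‖ := by
  filter_upwards [WD_ne D hV hP hD p hp r, eventually_gt_atTop 0] with N hN hN0 B
  by_contra hcon
  push Not at hcon
  exact hN (WD_zero D hV hD hN0 r ν hν B hcon)

end Pool.Agent.KS6_92.Wt
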